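import Mathlib

/-!
# Schubert polynomials, principal evaluation, layered permutations

Positions and values are counted from `0` : a permutation of `{1,…,n}` is an element of
`Equiv.Perm (Fin n)`.
-/

namespace Pool.Agent.helper54.Schub

open Equiv MvPolynomial

/-- `S` is the family of Schubert polynomials of `S_n` :
`S (w₀) = x₀^{n-1} x₁^{n-2} ⋯ x_{n-1}^0`, and `S (w s_i) = ∂_i (S w)` whenever `w s_i` has fewer
inversions than `w`, that is, whenever `w (i+1) < w i`.  The equation `g = ∂_i f` is written as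
`(x_i - x_{i+1}) g = f - s_i f`. -/
def IsSchubert (n : ℕ) (S : Perm (Fin n) → MvPolynomial (Fin n) ℤ) : Prop :=
  S Fin.revPerm = ∏ i : Fin n, X i ^ (n - 1 - (i : ℕ)) ∧
  ∀ (w : Perm (Fin n)) (i j : Fin n), (i : ℕ) + 1 = j → w j < w i →
    (X i - X j) * S (w * swap i j) = S w - rename (swap i j) (S w)

/-- The principal evaluation `ν_w = 𝔖_w(1,…,1)`. -/
noncomputable def nu {n : ℕ} (S : Perm (Fin n) → MvPolynomial (Fin n) ℤ) (w : Perm (Fin n)) : ℤ :=
  eval (fun _ => 1) (S w)

/-- Layered permutations : there are `0 = a 0 < a 1 < ⋯ < a k = n` such that `w` maps every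
interval `[a t, a (t+1))` onto itself, reversing it. -/
def IsLayered {n : ℕ} (w : Perm (Fin n)) : Prop :=
  ∃ (k : ℕ) (a : ℕ → ℕ), a 0 = 0 ∧ a k = n ∧ (∀ t < k, a t < a (t + 1)) ∧
    ∀ t < k, ∀ p : Fin n, a t ≤ p → (p : ℕ) < a (t + 1) → (w p : ℕ) + p + 1 = a t + a (t + 1)

end Pool.Agent.helper54.Schub
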