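import Mathlib

/-!
# NilCoxeter relations: ring level identities
-/

namespace Pool.Agent.helper54.Schub

variable {K R : Type*} [CommRing K] [Ring R] [Algebra K R]

/-- The nilCoxeter relations for a sequence of elements of a ring. -/
structure NilCox (u : ℕ → R) : Prop where
  sq : ∀ i, u i * u i = 0
  comm : ∀ i j, i + 2 ≤ j → u i * u j = u j * u i
  braid : ∀ i, u i * u (i + 1) * u i = u (i + 1) * u i * u (i + 1)

/-- `fac x u j = 1 + x u_j`. -/
def fac (u : ℕ → R) (x : K) (j : ℕ) : R := 1 + x • u j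

/-- decreasing product `(1 + x u_{p+l-1}) ⋯ (1 + x u_p)`. -/
def dn (u : ℕ → R) (x : K) : ℕ → ℕ → R
  | 0, _ => 1
  | (l + 1), p => dn u x l (p + 1) * fac u x p

/-- increasing product `(1 + x u_p) ⋯ (1 + x u_{p+l-1})`. -/
def up (u : ℕ → R) (x : K) : ℕ → ℕ → R
  | 0, _ => 1
  | (l + 1), p => fac u x p * up u x l (p + 1)

@[simp] lemma dn_zero (u : ℕ → R) (x : K) (p : ℕ) : dn u x 0 p = 1 := rfl
lemma dn_succ (u : ℕ → R) (x : K) (l p : ℕ) :
    dn u x (l + 1) p = dn u x l (p + 1) * fac u x p := rfl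
@[simp] lemma up_zero (u : ℕ → R) (x : K) (p : ℕ) : up u x 0 p = 1 := rfl
lemma up_succ (u : ℕ → R) (x : K) (l p : ℕ) :
    up u x (l + 1) p = fac u x p * up u x l (p + 1) := rfl

variable {u : ℕ → R}

lemma fac_comm_fac (hu : NilCox u) (x y : K) (i j : ℕ) (h : i + 2 ≤ j) :
    fac u x i * fac u y j = fac u y j * fac u x i := by
  have := hu.comm i j h
  simp only [fac, mul_add, add_mul, one_mul, mul_one, smul_mul_assoc, mul_smul_comm, this]
  module

lemma fac_mul_fac_same (hu : NilCox u) (x y : K) (i : ℕ) :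
    fac u x i * fac u y i = fac u (x + y) i := by
  simp only [fac, mul_add, add_mul, one_mul, mul_one, smul_mul_assoc, mul_smul_comm, hu.sq,
    smul_zero]
  module

@[simp] lemma fac_zero' (u : ℕ → R) (i : ℕ) : fac u (0 : K) i = 1 := by simp [fac]

lemma fac_mul_neg (hu : NilCox u) (x : K) (i : ℕ) : fac u x i * fac u (-x) i = 1 := by
  rw [fac_mul_fac_same hu]; simp

lemma neg_mul_fac (hu : NilCox u) (x : K) (i : ℕ) : fac u (-x) i * fac u x i = 1 := by
  rw [fac_mul_fac_same hu]; simp

lemma u_comm_fac (hu : NilCox u) (x : K) (i j : ℕ) (h : i + 2 ≤ j) :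
    u i * fac u x j = fac u x j * u i := by
  have := hu.comm i j h
  simp only [fac, mul_add, add_mul, one_mul, mul_one, smul_mul_assoc, mul_smul_comm, this]

lemma u_comm_dn (hu : NilCox u) (x : K) (i : ℕ) : ∀ (l p : ℕ), i + 2 ≤ p →
    u i * dn u x l p = dn u x l p * u i
  | 0, p, _ => by simp
  | (l + 1), p, h => by
    rw [dn_succ, ← mul_assoc, u_comm_dn hu x i l (p + 1) (by omega), mul_assoc,
      u_comm_fac hu x i p h, mul_assoc]

lemma fac_comm_dn (hu : NilCox u) (x y : K) (i : ℕ) (l p : ℕ) (h : i + 2 ≤ p) :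
    fac u y i * dn u x l p = dn u x l p * fac u y i := by
  simp only [fac, mul_add, add_mul, one_mul, mul_one, smul_mul_assoc, mul_smul_comm,
    u_comm_dn hu x i l p h]

lemma dn_mul_up_neg (hu : NilCox u) (x : K) : ∀ (l p : ℕ), dn u x l p * up u (-x) l p = 1
  | 0, p => by simp
  | (l + 1), p => by
    rw [dn_succ, up_succ, mul_assoc, ← mul_assoc (fac u x p), fac_mul_neg hu, one_mul,
      dn_mul_up_neg hu x l (p + 1)]

lemma up_neg_mul_dn (hu : NilCox u) (x : K) : ∀ (l p : ℕ), up u (-x) l p * dn u x l p = 1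
  | 0, p => by simp
  | (l + 1), p => by
    rw [dn_succ, up_succ, mul_assoc, ← mul_assoc (up u (-x) l (p + 1)),
      up_neg_mul_dn hu x l (p + 1), one_mul, neg_mul_fac hu]

/-- The key four-term product. -/
lemma theta (hu : NilCox u) (x y : K) (i : ℕ) :
    fac u (-y) (i + 1) * fac u x i * fac u y (i + 1) * fac u y i =
      1 + (x + y) • u i + (x * y) • (u i * u (i + 1) - u (i + 1) * u i) := by
  have h1 := hu.sq i
  have h2 := hu.sq (i + 1)
  have h3 := hu.braid i
  set a := u i with ha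
  set b := u (i + 1) with hb
  have e1 : fac u (-y) (i + 1) * fac u x i * fac u y (i + 1) =
      1 + x • a + (x * y) • (a * b) - (x * y) • (b * a) - (x * y * y) • (b * a * b) := by
    simp only [fac, ← ha, ← hb]
    simp only [mul_add, add_mul, one_mul, mul_one, smul_mul_assoc, mul_smul_comm,
      neg_smul, neg_mul, smul_add, h2, smul_zero]
    module
  rw [e1]
  simp only [fac, ← ha]
  have h4 : b * a * b * a = 0 := by
    rw [← h3, mul_assoc (a * b) a a, h1, mul_zero]
  have h5 : b * a * a = 0 := by rw [mul_assoc, h1, mul_zero]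
  simp only [mul_add, add_mul, sub_mul, one_mul, mul_one, smul_mul_assoc, mul_smul_comm,
    h1, h4, h5, smul_zero, h3]
  module

/-- The decreasing products with the same generators commute. -/
theorem dn_comm (hu : NilCox u) (x y : K) : ∀ (l p : ℕ),
    dn u x l p * dn u y l p = dn u y l p * dn u x l p
  | 0, p => by simp
  | 1, p => by
    simp only [dn_succ, dn_zero, one_mul]
    rw [fac_mul_fac_same hu, fac_mul_fac_same hu, add_comm]
  | (l + 2), p => by
    have key : ∀ x y : K, dn u x (l + 2) p * dn u y (l + 2) p =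
        dn u x (l + 1) (p + 1) * dn u y (l + 1) (p + 1) *
          (fac u (-y) (p + 1) * fac u x p * fac u y (p + 1) * fac u y p) := by
      intro x y
      have h1 : fac u y (p + 1) * fac u (-y) (p + 1) = 1 := fac_mul_neg hu y (p + 1)
      rw [dn_succ u x (l + 1) p, dn_succ u y (l + 1) p, dn_succ u y l (p + 1)]
      calc dn u x (l + 1) (p + 1) * fac u x p * (dn u y l (p + 1 + 1) * fac u y (p + 1) * fac u y p)
          = dn u x (l + 1) (p + 1) * (fac u x p * dn u y l (p + 1 + 1)) * fac u y (p + 1) *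
              fac u y p := by noncomm_ring
        _ = dn u x (l + 1) (p + 1) * (dn u y l (p + 1 + 1) * fac u x p) * fac u y (p + 1) *
              fac u y p := by rw [fac_comm_dn hu y x p l (p + 1 + 1) (by omega)]
        _ = dn u x (l + 1) (p + 1) * (dn u y l (p + 1 + 1) * 1 * fac u x p) * fac u y (p + 1) *
              fac u y p := by rw [mul_one]
        _ = _ := by rw [← h1]; noncomm_ring
    rw [key x y, key y x, theta hu, theta hu, dn_comm hu x y (l + 1) (p + 1), add_comm x y,
      mul_comm x y]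

/-- The interpolation identity `(x-y) C₁(x) C₁(y) = x C₁(x) C₂(y) - y C₁(y) C₂(x)`. -/
theorem interp (hu : NilCox u) (x y : K) (l p : ℕ) :
    (x - y) • (dn u x (l + 1) p * dn u y (l + 1) p) =
      x • (dn u x (l + 1) p * dn u y l (p + 1)) - y • (dn u y (l + 1) p * dn u x l (p + 1)) := by
  have h1 : ∀ z : K, dn u z l (p + 1) = dn u z (l + 1) p * fac u (-z) p := by
    intro z; rw [dn_succ, mul_assoc, fac_mul_neg hu, mul_one]
  rw [h1 x, h1 y, ← mul_assoc, ← mul_assoc, dn_comm hu y x (l + 1) p]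
  simp only [fac, mul_add, mul_one, neg_smul, mul_neg, mul_smul_comm, smul_add, smul_neg,
    smul_smul, sub_smul, mul_comm y x]
  abel

/-- Fomin–Stanley: divided differences of the generating function. -/
theorem fomin_stanley (hu : NilCox u) (x y : K) (l p : ℕ) :
    dn u x (l + 1) p * dn u y l (p + 1) - dn u y (l + 1) p * dn u x l (p + 1) =
      (x - y) • (dn u x (l + 1) p * dn u y l (p + 1) * u p) := by
  have h1 : ∀ z : K, dn u z l (p + 1) = dn u z (l + 1) p * fac u (-z) p := by
    intro z; rw [dn_succ, mul_assoc, fac_mul_neg hu, mul_one]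
  rw [h1 x, h1 y, ← mul_assoc, ← mul_assoc, dn_comm hu y x (l + 1) p]
  have h2 := hu.sq p
  simp only [fac, mul_add, mul_one, neg_smul, mul_neg, mul_smul_comm, add_mul, neg_mul,
    smul_mul_assoc, mul_assoc, h2, mul_zero, smul_zero, neg_zero, add_zero, sub_smul]
  abel

/-- `sch l p = C_p C_{p+1} ⋯ C_{p+l-1}` (all variables equal to one). -/
def sch (K : Type*) [CommRing K] [Algebra K R] (u : ℕ → R) : ℕ → ℕ → R
  | 0, _ => 1
  | (l + 1), p => dn u (1 : K) (l + 1) p * sch K u l (p + 1)

@[simp] lemma sch_zero (u : ℕ → R) (p : ℕ) : sch K u 0 p = 1 := rfl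
lemma sch_succ (u : ℕ → R) (l p : ℕ) :
    sch K u (l + 1) p = dn u (1 : K) (l + 1) p * sch K u l (p + 1) := rfl

lemma fac_comm_sch (hu : NilCox u) (y : K) (i : ℕ) : ∀ (l p : ℕ), i + 2 ≤ p →
    fac u y i * sch K u l p = sch K u l p * fac u y i
  | 0, p, _ => by simp
  | (l + 1), p, h => by
    rw [sch_succ, ← mul_assoc, fac_comm_dn hu 1 y i (l + 1) p h, mul_assoc,
      fac_comm_sch hu y i l (p + 1) (by omega), mul_assoc]

/-- row reading = column reading -/
theorem dn_mul_sch (hu : NilCox u) : ∀ (l p : ℕ),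
    dn u (1 : K) (l + 1) p * sch K u l (p + 1) = sch K u l (p + 1) * up u (1 : K) (l + 1) p
  | 0, p => by simp [dn_succ, up_succ]
  | (l + 1), p => by
    have ih := dn_mul_sch hu l (p + 1)
    calc dn u (1 : K) (l + 1 + 1) p * sch K u (l + 1) (p + 1)
        = dn u (1 : K) (l + 1) (p + 1) * fac u (1 : K) p *
            (dn u (1 : K) (l + 1) (p + 1) * sch K u l (p + 1 + 1)) := by
          rw [dn_succ u (1 : K) (l + 1) p, sch_succ]
      _ = dn u (1 : K) (l + 1) (p + 1) * fac u (1 : K) p *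
            (sch K u l (p + 1 + 1) * up u (1 : K) (l + 1) (p + 1)) := by rw [ih]
      _ = dn u (1 : K) (l + 1) (p + 1) * (fac u (1 : K) p * sch K u l (p + 1 + 1)) *
            up u (1 : K) (l + 1) (p + 1) := by noncomm_ring
      _ = dn u (1 : K) (l + 1) (p + 1) * (sch K u l (p + 1 + 1) * fac u (1 : K) p) *
            up u (1 : K) (l + 1) (p + 1) := by
          rw [fac_comm_sch hu 1 p l (p + 1 + 1) (by omega)]
      _ = dn u (1 : K) (l + 1) (p + 1) * sch K u l (p + 1 + 1) *
            (fac u (1 : K) p * up u (1 : K) (l + 1) (p + 1)) := by noncomm_ring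
      _ = _ := by rw [← up_succ, sch_succ]

lemma sch_succ' (hu : NilCox u) (l p : ℕ) :
    sch K u (l + 1) p = sch K u l (p + 1) * up u (1 : K) (l + 1) p := by
  rw [sch_succ, dn_mul_sch hu]

/-- `C_p 𝔖 = 𝔖 C_p^*` for the full `𝔖 = sch l p`. -/
theorem dn_mul_sch_self (hu : NilCox u) : ∀ (l p : ℕ),
    dn u (1 : K) l p * sch K u l p = sch K u l p * up u (1 : K) l p
  | 0, p => by simp
  | (l + 1), p => by
    rw [sch_succ]
    conv_lhs => rw [dn_mul_sch hu]
    rw [← mul_assoc]

end Pool.Agent.helper54.Schub
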