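import Mathlib
import Pool.Agent.helper54.Schub.Ring

/-!
# The nilCoxeter algebra acting on functions on permutations of `ℕ`
-/

namespace Pool.Agent.helper54.Schub

open Equiv

/-- the adjacent transposition `(j, j+1)` of `ℕ`. -/
def sj (j : ℕ) : Perm ℕ := swap j (j + 1)

@[simp] lemma sj_left (j : ℕ) : sj j j = j + 1 := by simp [sj]
@[simp] lemma sj_right (j : ℕ) : sj j (j + 1) = j := by simp [sj]
lemma sj_of_ne {j x : ℕ} (h1 : x ≠ j) (h2 : x ≠ j + 1) : sj j x = x := swap_apply_of_ne_of_ne h1 h2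
@[simp] lemma sj_mul_self (j : ℕ) : sj j * sj j = 1 := swap_mul_self _ _
@[simp] lemma sj_inv (j : ℕ) : (sj j)⁻¹ = sj j := swap_inv _ _
lemma sj_mul_cancel (j : ℕ) (w : Perm ℕ) : sj j * (sj j * w) = w := by
  rw [← mul_assoc, sj_mul_self, one_mul]
lemma mul_sj_cancel (j : ℕ) (w : Perm ℕ) : w * sj j * sj j = w := by
  rw [mul_assoc, sj_mul_self, mul_one]

lemma sj_apply (j x : ℕ) : sj j x = if x = j then j + 1 else if x = j + 1 then j else x := by
  unfold sj; rw [swap_apply_def]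

lemma sj_comm {i j : ℕ} (h : i + 2 ≤ j) : sj i * sj j = sj j * sj i := by
  ext x
  simp only [Perm.coe_mul, Function.comp_apply, sj_apply]
  split_ifs <;> omega

lemma sj_braid (i : ℕ) : sj i * sj (i + 1) * sj i = sj (i + 1) * sj i * sj (i + 1) := by
  ext x
  simp only [Perm.coe_mul, Function.comp_apply, sj_apply]
  split_ifs <;> omega

variable (K : Type*) [CommRing K]

/-- left action of the nilCoxeter generator -/
def lam (j : ℕ) : Module.End K (Perm ℕ → K) where
  toFun f w := if w⁻¹ (j + 1) < w⁻¹ j then f (sj j * w) else 0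
  map_add' f g := by ext w; simp only [Pi.add_apply]; split_ifs <;> simp
  map_smul' c f := by ext w; simp only [Pi.smul_apply, RingHom.id_apply]; split_ifs <;> simp

/-- right action of the nilCoxeter generator -/
def rho (j : ℕ) : Module.End K (Perm ℕ → K) where
  toFun f w := if w (j + 1) < w j then f (w * sj j) else 0
  map_add' f g := by ext w; simp only [Pi.add_apply]; split_ifs <;> simp
  map_smul' c f := by ext w; simp only [Pi.smul_apply, RingHom.id_apply]; split_ifs <;> simp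

variable {K}

lemma lam_apply (j : ℕ) (f : Perm ℕ → K) (w : Perm ℕ) :
    lam K j f w = if w⁻¹ (j + 1) < w⁻¹ j then f (sj j * w) else 0 := rfl
lemma rho_apply (j : ℕ) (f : Perm ℕ → K) (w : Perm ℕ) :
    rho K j f w = if w (j + 1) < w j then f (w * sj j) else 0 := rfl

lemma inv_sj_mul (j : ℕ) (w : Perm ℕ) (x : ℕ) : (sj j * w)⁻¹ x = w⁻¹ (sj j x) := by
  simp [mul_inv_rev]

theorem nilCox_lam : NilCox (lam K) where
  sq i := by
    ext f w
    simp only [Module.End.mul_apply, LinearMap.zero_apply, Pi.zero_apply, lam_apply, inv_sj_mul,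
      sj_left, sj_right]
    split_ifs <;> first | rfl | (exfalso; omega)
  comm i j h := by
    ext f w
    simp only [Module.End.mul_apply, lam_apply, inv_sj_mul]
    have e1 : sj i j = j := sj_of_ne (by omega) (by omega)
    have e2 : sj i (j + 1) = j + 1 := sj_of_ne (by omega) (by omega)
    have e3 : sj j i = i := sj_of_ne (by omega) (by omega)
    have e4 : sj j (i + 1) = i + 1 := sj_of_ne (by omega) (by omega)
    rw [e1, e2, e3, e4, ← mul_assoc, ← mul_assoc, sj_comm h]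
    split_ifs <;> rfl
  braid i := by
    ext f w
    simp only [Module.End.mul_apply, lam_apply, inv_sj_mul]
    have e1 : sj i (i + 1 + 1) = i + 1 + 1 := sj_of_ne (by omega) (by omega)
    have e2 : sj (i + 1) i = i := sj_of_ne (by omega) (by omega)
    simp only [sj_left, sj_right, e1, e2]
    have e7 : sj i * (sj (i + 1) * (sj i * w)) = sj (i + 1) * (sj i * (sj (i + 1) * w)) := by
      simp only [← mul_assoc]
      rw [sj_braid]
    rw [e7]
    by_cases h1 : w⁻¹ (i + 1) < w⁻¹ i <;> by_cases h2 : w⁻¹ (i + 1 + 1) < w⁻¹ (i + 1) <;>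
      by_cases h3 : w⁻¹ (i + 1 + 1) < w⁻¹ i <;> simp only [h1, h2, h3, if_true, if_false]

lemma lam_comm_rho (i j : ℕ) : lam K i * rho K j = rho K j * lam K i := by
  ext f w
  have key : (w⁻¹ (i + 1) < w⁻¹ i ∧ sj i (w (j + 1)) < sj i (w j)) ↔
      (w (j + 1) < w j ∧ sj j (w⁻¹ (i + 1)) < sj j (w⁻¹ i)) := by
    by_cases h1 : w j = i ∧ w (j + 1) = i + 1
    · obtain ⟨h1, h2⟩ := h1
      have h3 : w⁻¹ i = j := by rw [Perm.inv_eq_iff_eq]; exact h1.symm
      have h4 : w⁻¹ (i + 1) = j + 1 := by rw [Perm.inv_eq_iff_eq]; exact h2.symm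
      rw [h1, h2, h3, h4]; simp
    by_cases h2 : w j = i + 1 ∧ w (j + 1) = i
    · obtain ⟨h1, h2⟩ := h2
      have h3 : w⁻¹ (i + 1) = j := by rw [Perm.inv_eq_iff_eq]; exact h1.symm
      have h4 : w⁻¹ i = j + 1 := by rw [Perm.inv_eq_iff_eq]; exact h2.symm
      rw [h1, h2, h3, h4]; simp
    have h3 : ¬ (w⁻¹ i = j ∧ w⁻¹ (i + 1) = j + 1) := by
      rw [Perm.inv_eq_iff_eq, Perm.inv_eq_iff_eq]
      intro h; exact h1 ⟨h.1.symm, h.2.symm⟩
    have h4 : ¬ (w⁻¹ i = j + 1 ∧ w⁻¹ (i + 1) = j) := by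
      rw [Perm.inv_eq_iff_eq, Perm.inv_eq_iff_eq]
      intro h; exact h2 ⟨h.2.symm, h.1.symm⟩
    have n1 : w j ≠ w (j + 1) := by simp
    have n2 : w⁻¹ i ≠ w⁻¹ (i + 1) := by simp
    have a1 : sj i (w (j + 1)) < sj i (w j) ↔ w (j + 1) < w j := by
      simp only [sj_apply]; split_ifs <;> omega
    have a2 : sj j (w⁻¹ (i + 1)) < sj j (w⁻¹ i) ↔ w⁻¹ (i + 1) < w⁻¹ i := by
      simp only [sj_apply]; split_ifs <;> omega
    rw [a1, a2]; tauto
  have L1 : (lam K i * rho K j) f w =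
      if (w⁻¹ (i + 1) < w⁻¹ i ∧ sj i (w (j + 1)) < sj i (w j)) then f (sj i * w * sj j) else 0 := by
    rw [Module.End.mul_apply, lam_apply, rho_apply]
    by_cases c1 : w⁻¹ (i + 1) < w⁻¹ i
    · by_cases c2 : sj i (w (j + 1)) < sj i (w j)
      · have c2' : (sj i * w) (j + 1) < (sj i * w) j := c2
        rw [if_pos c1, if_pos c2', if_pos ⟨c1, c2⟩]
      · have c2' : ¬ (sj i * w) (j + 1) < (sj i * w) j := c2
        rw [if_pos c1, if_neg c2', if_neg (fun h => c2 h.2)]
    · rw [if_neg c1, if_neg (fun h => c1 h.1)]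
  have L2 : (rho K j * lam K i) f w =
      if (w (j + 1) < w j ∧ sj j (w⁻¹ (i + 1)) < sj j (w⁻¹ i)) then f (sj i * w * sj j) else 0 := by
    rw [Module.End.mul_apply, rho_apply, lam_apply]
    have e : ∀ x, (w * sj j)⁻¹ x = sj j (w⁻¹ x) := by intro x; simp [mul_inv_rev]
    rw [e, e]
    by_cases c1 : w (j + 1) < w j
    · by_cases c2 : sj j (w⁻¹ (i + 1)) < sj j (w⁻¹ i)
      · rw [if_pos c1, if_pos c2, if_pos ⟨c1, c2⟩, mul_assoc]
      · rw [if_pos c1, if_neg c2, if_neg (fun h => c2 h.2)]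
    · rw [if_neg c1, if_neg (fun h => c1 h.1)]
  rw [L1, L2]
  by_cases h : (w⁻¹ (i + 1) < w⁻¹ i ∧ sj i (w (j + 1)) < sj i (w j))
  · rw [if_pos h, if_pos (key.1 h)]
  · rw [if_neg h, if_neg (fun h2 => h (key.2 h2))]

open scoped Classical in
/-- delta function at the identity -/
noncomputable def del (K : Type*) [CommRing K] : Perm ℕ → K := fun w => if w = 1 then 1 else 0

open scoped Classical in
lemma del_apply (w : Perm ℕ) : del K w = if w = 1 then 1 else 0 := rfl

lemma del_one : del K 1 = 1 := by rw [del_apply, if_pos rfl]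
lemma del_ne {w : Perm ℕ} (h : w ≠ 1) : del K w = 0 := by rw [del_apply, if_neg h]

lemma lam_del (j : ℕ) : lam K j (del K) = rho K j (del K) := by
  ext w
  rw [lam_apply, rho_apply]
  by_cases h : w = sj j
  · subst h
    simp [del_one]
  · have h1 : sj j * w ≠ 1 := by
      intro h1; apply h
      rw [mul_eq_one_iff_eq_inv] at h1
      rw [← sj_inv j, h1, inv_inv]
    have h2 : w * sj j ≠ 1 := by
      intro h1; apply h
      rw [mul_eq_one_iff_eq_inv] at h1
      rw [h1, sj_inv]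
    rw [del_ne h1, del_ne h2]; simp

/-- coefficient functional -/
noncomputable def cf (w : Perm ℕ) (G : Module.End K (Perm ℕ → K)) : K := G (del K) w

/-- elements commuting with the right action -/
def RC (G : Module.End K (Perm ℕ → K)) : Prop := ∀ j, G * rho K j = rho K j * G

lemma rc_lam (j : ℕ) : RC (lam K j) := fun i => lam_comm_rho j i
lemma rc_one : RC (1 : Module.End K (Perm ℕ → K)) := fun i => by simp
lemma rc_mul {G H : Module.End K (Perm ℕ → K)} (hG : RC G) (hH : RC H) : RC (G * H) := by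
  intro j; rw [mul_assoc, hH j, ← mul_assoc, hG j, mul_assoc]
lemma rc_add {G H : Module.End K (Perm ℕ → K)} (hG : RC G) (hH : RC H) : RC (G + H) := by
  intro j; rw [add_mul, mul_add, hG j, hH j]
lemma rc_smul (x : K) {G : Module.End K (Perm ℕ → K)} (hG : RC G) : RC (x • G) := by
  intro j; rw [smul_mul_assoc, mul_smul_comm, hG j]
lemma rc_fac (x : K) (j : ℕ) : RC (fac (lam K) x j) := rc_add rc_one (rc_smul x (rc_lam j))
lemma rc_dn (x : K) : ∀ l p, RC (dn (lam K) x l p)
  | 0, _ => rc_one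
  | (l + 1), p => rc_mul (rc_dn x l (p + 1)) (rc_fac x p)
lemma rc_up (x : K) : ∀ l p, RC (up (lam K) x l p)
  | 0, _ => rc_one
  | (l + 1), p => rc_mul (rc_fac x p) (rc_up x l (p + 1))
lemma rc_sch : ∀ l p, RC (sch K (lam K) l p)
  | 0, _ => rc_one
  | (l + 1), p => rc_mul (rc_dn 1 (l + 1) p) (rc_sch l (p + 1))
lemma rc_pow {G : Module.End K (Perm ℕ → K)} (hG : RC G) : ∀ n : ℕ, RC (G ^ n)
  | 0 => by rw [pow_zero]; exact rc_one
  | (n + 1) => by rw [pow_succ]; exact rc_mul (rc_pow hG n) hG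

end Pool.Agent.helper54.Schub
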