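import Mathlib
import Pool.Agent.helper54.Schub.Rep

/-!
# Block reversals, the trace property, supports
-/

namespace Pool.Agent.helper54.Schub

open Equiv

/-- reversal of the interval `[p, p+l]`. -/
def rv (p l : ℕ) : Perm ℕ where
  toFun x := if p ≤ x ∧ x ≤ p + l then 2 * p + l - x else x
  invFun x := if p ≤ x ∧ x ≤ p + l then 2 * p + l - x else x
  left_inv x := by
    dsimp only
    by_cases h : p ≤ x ∧ x ≤ p + l
    · rw [if_pos h, if_pos (by omega)]; omega
    · rw [if_neg h, if_neg h]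
  right_inv x := by
    dsimp only
    by_cases h : p ≤ x ∧ x ≤ p + l
    · rw [if_pos h, if_pos (by omega)]; omega
    · rw [if_neg h, if_neg h]

lemma rv_apply (p l x : ℕ) : rv p l x = if p ≤ x ∧ x ≤ p + l then 2 * p + l - x else x := rfl
lemma rv_inv (p l : ℕ) : (rv p l)⁻¹ = rv p l := rfl
lemma rv_inv_apply (p l x : ℕ) : (rv p l)⁻¹ x = if p ≤ x ∧ x ≤ p + l then 2 * p + l - x else x := rfl

lemma rv_zero (p : ℕ) : rv p 0 = 1 := by
  ext x; rw [rv_apply]; simp only [Perm.coe_one, id_eq]; split_ifs <;> omega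

lemma sj_mul_rv {p l j k : ℕ} (h1 : p ≤ j) (h2 : j + 1 ≤ p + l) (hk : j + k + 1 = 2 * p + l) :
    sj j * rv p l = rv p l * sj k := by
  ext x
  simp only [Perm.coe_mul, Function.comp_apply, sj_apply, rv_apply]
  split_ifs <;> omega

variable {K : Type*} [CommRing K]

lemma cf_mul (w : Perm ℕ) (G H : Module.End K (Perm ℕ → K)) : cf w (G * H) = G (H (del K)) w := rfl
lemma cf_add (w : Perm ℕ) (G H : Module.End K (Perm ℕ → K)) : cf w (G + H) = cf w G + cf w H := rfl
lemma cf_sub (w : Perm ℕ) (G H : Module.End K (Perm ℕ → K)) : cf w (G - H) = cf w G - cf w H := rfl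
lemma cf_smul (w : Perm ℕ) (x : K) (G : Module.End K (Perm ℕ → K)) : cf w (x • G) = x * cf w G := rfl

/-- right multiplication by a generator is the right action -/
lemma cf_mul_lam {G : Module.End K (Perm ℕ → K)} (hG : RC G) (w : Perm ℕ) (j : ℕ) :
    cf w (G * lam K j) = if w (j + 1) < w j then cf (w * sj j) G else 0 := by
  rw [cf_mul, lam_del]
  have : G (rho K j (del K)) = rho K j (G (del K)) := by
    have := congrArg (fun T => T (del K)) (hG j)
    exact this
  rw [this, rho_apply]; rfl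

lemma cf_lam_mul (G : Module.End K (Perm ℕ → K)) (w : Perm ℕ) (j : ℕ) :
    cf w (lam K j * G) = if w⁻¹ (j + 1) < w⁻¹ j then cf (sj j * w) G else 0 := by
  rw [cf_mul, lam_apply]; rfl

/-- trace property for a generator -/
lemma trace_lam {G : Module.End K (Perm ℕ → K)} (hG : RC G) {p l j k : ℕ} (h1 : p ≤ j)
    (h2 : j + 1 ≤ p + l) (hk : j + k + 1 = 2 * p + l) :
    cf (rv p l) (lam K j * G) = cf (rv p l) (G * lam K k) := by
  rw [cf_mul_lam hG, cf_lam_mul, sj_mul_rv h1 h2 hk]
  rw [if_pos, if_pos]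
  · rw [rv_apply, rv_apply]; split_ifs <;> omega
  · rw [rv_inv_apply, rv_inv_apply]; split_ifs <;> omega

lemma trace_fac {G : Module.End K (Perm ℕ → K)} (hG : RC G) (x : K) {p l j k : ℕ} (h1 : p ≤ j)
    (h2 : j + 1 ≤ p + l) (hk : j + k + 1 = 2 * p + l) :
    cf (rv p l) (fac (lam K) x j * G) = cf (rv p l) (G * fac (lam K) x k) := by
  simp only [fac, add_mul, mul_add, one_mul, mul_one, smul_mul_assoc, mul_smul_comm, cf_add,
    cf_smul, trace_lam hG h1 h2 hk]

lemma up_succ' {R : Type*} [Ring R] [Algebra K R] (u : ℕ → R) (x : K) : ∀ (l p : ℕ),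
    up u x (l + 1) p = up u x l p * fac u x (p + l)
  | 0, p => by simp [up_succ]
  | (l + 1), p => by
    rw [up_succ, up_succ' u x l (p + 1), up_succ u x l p, mul_assoc]
    congr 3; omega

lemma dn_succ' {R : Type*} [Ring R] [Algebra K R] (u : ℕ → R) (x : K) : ∀ (l p : ℕ),
    dn u x (l + 1) p = fac u x (p + l) * dn u x l p
  | 0, p => by simp [dn_succ]
  | (l + 1), p => by
    rw [dn_succ, dn_succ' u x l (p + 1), dn_succ u x l p, mul_assoc]
    congr 2; omega

lemma trace_dn {p l : ℕ} (x : K) : ∀ (r q s : ℕ), p ≤ q → q + r ≤ p + l → s + q + r = 2 * p + l →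
    ∀ {G : Module.End K (Perm ℕ → K)}, RC G →
    cf (rv p l) (dn (lam K) x r q * G) = cf (rv p l) (G * up (lam K) x r s)
  | 0, q, s, _, _, _, G, _ => by simp
  | (r + 1), q, s, h1, h2, h3, G, hG => by
    rw [dn_succ, mul_assoc, trace_dn x r (q + 1) s (by omega) (by omega) (by omega)
      (rc_mul (rc_fac x q) hG), mul_assoc,
      trace_fac (rc_mul hG (rc_up x r s)) x (k := s + r) h1 (by omega) (by omega), mul_assoc,
      up_succ']

/-- The functional `φ(Y) = [w₀] (Y 𝔖_P)`. -/
noncomputable def phi (K : Type*) [CommRing K] (p l : ℕ) (Y : Module.End K (Perm ℕ → K)) : K :=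
  cf (rv p (l + 1)) (Y * sch K (lam K) l (p + 1))

/-- `φ(A Y) = φ(Y A)`. -/
theorem phi_comm {p l : ℕ} {Y : Module.End K (Perm ℕ → K)} (hY : RC Y) :
    phi K p l (dn (lam K) (1 : K) (l + 1) p * Y) = phi K p l (Y * dn (lam K) (1 : K) (l + 1) p) := by
  unfold phi
  rw [mul_assoc, trace_dn (1 : K) (l + 1) p p le_rfl (by omega) (by omega)
    (rc_mul hY (rc_sch _ _)), mul_assoc, ← dn_mul_sch nilCox_lam, mul_assoc]

/-- support conditions : `w p ≤ p + r` -/
def Sup (p r : ℕ) (f : Perm ℕ → K) : Prop := ∀ w, f w ≠ 0 → w p ≤ p + r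

lemma Sup.mono {p r s : ℕ} {f : Perm ℕ → K} (h : Sup p r f) (hrs : r ≤ s) : Sup p s f :=
  fun w hw => (h w hw).trans (by omega)

lemma sup_lam_of_ne {p r j : ℕ} {f : Perm ℕ → K} (h : Sup p r f) (hj : j ≠ p + r) :
    Sup p r (lam K j f) := by
  intro w hw
  rw [lam_apply] at hw
  split_ifs at hw with h1
  · have h2 := h _ hw
    rw [Perm.mul_apply, sj_apply] at h2
    split_ifs at h2 <;> omega
  · exact absurd rfl hw

lemma sup_lam {p r j : ℕ} {f : Perm ℕ → K} (h : Sup p r f) :
    Sup p (r + 1) (lam K j f) := by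
  intro w hw
  rw [lam_apply] at hw
  split_ifs at hw with h1
  · have h2 := h _ hw
    rw [Perm.mul_apply, sj_apply] at h2
    split_ifs at h2 <;> omega
  · exact absurd rfl hw

lemma Sup.add {p r : ℕ} {f g : Perm ℕ → K} (hf : Sup p r f) (hg : Sup p r g) :
    Sup p r (f + g) := by
  intro w hw
  by_cases h : f w = 0
  · apply hg w
    intro h2; apply hw; simp [h, h2]
  · exact hf w h

lemma Sup.smul {p r : ℕ} (x : K) {f : Perm ℕ → K} (hf : Sup p r f) : Sup p r (x • f) := by
  intro w hw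
  apply hf w
  intro h; apply hw; simp [h]

lemma fac_apply (x : K) (j : ℕ) (f : Perm ℕ → K) :
    fac (lam K) x j f = f + x • lam K j f := rfl

lemma sup_fac_of_ne {p r j : ℕ} {f : Perm ℕ → K} (x : K) (h : Sup p r f) (hj : j ≠ p + r) :
    Sup p r (fac (lam K) x j f) := by
  rw [fac_apply]; exact h.add ((sup_lam_of_ne h hj).smul x)

lemma sup_fac {p r j : ℕ} {f : Perm ℕ → K} (x : K) (h : Sup p r f) :
    Sup p (r + 1) (fac (lam K) x j f) := by
  rw [fac_apply]; exact (h.mono (by omega)).add ((sup_lam h).smul x)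

/-- An increasing product raises `w p` by at most one. -/
lemma sup_up {p r : ℕ} (x : K) : ∀ (l q : ℕ) (f : Perm ℕ → K), Sup p r f →
    Sup p (r + 1) (up (lam K) x l q f) ∧ (p + r < q → Sup p r (up (lam K) x l q f))
  | 0, q, f, h => ⟨h.mono (by omega), fun _ => h⟩
  | (l + 1), q, f, h => by
    have ih := sup_up x l (q + 1) f h
    rw [up_succ]
    change Sup p (r + 1) (fac (lam K) x q (up (lam K) x l (q + 1) f)) ∧
      (p + r < q → Sup p r (fac (lam K) x q (up (lam K) x l (q + 1) f)))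
    constructor
    · by_cases hq : q = p + r
      · exact sup_fac x (ih.2 (by omega))
      · by_cases hq2 : p + r < q
        · exact sup_fac x (ih.2 (by omega))
        · exact sup_fac_of_ne x ih.1 (by omega)
    · intro hq
      exact sup_fac_of_ne x (ih.2 (by omega)) (by omega)

lemma sup_up_pow {p : ℕ} (x : K) (l q : ℕ) : ∀ (i r : ℕ) (f : Perm ℕ → K), Sup p r f →
    Sup p (r + i) (((up (lam K) x l q) ^ i) f)
  | 0, r, f, h => by simpa using h
  | (i + 1), r, f, h => by
    rw [pow_succ']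
    have := (sup_up x l q _ (sup_up_pow x l q i r f h)).1
    exact this

lemma sup_dn_of_lt {p r : ℕ} (x : K) : ∀ (l q : ℕ) (f : Perm ℕ → K), Sup p r f → p + r < q →
    Sup p r (dn (lam K) x l q f)
  | 0, q, f, h, _ => h
  | (l + 1), q, f, h, hq => by
    rw [dn_succ]
    exact sup_dn_of_lt x l (q + 1) _ (sup_fac_of_ne x h (by omega)) (by omega)

lemma sup_sch {p r : ℕ} : ∀ (l q : ℕ) (f : Perm ℕ → K), Sup p r f → p + r < q →
    Sup p r (sch K (lam K) l q f)
  | 0, q, f, h, _ => h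
  | (l + 1), q, f, h, hq => by
    rw [sch_succ]
    exact sup_dn_of_lt 1 (l + 1) q _ (sup_sch l (q + 1) f h (by omega)) hq

lemma sup_pow {p r : ℕ} {G : Module.End K (Perm ℕ → K)} (hG : ∀ f, Sup p r f → Sup p r (G f)) :
    ∀ (i : ℕ) (f : Perm ℕ → K), Sup p r f → Sup p r ((G ^ i) f)
  | 0, f, h => by simpa using h
  | (i + 1), f, h => by
    rw [pow_succ]
    exact sup_pow hG i _ (hG f h)

lemma sup_del (p : ℕ) : Sup p 0 (del K) := by
  intro w hw
  by_cases h : w = 1
  · subst h; simp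
  · exact absurd (del_ne h) hw

end Pool.Agent.helper54.Schub
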