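import Mathlib

/-!
# Arrays of backward differences, and the product law
-/

namespace Pool.Agent.helper54.Schub

open Polynomial Finset

/-- Newton interpolation for an array of backward differences. -/
lemma newton {a : ℤ → ℕ → ℚ} (h : ∀ c j, a c (j + 1) = a c j - a (c - 1) j) {D : ℕ}
    (h0 : ∀ c j, D < j → a c j = 0) (y : ℤ) :
    ∃ P : ℚ[X], P.natDegree ≤ D ∧ ∀ n : ℕ, a (y + n) 0 = P.eval (n : ℚ) := by
  have hd : ∀ (k : ℕ) (c : ℤ), (fwdDiff (1 : ℤ))^[k] (fun c => a c 0) c = a (c + k) k := by
    intro k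
    induction k with
    | zero => intro c; simp
    | succ k ih =>
      intro c
      rw [Function.iterate_succ_apply', fwdDiff, ih, ih, h]
      push_cast
      congr 2 <;> ring
  refine ⟨∑ k ∈ range (D + 1), C (a (y + k) k / (k.factorial : ℚ)) * descPochhammer ℚ k, ?_, ?_⟩
  · apply natDegree_sum_le_of_forall_le
    intro k hk
    rw [mem_range] at hk
    refine (natDegree_C_mul_le _ _).trans ?_
    rw [descPochhammer_natDegree]; omega
  · intro n
    have h1 := shift_eq_sum_fwdDiff_iter (1 : ℤ) (fun c => a c 0) n y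
    simp only [hd, nsmul_eq_mul, mul_one] at h1
    rw [h1, eval_finsetSum]
    have e1 : ∑ k ∈ range (n + 1), (n.choose k : ℚ) * a (y + k) k =
        ∑ k ∈ range (n + D + 1), (n.choose k : ℚ) * a (y + k) k := by
      apply sum_subset
      · intro k; simp only [mem_range]; omega
      · intro k _ hk
        simp only [mem_range] at hk
        rw [Nat.choose_eq_zero_of_lt (by omega)]; simp
    have e2 : ∑ k ∈ range (D + 1), (n.choose k : ℚ) * a (y + k) k =
        ∑ k ∈ range (n + D + 1), (n.choose k : ℚ) * a (y + k) k := by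
      apply sum_subset
      · intro k; simp only [mem_range]; omega
      · intro k _ hk
        simp only [mem_range] at hk
        rw [h0 _ _ (by omega)]; simp
    rw [e1, ← e2]
    apply sum_congr rfl
    intro k _
    rw [eval_mul, eval_C, Nat.cast_choose_eq_descPochhammer_div]
    ring

/-- the product `∏_{t=1}^{L} (i+t)(2N-1+t-i)` -/
def psi (N L : ℕ) (i : ℚ) : ℚ := ∏ t ∈ range L, ((i + t + 1) * (2 * N + t - i))

lemma psi_zero_pos {N : ℕ} (hN : 0 < N) (L : ℕ) : 0 < psi N L 0 := by
  unfold psi
  apply prod_pos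
  intro t _
  have h1 : (0 : ℚ) < N := by exact_mod_cast hN
  have h2 : (0 : ℚ) ≤ t := Nat.cast_nonneg t
  apply mul_pos <;> linarith

theorem law {a : ℤ → ℕ → ℚ} (h : ∀ c j, a c (j + 1) = a c j - a (c - 1) j) {L N : ℕ}
    (hN : 0 < N) (h0 : ∀ c j, 2 * L + 1 < j → a c j = 0)
    (hneg : ∀ i : ℕ, i ≤ L → a (-(i : ℤ)) 0 = 0)
    (hsym : ∀ c : ℤ, a (N + c) 0 + a (N - c) 0 = 2 * a N 0) (n : ℕ) :
    (a (n + 1 : ℤ) 0 - a n 0) * psi N L 0 = a 1 0 * psi N L n := by
  obtain ⟨P, hP, hPe⟩ := newton (a := fun c j => a c (j + 1)) (fun c j => h c (j + 1)) (D := 2 * L)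
    (fun c j hj => h0 c (j + 1) (by omega)) (1 - (L : ℤ))
  set R : ℚ[X] := ∏ t ∈ range L, ((X - C (L : ℚ) + C (t + 1 : ℚ)) * (C (2 * N + t + L : ℚ) - X))
    with hR
  have hRd : R.natDegree ≤ 2 * L := by
    rw [hR]
    refine (natDegree_prod_le _ _).trans ?_
    refine (sum_le_card_nsmul _ _ 2 ?_).trans ?_
    · intro t _
      refine natDegree_mul_le.trans ?_
      have g1 : (X - C (L : ℚ) + C (t + 1 : ℚ)).natDegree ≤ 1 := by
        compute_degree
      have g2 : (C (2 * N + t + L : ℚ) - X).natDegree ≤ 1 := by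
        compute_degree
      omega
    · rw [card_range, smul_eq_mul]; omega
  have hRe : ∀ x : ℚ, R.eval x = psi N L (x - L) := by
    intro x
    rw [hR, eval_prod, psi]
    apply prod_congr rfl
    intro t _
    simp only [eval_mul, eval_add, eval_sub, eval_X, eval_C]
    ring
  set Q : ℚ[X] := P * C (psi N L 0) - C (a 1 0) * R with hQ
  have hQd : Q.natDegree ≤ 2 * L := by
    rw [hQ]
    refine (natDegree_sub_le _ _).trans ?_
    rw [max_le_iff]
    exact ⟨(natDegree_mul_C_le _ _).trans hP, (natDegree_C_mul_le _ _).trans hRd⟩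
  have hQe : ∀ x : ℕ, Q.eval (x : ℚ) = (a (1 - L + x : ℤ) 0 - a (-L + x : ℤ) 0) * psi N L 0 -
      a 1 0 * psi N L (x - L) := by
    intro x
    rw [hQ, eval_sub, eval_mul, eval_mul, eval_C, eval_C, hRe, ← hPe, h]
    congr 5
    ring
  have hpsi : ∀ x : ℚ, (∃ t ∈ range L, x + t + 1 = 0 ∨ 2 * N + t - x = 0) → psi N L x = 0 := by
    rintro x ⟨t, ht, h1⟩
    unfold psi
    apply prod_eq_zero ht
    rcases h1 with h1 | h1 <;> simp [h1]
  set s : Finset ℕ := range (L + 1) ∪ Ico (2 * N + L) (2 * N + 2 * L) with hs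
  have hcard : s.card = 2 * L + 1 := by
    rw [hs, card_union_of_disjoint, card_range, Nat.card_Ico]
    · omega
    · rw [disjoint_left]
      intro x hx hx2
      rw [mem_range] at hx
      rw [mem_Ico] at hx2
      omega
  have hQ0 : Q = 0 := by
    apply eq_zero_of_natDegree_lt_card_of_eval_eq_zero Q (f := fun i : s => ((i : ℕ) : ℚ))
    · intro x y hxy
      simp only [Nat.cast_inj] at hxy
      exact Subtype.ext hxy
    · rintro ⟨x, hx⟩
      dsimp only
      rw [hQe]
      rw [hs, mem_union, mem_range, mem_Ico] at hx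
      rcases hx with hx | hx
      · by_cases hxL : x = L
        · subst hxL
          have e1 : a (1 - (x : ℤ) + x) 0 = a 1 0 := by congr 1; ring
          have e2 : a (-(x : ℤ) + x) 0 = a (-((0 : ℕ) : ℤ)) 0 := by congr 1; push_cast; ring
          rw [e1, e2, hneg 0 (by omega)]
          simp
        · have e1 : a (1 - (L : ℤ) + x) 0 = 0 := by
            rw [← hneg (L - 1 - x) (by omega)]
            congr 1
            push_cast [Nat.cast_sub (show 1 ≤ L by omega), Nat.cast_sub (show x ≤ L - 1 by omega)]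
            ring
          have e2 : a (-(L : ℤ) + x) 0 = 0 := by
            rw [← hneg (L - x) (by omega)]
            congr 1
            push_cast [Nat.cast_sub (show x ≤ L by omega)]
            ring
          have e3 : psi N L ((x : ℚ) - L) = 0 := by
            apply hpsi
            refine ⟨L - 1 - x, ?_, Or.inl ?_⟩
            · rw [mem_range]; omega
            · push_cast [Nat.cast_sub (show 1 ≤ L by omega), Nat.cast_sub (show x ≤ L - 1 by omega)]
              ring
          rw [e1, e2, e3]
          simp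
      · obtain ⟨i, rfl⟩ : ∃ i, x = 2 * N + L + i := ⟨x - (2 * N + L), by omega⟩
        have e1 : a (1 - (L : ℤ) + (2 * N + L + i : ℕ)) 0 = 2 * a N 0 := by
          have := hsym (N + i + 1)
          have g := hneg (i + 1) (by omega)
          have g2 : a ((N : ℤ) - (N + i + 1)) 0 = a (-((i + 1 : ℕ) : ℤ)) 0 := by
            congr 1; push_cast; ring
          rw [g2, g, add_zero] at this
          rw [← this]
          congr 1; push_cast; ring
        have e2 : a (-(L : ℤ) + (2 * N + L + i : ℕ)) 0 = 2 * a N 0 := by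
          have := hsym (N + i)
          have g := hneg i (by omega)
          have g2 : a ((N : ℤ) - (N + i)) 0 = a (-(i : ℤ)) 0 := by
            congr 1; ring
          rw [g2, g, add_zero] at this
          rw [← this]
          congr 1; push_cast; ring
        have e3 : psi N L (((2 * N + L + i : ℕ) : ℚ) - L) = 0 := by
          apply hpsi
          refine ⟨i, ?_, Or.inr ?_⟩
          · rw [mem_range]; omega
          · push_cast; ring
        rw [e1, e2, e3]
        simp
    · rw [Fintype.card_coe, hcard]; omega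
  have := hQe (n + L)
  rw [hQ0, eval_zero] at this
  have e1 : a (1 - (L : ℤ) + (n + L : ℕ)) 0 = a (n + 1) 0 := by congr 1; push_cast; ring
  have e2 : a (-(L : ℤ) + (n + L : ℕ)) 0 = a n 0 := by congr 1; push_cast; ring
  have e3 : ((n + L : ℕ) : ℚ) - L = n := by push_cast; ring
  rw [e1, e2, e3] at this
  linarith

theorem law_sum {a : ℤ → ℕ → ℚ} (h : ∀ c j, a c (j + 1) = a c j - a (c - 1) j) {L N : ℕ}
    (hN : 0 < N) (h0 : ∀ c j, 2 * L + 1 < j → a c j = 0)
    (hneg : ∀ i : ℕ, i ≤ L → a (-(i : ℤ)) 0 = 0)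
    (hsym : ∀ c : ℤ, a (N + c) 0 + a (N - c) 0 = 2 * a N 0) (n : ℕ) :
    a n 0 * psi N L 0 = a 1 0 * ∑ i ∈ range n, psi N L i := by
  induction n with
  | zero =>
    have := hneg 0 (by omega)
    simp only [Nat.cast_zero, neg_zero] at this
    simp [this]
  | succ n ih =>
    have := law h hN h0 hneg hsym n
    rw [sum_range_succ, mul_add, ← ih, ← this]
    push_cast
    ring

end Pool.Agent.helper54.Schub
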