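import Mathlib
import Pool.Agent.helper54.Schub.Block
import Pool.Agent.helper54.Schub.Newton

/-!
# The law of the exponents
-/

namespace Pool.Agent.helper54.Schub

open Equiv Polynomial

section Kappa

variable {K R : Type*} [CommRing K] [Ring R] [Algebra K R] {u : ℕ → R}

/-- `κ(x) = C₁(x) C₂(x)⁻¹` -/
def kap (u : ℕ → R) (x : K) (L p : ℕ) : R := dn u x (L + 1) p * up u (-x) L (p + 1)

/-- `κ'(x) = C₂(x) C₁(x)⁻¹` -/
def kap' (u : ℕ → R) (x : K) (L p : ℕ) : R := dn u x L (p + 1) * up u (-x) (L + 1) p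

lemma kap_add (hu : NilCox u) (x : K) (L p : ℕ) : kap u x L p + kap' u x L p = 2 := by
  unfold kap kap'
  rw [dn_succ, up_succ]
  have h1 := dn_mul_up_neg hu x L (p + 1)
  have : dn u x L (p + 1) * fac u x p * up u (-x) L (p + 1) +
      dn u x L (p + 1) * (fac u (-x) p * up u (-x) L (p + 1)) =
      2 * (dn u x L (p + 1) * up u (-x) L (p + 1)) := by
    simp only [fac, mul_add, add_mul, mul_one, one_mul, neg_smul, mul_neg, neg_mul]
    noncomm_ring
  rw [this, h1, mul_one]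

lemma kap_rel (hu : NilCox u) (x : K) (L p : ℕ) :
    (x - 1) • (dn u (1 : K) (L + 1) p * kap u x L p) =
      x • (kap u x L p * dn u (1 : K) L (p + 1)) - dn u (1 : K) (L + 1) p := by
  have h1 := interp hu x 1 L p
  have h2 := dn_mul_up_neg hu x L (p + 1)
  have h2' := up_neg_mul_dn hu x L (p + 1)
  have h3 := dn_comm hu x 1 L (p + 1)
  have h4 := dn_comm hu x 1 (L + 1) p
  have h5 : up u (-x) L (p + 1) * dn u (1 : K) L (p + 1) =
      dn u (1 : K) L (p + 1) * up u (-x) L (p + 1) := by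
    calc up u (-x) L (p + 1) * dn u (1 : K) L (p + 1)
        = up u (-x) L (p + 1) * dn u (1 : K) L (p + 1) *
            (dn u x L (p + 1) * up u (-x) L (p + 1)) := by rw [h2, mul_one]
      _ = up u (-x) L (p + 1) * (dn u (1 : K) L (p + 1) * dn u x L (p + 1)) *
            up u (-x) L (p + 1) := by noncomm_ring
      _ = up u (-x) L (p + 1) * (dn u x L (p + 1) * dn u (1 : K) L (p + 1)) *
            up u (-x) L (p + 1) := by rw [h3]
      _ = (up u (-x) L (p + 1) * dn u x L (p + 1)) * dn u (1 : K) L (p + 1) *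
            up u (-x) L (p + 1) := by noncomm_ring
      _ = _ := by rw [h2', one_mul]
  unfold kap
  rw [← mul_assoc, ← h4, ← smul_mul_assoc, h1, sub_mul, one_smul, smul_mul_assoc, mul_assoc,
    mul_assoc, mul_assoc, ← h5, h2, mul_one]

lemma kap'_rel (hu : NilCox u) (x : K) (L p : ℕ) :
    (x - 1) • (dn u (1 : K) L (p + 1) * kap' u x L p) =
      x • (kap' u x L p * dn u (1 : K) (L + 1) p) - dn u (1 : K) L (p + 1) := by
  have h2 := dn_mul_up_neg hu x (L + 1) p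
  have h2' := up_neg_mul_dn hu x (L + 1) p
  have h3 := dn_comm hu x 1 L (p + 1)
  have h4 := dn_comm hu x 1 (L + 1) p
  have h5 : up u (-x) (L + 1) p * dn u (1 : K) (L + 1) p =
      dn u (1 : K) (L + 1) p * up u (-x) (L + 1) p := by
    calc up u (-x) (L + 1) p * dn u (1 : K) (L + 1) p
        = up u (-x) (L + 1) p * dn u (1 : K) (L + 1) p *
            (dn u x (L + 1) p * up u (-x) (L + 1) p) := by rw [h2, mul_one]
      _ = up u (-x) (L + 1) p * (dn u (1 : K) (L + 1) p * dn u x (L + 1) p) *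
            up u (-x) (L + 1) p := by noncomm_ring
      _ = up u (-x) (L + 1) p * (dn u x (L + 1) p * dn u (1 : K) (L + 1) p) *
            up u (-x) (L + 1) p := by rw [h4]
      _ = (up u (-x) (L + 1) p * dn u x (L + 1) p) * dn u (1 : K) (L + 1) p *
            up u (-x) (L + 1) p := by noncomm_ring
      _ = _ := by rw [h2', one_mul]
  have key : (x - 1) • (dn u (1 : K) L (p + 1) * dn u x L (p + 1)) =
      x • (dn u x L (p + 1) * dn u (1 : K) (L + 1) p) -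
        dn u (1 : K) L (p + 1) * dn u x (L + 1) p := by
    rw [dn_succ u (1 : K) L p, dn_succ u x L p]
    simp only [fac, mul_add, mul_one, mul_smul_comm, one_smul, smul_add, ← mul_assoc]
    rw [h3]
    module
  unfold kap'
  rw [← mul_assoc, ← smul_mul_assoc, key, sub_mul, smul_mul_assoc, mul_assoc (dn u (1 : K) L (p + 1)),
    h2, mul_one, mul_assoc, ← h5, ← mul_assoc]

/-- the unit `dn 1 l p`. -/
def du (K : Type*) [CommRing K] [Algebra K R] (hu : NilCox u) (l p : ℕ) : Rˣ where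
  val := dn u (1 : K) l p
  inv := up u (-1 : K) l p
  val_inv := dn_mul_up_neg hu 1 l p
  inv_val := up_neg_mul_dn hu 1 l p

end Kappa

section PF

/-- polynomial families of functions on permutations -/
def PF (d : ℕ) (f : ℚ → Perm ℕ → ℚ) : Prop :=
  ∀ w, ∃ q : ℚ[X], q.natDegree ≤ d ∧ ∀ x, q.eval x = f x w

lemma pf_const (f : Perm ℕ → ℚ) : PF 0 (fun _ => f) := fun w => ⟨C (f w), by simp, by simp⟩

lemma PF.mono {d e : ℕ} {f : ℚ → Perm ℕ → ℚ} (h : PF d f) (hde : d ≤ e) : PF e f := by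
  intro w
  obtain ⟨q, h1, h2⟩ := h w
  exact ⟨q, h1.trans hde, h2⟩

lemma PF.add {d : ℕ} {f g : ℚ → Perm ℕ → ℚ} (hf : PF d f) (hg : PF d g) :
    PF d (fun x => f x + g x) := by
  intro w
  obtain ⟨q, h1, h2⟩ := hf w
  obtain ⟨r, h3, h4⟩ := hg w
  refine ⟨q + r, (natDegree_add_le _ _).trans (max_le h1 h3), ?_⟩
  intro x; rw [eval_add, h2, h4]; rfl

lemma PF.smul {d : ℕ} {f : ℚ → Perm ℕ → ℚ} (c : ℚ) (hf : PF d f) :
    PF d (fun x => c • f x) := by
  intro w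
  obtain ⟨q, h1, h2⟩ := hf w
  refine ⟨C c * q, (natDegree_C_mul_le _ _).trans h1, ?_⟩
  intro x; rw [eval_mul, h2, eval_C]; rfl

lemma PF.xsmul {d : ℕ} {f : ℚ → Perm ℕ → ℚ} (hf : PF d f) :
    PF (d + 1) (fun x => x • f x) := by
  intro w
  obtain ⟨q, h1, h2⟩ := hf w
  refine ⟨q * X, natDegree_mul_le.trans ?_, ?_⟩
  · rw [natDegree_X]; omega
  · intro x; rw [eval_mul, h2, eval_X, mul_comm]; rfl

lemma PF.lam {d : ℕ} {f : ℚ → Perm ℕ → ℚ} (j : ℕ) (hf : PF d f) :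
    PF d (fun x => Schub.lam ℚ j (f x)) := by
  intro w
  by_cases h : w⁻¹ (j + 1) < w⁻¹ j
  · obtain ⟨q, h1, h2⟩ := hf (sj j * w)
    refine ⟨q, h1, ?_⟩
    intro x
    have : Schub.lam ℚ j (f x) w = f x (sj j * w) := by rw [lam_apply, if_pos h]
    rw [h2]; exact this.symm
  · refine ⟨0, by simp, ?_⟩
    intro x
    have : Schub.lam ℚ j (f x) w = 0 := by rw [lam_apply, if_neg h]
    rw [eval_zero]; exact this.symm

lemma PF.fac {d : ℕ} {f : ℚ → Perm ℕ → ℚ} (c : ℚ) (j : ℕ) (hf : PF d f) :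
    PF d (fun x => Schub.fac (Schub.lam ℚ) c j (f x)) :=
  hf.add ((hf.lam j).smul c)

lemma PF.facx {d : ℕ} {f : ℚ → Perm ℕ → ℚ} (j : ℕ) (hf : PF d f) :
    PF (d + 1) (fun x => Schub.fac (Schub.lam ℚ) x j (f x)) :=
  (hf.mono (by omega)).add ((hf.lam j).xsmul)

lemma PF.facnegx {d : ℕ} {f : ℚ → Perm ℕ → ℚ} (j : ℕ) (hf : PF d f) :
    PF (d + 1) (fun x => Schub.fac (Schub.lam ℚ) (-x) j (f x)) := by
  have h := (hf.mono (show d ≤ d + 1 by omega)).add (((hf.lam j).xsmul).smul (-1))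
  have e : (fun x => Schub.fac (Schub.lam ℚ) (-x) j (f x)) =
      fun x => f x + (-1 : ℚ) • (x • Schub.lam ℚ j (f x)) := by
    ext x w
    rw [fac_apply]
    simp
  rw [e]; exact h

lemma PF.dn {d : ℕ} (c : ℚ) : ∀ (l p : ℕ) {f : ℚ → Perm ℕ → ℚ}, PF d f →
    PF d (fun x => Schub.dn (Schub.lam ℚ) c l p (f x))
  | 0, _, _, hf => hf
  | (l + 1), p, _, hf => PF.dn c l (p + 1) (hf.fac c p)

lemma PF.up {d : ℕ} (c : ℚ) : ∀ (l p : ℕ) {f : ℚ → Perm ℕ → ℚ}, PF d f →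
    PF d (fun x => Schub.up (Schub.lam ℚ) c l p (f x))
  | 0, _, _, hf => hf
  | (l + 1), p, _, hf => (PF.up c l (p + 1) hf).fac c p

lemma PF.dnx {d : ℕ} : ∀ (l p : ℕ) {f : ℚ → Perm ℕ → ℚ}, PF d f →
    PF (d + l) (fun x => Schub.dn (Schub.lam ℚ) x l p (f x))
  | 0, _, _, hf => hf
  | (l + 1), p, _, hf => by
    have := PF.dnx l (p + 1) (hf.facx p)
    rw [add_assoc, add_comm 1 l] at this
    exact this

lemma PF.upnegx {d : ℕ} : ∀ (l p : ℕ) {f : ℚ → Perm ℕ → ℚ}, PF d f →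
    PF (d + l) (fun x => Schub.up (Schub.lam ℚ) (-x) l p (f x))
  | 0, _, _, hf => hf
  | (l + 1), p, _, hf => (PF.upnegx l (p + 1) hf).facnegx p

/-- operators preserving polynomial families -/
def PFP (G : Module.End ℚ (Perm ℕ → ℚ)) : Prop := ∀ d (f : ℚ → Perm ℕ → ℚ), PF d f →
  PF d (fun x => G (f x))

lemma PFP.mul {G H : Module.End ℚ (Perm ℕ → ℚ)} (hG : PFP G) (hH : PFP H) : PFP (G * H) :=
  fun d _ hf => hG d _ (hH d _ hf)

lemma PFP.one : PFP 1 := fun _ _ hf => hf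

lemma PFP.pow {G : Module.End ℚ (Perm ℕ → ℚ)} (hG : PFP G) : ∀ n : ℕ, PFP (G ^ n)
  | 0 => by rw [pow_zero]; exact PFP.one
  | (n + 1) => by rw [pow_succ]; exact (PFP.pow hG n).mul hG

lemma pfp_dn (c : ℚ) (l p : ℕ) : PFP (Schub.dn (Schub.lam ℚ) c l p) := fun _ _ hf => hf.dn c l p
lemma pfp_up (c : ℚ) (l p : ℕ) : PFP (Schub.up (Schub.lam ℚ) c l p) := fun _ _ hf => hf.up c l p
lemma pfp_sch : ∀ (l p : ℕ), PFP (Schub.sch ℚ (Schub.lam ℚ) l p)
  | 0, _ => PFP.one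
  | (l + 1), p => (pfp_dn 1 (l + 1) p).mul (pfp_sch l (p + 1))

end PF

/-- The unit `C` in the endomorphism ring. -/
def U (l p : ℕ) : (Module.End ℚ (Perm ℕ → ℚ))ˣ := du ℚ nilCox_lam l p

lemma U_val (l p : ℕ) : ((U l p : (Module.End ℚ (Perm ℕ → ℚ))ˣ) : Module.End ℚ (Perm ℕ → ℚ)) =
    dn (lam ℚ) (1 : ℚ) l p := rfl

lemma U_zpow_cases (P : Module.End ℚ (Perm ℕ → ℚ) → Prop) (l p : ℕ)
    (h1 : ∀ n : ℕ, P (dn (lam ℚ) (1 : ℚ) l p ^ n)) (h2 : ∀ n : ℕ, P (up (lam ℚ) (-1 : ℚ) l p ^ n))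
    (c : ℤ) : P ((U l p ^ c : (Module.End ℚ (Perm ℕ → ℚ))ˣ) : Module.End ℚ (Perm ℕ → ℚ)) := by
  obtain ⟨n, rfl | rfl⟩ := c.eq_nat_or_neg
  · rw [zpow_natCast, Units.val_pow_eq_pow_val]; exact h1 n
  · rw [zpow_neg, zpow_natCast, ← inv_pow, Units.val_pow_eq_pow_val]; exact h2 n

lemma pfp_U (l p : ℕ) (c : ℤ) :
    PFP ((U l p ^ c : (Module.End ℚ (Perm ℕ → ℚ))ˣ) : Module.End ℚ (Perm ℕ → ℚ)) :=
  U_zpow_cases PFP l p (fun n => (pfp_dn _ _ _).pow n) (fun n => (pfp_up _ _ _).pow n) c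

lemma rc_U (l p : ℕ) (c : ℤ) :
    RC ((U l p ^ c : (Module.End ℚ (Perm ℕ → ℚ))ˣ) : Module.End ℚ (Perm ℕ → ℚ)) :=
  U_zpow_cases RC l p (fun n => rc_pow (rc_dn _ _ _) n) (fun n => rc_pow (rc_up _ _ _) n) c

lemma phi_add (p L : ℕ) (G H : Module.End ℚ (Perm ℕ → ℚ)) :
    phi ℚ p L (G + H) = phi ℚ p L G + phi ℚ p L H := by
  unfold phi; rw [add_mul, cf_add]

lemma phi_sub (p L : ℕ) (G H : Module.End ℚ (Perm ℕ → ℚ)) :
    phi ℚ p L (G - H) = phi ℚ p L G - phi ℚ p L H := by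
  unfold phi; rw [sub_mul, cf_sub]

lemma phi_smul (p L : ℕ) (c : ℚ) (G : Module.End ℚ (Perm ℕ → ℚ)) :
    phi ℚ p L (c • G) = c * phi ℚ p L G := by
  unfold phi; rw [smul_mul_assoc, cf_smul]

lemma phi_comm_pow {p L : ℕ} : ∀ (n : ℕ) {Y : Module.End ℚ (Perm ℕ → ℚ)}, RC Y →
    phi ℚ p L (dn (lam ℚ) (1 : ℚ) (L + 1) p ^ n * Y) =
      phi ℚ p L (Y * dn (lam ℚ) (1 : ℚ) (L + 1) p ^ n)
  | 0, Y, _ => by simp
  | (n + 1), Y, hY => by
    rw [pow_succ', mul_assoc, phi_comm (rc_mul (rc_pow (rc_dn _ _ _) n) hY), mul_assoc,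
      phi_comm_pow n (rc_mul hY (rc_dn _ _ _)), mul_assoc]

lemma phi_comm_zpow {p L : ℕ} (c : ℤ) {Y : Module.End ℚ (Perm ℕ → ℚ)} (hY : RC Y) :
    phi ℚ p L (↑(U (L + 1) p ^ c) * Y) = phi ℚ p L (Y * ↑(U (L + 1) p ^ c)) := by
  obtain ⟨n, rfl | rfl⟩ := c.eq_nat_or_neg
  · rw [zpow_natCast, Units.val_pow_eq_pow_val, U_val]
    exact phi_comm_pow n hY
  · have h1 : (↑(U (L + 1) p ^ n) : Module.End ℚ (Perm ℕ → ℚ)) * ↑(U (L + 1) p ^ (-(n : ℤ))) = 1 := by
      rw [zpow_neg, zpow_natCast]; exact Units.mul_inv _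
    have h2 : (↑(U (L + 1) p ^ (-(n : ℤ))) : Module.End ℚ (Perm ℕ → ℚ)) * ↑(U (L + 1) p ^ n) = 1 := by
      rw [zpow_neg, zpow_natCast]; exact Units.inv_mul _
    have h3 := phi_comm_pow (p := p) (L := L) n
      (rc_mul (rc_mul (rc_U (L + 1) p (-(n : ℤ))) hY) (rc_U (L + 1) p (-(n : ℤ))))
    rw [← U_val, ← Units.val_pow_eq_pow_val, ← mul_assoc, ← mul_assoc, h1, one_mul, mul_assoc, h2,
      mul_one] at h3
    exact h3.symm

/-- the exponent function `F(n) = φ(Aⁿ B^{N-n})`. -/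
noncomputable def Fex (p L : ℕ) (N n : ℤ) : ℚ :=
  phi ℚ p L (↑(U (L + 1) p ^ n) * ↑(U L (p + 1) ^ (N - n)))

lemma pf_phi (p L : ℕ) (G H : Module.End ℚ (Perm ℕ → ℚ)) (hG : PFP G) :
    ∃ q : ℚ[X], q.natDegree ≤ 2 * L + 1 ∧ ∀ x, q.eval x =
      phi ℚ p L (G * kap (lam ℚ) x L p * H) := by
  have h1 : PF 0 (fun _ => H ((sch ℚ (lam ℚ) L (p + 1)) (del ℚ))) := pf_const _
  have h2 := hG _ _ ((h1.upnegx L (p + 1)).dnx (L + 1) p)
  obtain ⟨q, h3, h4⟩ := h2 (rv p (L + 1))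
  exact ⟨q, h3.trans (by omega), h4⟩

lemma pf_phi' (p L : ℕ) (G H : Module.End ℚ (Perm ℕ → ℚ)) (hG : PFP G) :
    ∃ q : ℚ[X], q.natDegree ≤ 2 * L + 1 ∧ ∀ x, q.eval x =
      phi ℚ p L (G * kap' (lam ℚ) x L p * H) := by
  have h1 : PF 0 (fun _ => H ((sch ℚ (lam ℚ) L (p + 1)) (del ℚ))) := pf_const _
  have h2 := hG _ _ ((h1.upnegx (L + 1) p).dnx L (p + 1))
  obtain ⟨q, h3, h4⟩ := h2 (rv p (L + 1))
  exact ⟨q, h3.trans (by omega), h4⟩

/-- polynomial recursion gives an array of backward differences -/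
lemma array_of_rel {q : ℤ → ℚ[X]} {F : ℤ → ℚ}
    (h : ∀ c (x : ℚ), (x - 1) * (q c).eval x = x * (q (c - 1)).eval x - F c) :
    (∀ c, (q c).coeff 0 = F c) ∧
      ∀ c j, (q c).coeff (j + 1) = (q c).coeff j - (q (c - 1)).coeff j := by
  have key : ∀ c, q c = X * (q c - q (c - 1)) + C (F c) := by
    intro c
    apply Polynomial.funext
    intro x
    simp only [eval_add, eval_mul, eval_sub, eval_X, eval_C]
    have := h c x
    linarith
  refine ⟨fun c => ?_, fun c j => ?_⟩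
  · have := congrArg (fun P => coeff P 0) (key c)
    simpa using this
  · have := congrArg (fun P => coeff P (j + 1)) (key c)
    simpa [coeff_X_mul, coeff_C] using this

lemma zpow_split (l p : ℕ) (c : ℤ) :
    (↑(U l p ^ c) : Module.End ℚ (Perm ℕ → ℚ)) =
      ↑(U l p ^ (c - 1)) * dn (lam ℚ) (1 : ℚ) l p := by
  rw [← U_val, ← Units.val_mul, zpow_sub_one, inv_mul_cancel_right]

lemma zpow_split' (l p : ℕ) (c : ℤ) :
    dn (lam ℚ) (1 : ℚ) l p * (↑(U l p ^ c) : Module.End ℚ (Perm ℕ → ℚ)) =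
      ↑(U l p ^ (c + 1)) := by
  rw [← U_val, ← Units.val_mul, ← zpow_one_add, add_comm]

lemma kap_phi (p L : ℕ) (G H : Module.End ℚ (Perm ℕ → ℚ)) (c : ℤ) (x : ℚ) :
    (x - 1) * phi ℚ p L (G * ↑(U (L + 1) p ^ c) * kap (lam ℚ) x L p * H) =
      x * phi ℚ p L (G * ↑(U (L + 1) p ^ (c - 1)) * kap (lam ℚ) x L p *
        (dn (lam ℚ) (1 : ℚ) L (p + 1) * H)) - phi ℚ p L (G * ↑(U (L + 1) p ^ c) * H) := by
  have h := kap_rel (nilCox_lam (K := ℚ)) x L p
  rw [zpow_split (L + 1) p c, ← phi_smul, ← phi_smul, ← phi_sub]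
  congr 1
  calc (x - 1) • (G * (↑(U (L + 1) p ^ (c - 1)) * dn (lam ℚ) (1 : ℚ) (L + 1) p) *
        kap (lam ℚ) x L p * H)
      = G * ↑(U (L + 1) p ^ (c - 1)) * ((x - 1) • (dn (lam ℚ) (1 : ℚ) (L + 1) p *
        kap (lam ℚ) x L p)) * H := by
        simp only [mul_smul_comm, smul_mul_assoc, mul_assoc]
    _ = _ := by
        rw [h]
        simp only [mul_sub, sub_mul, mul_smul_comm, smul_mul_assoc, mul_assoc]

lemma kap'_phi (p L : ℕ) (G H : Module.End ℚ (Perm ℕ → ℚ)) (c : ℤ) (x : ℚ) :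
    (x - 1) * phi ℚ p L (G * ↑(U L (p + 1) ^ c) * kap' (lam ℚ) x L p * H) =
      x * phi ℚ p L (G * ↑(U L (p + 1) ^ (c - 1)) * kap' (lam ℚ) x L p *
        (dn (lam ℚ) (1 : ℚ) (L + 1) p * H)) - phi ℚ p L (G * ↑(U L (p + 1) ^ c) * H) := by
  have h := kap'_rel (nilCox_lam (K := ℚ)) x L p
  rw [zpow_split L (p + 1) c, ← phi_smul, ← phi_smul, ← phi_sub]
  congr 1
  calc (x - 1) • (G * (↑(U L (p + 1) ^ (c - 1)) * dn (lam ℚ) (1 : ℚ) L (p + 1)) *
        kap' (lam ℚ) x L p * H)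
      = G * ↑(U L (p + 1) ^ (c - 1)) * ((x - 1) • (dn (lam ℚ) (1 : ℚ) L (p + 1) *
        kap' (lam ℚ) x L p)) * H := by
        simp only [mul_smul_comm, smul_mul_assoc, mul_assoc]
    _ = _ := by
        rw [h]
        simp only [mul_sub, sub_mul, mul_smul_comm, smul_mul_assoc, mul_assoc]

/-- the array of backward differences of the exponent function -/
theorem fex_array (p L : ℕ) (N : ℤ) : ∃ a : ℤ → ℕ → ℚ, (∀ c, a c 0 = Fex p L N c) ∧
    (∀ c j, a c (j + 1) = a c j - a (c - 1) j) ∧ (∀ c j, 2 * L + 1 < j → a c j = 0) := by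
  choose q hq1 hq2 using fun c : ℤ => pf_phi p L (1 * ↑(U (L + 1) p ^ c)) (↑(U L (p + 1) ^ (N - c)))
    (PFP.one.mul (pfp_U _ _ _))
  have h := array_of_rel (q := q) (F := Fex p L N) (fun c x => by
    rw [hq2, hq2, kap_phi, zpow_split', Fex, one_mul]
    congr 6
    ring)
  refine ⟨fun c j => (q c).coeff j, h.1, h.2, ?_⟩
  intro c j hj
  exact coeff_eq_zero_of_natDegree_lt (lt_of_le_of_lt (hq1 c) hj)

/-- the symmetry of the exponent function -/
theorem fex_symm (p L : ℕ) (N c : ℤ) : Fex p L N (N + c) + Fex p L N (N - c) = 2 * Fex p L N N := by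
  choose q hq1 hq2 using fun c : ℤ => pf_phi p L (↑(U (L + 1) p ^ N) * ↑(U (L + 1) p ^ c))
    (↑(U L (p + 1) ^ (-c))) ((pfp_U _ _ _).mul (pfp_U _ _ _))
  choose r hr1 hr2 using fun c : ℤ => pf_phi' p L (↑(U (L + 1) p ^ N) * ↑(U L (p + 1) ^ c))
    (↑(U (L + 1) p ^ (-c))) ((pfp_U _ _ _).mul (pfp_U _ _ _))
  have e1 : ∀ c : ℤ, phi ℚ p L (↑(U (L + 1) p ^ N) * ↑(U (L + 1) p ^ c) * ↑(U L (p + 1) ^ (-c))) =
      Fex p L N (N + c) := by
    intro c
    rw [Fex, zpow_add, Units.val_mul]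
    congr 4
    ring
  have e2 : ∀ c : ℤ, phi ℚ p L (↑(U (L + 1) p ^ N) * ↑(U L (p + 1) ^ c) * ↑(U (L + 1) p ^ (-c))) =
      Fex p L N (N - c) := by
    intro c
    rw [← phi_comm_zpow (-c) (rc_mul (rc_U _ _ _) (rc_U _ _ _)), Fex, ← mul_assoc, ← Units.val_mul,
      ← zpow_add, show -c + N = N - c by ring, show N - (N - c) = c by ring]
  have h := array_of_rel (q := fun c => q c + r c)
    (F := fun c => Fex p L N (N + c) + Fex p L N (N - c)) (fun c x => by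
    have g1 := kap_phi p L (↑(U (L + 1) p ^ N)) (↑(U L (p + 1) ^ (-c))) c x
    have g2 := kap'_phi p L (↑(U (L + 1) p ^ N)) (↑(U (L + 1) p ^ (-c))) c x
    rw [zpow_split', e1] at g1
    rw [zpow_split', e2] at g2
    rw [eval_add, eval_add, hq2, hr2, hq2, hr2, mul_add, g1, g2]
    rw [show -(c - 1) = -c + 1 by ring]
    ring)
  have hz : ∀ j, (q 0 + r 0).coeff (j + 1) = 0 := by
    have : q 0 + r 0 = C (2 * Fex p L N N) := by
      apply Polynomial.funext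
      intro x
      rw [eval_add, hq2, hr2, eval_C]
      simp only [zpow_zero, neg_zero, Units.val_one, mul_one]
      rw [← phi_add, ← mul_add, kap_add nilCox_lam, Fex, sub_self, zpow_zero, Units.val_one,
        mul_one, ← phi_smul]
      congr 1
      rw [mul_two, two_smul]
    intro j
    rw [this, coeff_C_succ]
  have hall : ∀ k j, j + k = 2 * L + 2 → 1 ≤ j → ∀ c, (q c + r c).coeff j = 0 := by
    intro k
    induction k with
    | zero =>
      intro j hj _ c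
      apply coeff_eq_zero_of_natDegree_lt
      have := natDegree_add_le (q c) (r c)
      have h1 := hq1 c
      have h2 := hr1 c
      omega
    | succ k ih =>
      intro j hj h1
      obtain ⟨i, rfl⟩ : ∃ i, j = i + 1 := ⟨j - 1, by omega⟩
      have hconst : ∀ c, (q c + r c).coeff (i + 1) = (q (c - 1) + r (c - 1)).coeff (i + 1) := by
        intro c
        have g1 := h.2 c (i + 1)
        have g2 := ih (i + 2) (by omega) (by omega) c
        rw [g2] at g1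
        linarith
      have hup : ∀ n : ℕ, (q n + r n).coeff (i + 1) = 0 := by
        intro n
        induction n with
        | zero => exact hz i
        | succ n ihn =>
          rw [hconst]
          have : (((n + 1 : ℕ) : ℤ) - 1) = n := by push_cast; ring
          rw [this]; exact ihn
      have hdown : ∀ n : ℕ, (q (-n) + r (-n)).coeff (i + 1) = 0 := by
        intro n
        induction n with
        | zero => exact hz i
        | succ n ihn =>
          have := hconst (-n)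
          rw [ihn] at this
          have e : (-((n + 1 : ℕ) : ℤ)) = -n - 1 := by push_cast; ring
          rw [e]; exact this.symm
      intro c
      obtain ⟨n, rfl | rfl⟩ := c.eq_nat_or_neg
      · exact hup n
      · exact hdown n
  have hconst : ∀ c, Fex p L N (N + c) + Fex p L N (N - c) =
      Fex p L N (N + (c - 1)) + Fex p L N (N - (c - 1)) := by
    intro c
    have g1 := h.2 c 0
    have g2 := hall (2 * L + 1) 1 (by omega) le_rfl c
    rw [g2] at g1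
    have g3 := h.1 c
    have g4 := h.1 (c - 1)
    rw [g3, g4] at g1
    linarith
  have hup : ∀ n : ℕ, Fex p L N (N + n) + Fex p L N (N - n) = 2 * Fex p L N N := by
    intro n
    induction n with
    | zero => simp; ring
    | succ n ihn =>
      rw [hconst, ← ihn]
      have : (((n + 1 : ℕ) : ℤ) - 1) = n := by push_cast; ring
      rw [this]
  obtain ⟨n, rfl | rfl⟩ := c.eq_nat_or_neg
  · exact hup n
  · rw [← hup n, add_comm, sub_neg_eq_add, ← sub_eq_add_neg]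

/-- vanishing at nonpositive exponents -/
theorem fex_neg (p L N i : ℕ) (hi : i ≤ L) : Fex p L N (-(i : ℤ)) = 0 := by
  unfold Fex phi
  rw [zpow_neg, zpow_natCast, ← inv_pow, Units.val_pow_eq_pow_val, sub_neg_eq_add]
  have e1 : ((N : ℤ) + i) = ((N + i : ℕ) : ℤ) := by push_cast; ring
  rw [e1, zpow_natCast, Units.val_pow_eq_pow_val, U_val, mul_assoc]
  change cf (rv p (L + 1)) (up (lam ℚ) (-1 : ℚ) (L + 1) p ^ i * _) = 0
  rw [cf_mul]
  have hs : Sup p 0 ((dn (lam ℚ) (1 : ℚ) L (p + 1) ^ (N + i) * sch ℚ (lam ℚ) L (p + 1)) (del ℚ)) := by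
    apply sup_pow (fun f hf => sup_dn_of_lt 1 L (p + 1) f hf (by omega))
    exact sup_sch _ _ _ (sup_del p) (by omega)
  have h2 := sup_up_pow (-1 : ℚ) (L + 1) p i 0 _ hs
  by_contra hne
  have h3 := h2 _ hne
  rw [rv_apply, if_pos (by omega)] at h3
  omega

end Pool.Agent.helper54.Schub
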