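import Mathlib
import Pool.Agent.helper54.Schub.Law

/-!
# Top coefficients and the block weights
-/

namespace Pool.Agent.helper54.Schub

open Equiv

section Top

variable {K : Type*} [CommRing K]

/-- A decreasing product raises `w p` by at most its length. -/
lemma sup_dn {p : ℕ} (x : K) : ∀ (l : ℕ) (f : Perm ℕ → K), Sup p 0 f →
    Sup p l (dn (lam K) x l p f)
  | 0, _, h => h
  | (l + 1), f, h => by
    rw [dn_succ']
    exact sup_fac x (sup_dn x l f h)

/-- the cycle `s_p s_{p+1} ⋯ s_{p+l-1}`. -/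
def cyc (p : ℕ) : ℕ → Perm ℕ
  | 0 => 1
  | (l + 1) => cyc p l * sj (p + l)

lemma cyc_apply (p : ℕ) : ∀ (l x : ℕ), cyc p l x =
    if x = p + l then p else if p ≤ x ∧ x < p + l then x + 1 else x
  | 0, x => by
    simp only [cyc, Perm.coe_one, id_eq]
    split_ifs <;> omega
  | (l + 1), x => by
    rw [cyc, Perm.mul_apply, sj_apply, cyc_apply p l]
    split_ifs <;> omega

lemma top_dn {p : ℕ} (x : K) : ∀ (l : ℕ) (w : Perm ℕ), w p = p + l →
    (∀ v, p ≤ v → v < p + l → p < w⁻¹ v) → ∀ f : Perm ℕ → K, Sup p 0 f →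
    dn (lam K) x l p f w = x ^ l * f (cyc p l * w)
  | 0, w, _, _, f, _ => by simp [cyc]
  | (l + 1), w, hw, hv, f, hf => by
    rw [dn_succ', Module.End.mul_apply, fac_apply, Pi.add_apply, Pi.smul_apply, smul_eq_mul,
      lam_apply]
    have h0 : dn (lam K) x l p f w = 0 := by
      by_contra hne
      have := sup_dn x l f hf w hne
      omega
    have h1 : w⁻¹ (p + l + 1) = p := by
      rw [Perm.inv_eq_iff_eq, hw]; rfl
    rw [h0, if_pos (by rw [h1]; exact hv (p + l) (by omega) (by omega)), zero_add,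
      top_dn x l (sj (p + l) * w) ?_ ?_ f hf, cyc, pow_succ', mul_assoc, mul_assoc]
    · rw [Perm.mul_apply, hw, sj_apply]
      split_ifs <;> omega
    · intro v h2 h3
      rw [inv_sj_mul, sj_of_ne (by omega) (by omega)]
      exact hv v h2 (by omega)

lemma cyc_mul_rv (p l : ℕ) : cyc p (l + 1) * rv p (l + 1) = rv (p + 1) l := by
  ext x
  rw [Perm.mul_apply, cyc_apply, rv_apply, rv_apply]
  split_ifs <;> omega

lemma top_rv {p : ℕ} (x : K) (l : ℕ) (f : Perm ℕ → K) (hf : Sup p 0 f) :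
    dn (lam K) x (l + 1) p f (rv p (l + 1)) = x ^ (l + 1) * f (rv (p + 1) l) := by
  rw [top_dn x (l + 1) (rv p (l + 1)) _ _ f hf, cyc_mul_rv]
  · rw [rv_apply]; split_ifs <;> omega
  · intro v h1 h2
    rw [rv_inv_apply]; split_ifs <;> omega

end Top

/-- block weight, in terms of coefficients -/
noncomputable def Wn (m l p : ℕ) : ℚ :=
  cf (rv p l) (dn (lam ℚ) (1 : ℚ) l p ^ m * sch ℚ (lam ℚ) l p)

lemma Wn_zero (m p : ℕ) : Wn m 0 p = 1 := by
  unfold Wn
  rw [rv_zero, dn_zero, one_pow, sch_zero, mul_one]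
  exact del_one

lemma fex_one (p L m : ℕ) : Fex p L (m + 1) 1 = Wn m L (p + 1) := by
  unfold Fex phi Wn
  have e : ((m : ℤ) + 1 - 1) = (m : ℤ) := by ring
  rw [e, zpow_one, zpow_natCast, Units.val_pow_eq_pow_val, U_val, U_val, mul_assoc, cf_mul]
  have hs : Sup p 0 ((dn (lam ℚ) (1 : ℚ) L (p + 1) ^ m * sch ℚ (lam ℚ) L (p + 1)) (del ℚ)) := by
    apply sup_pow (fun f hf => sup_dn_of_lt 1 L (p + 1) f hf (by omega))
    exact sup_sch _ _ _ (sup_del p) (by omega)
  rw [top_rv 1 L _ hs, one_pow, one_mul]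
  rfl

lemma fex_top (p L m : ℕ) : Fex p L (m + 1) (m + 1) = Wn m (L + 1) p := by
  unfold Fex phi Wn
  rw [sub_self, zpow_zero, Units.val_one, mul_one]
  have e : ((m : ℤ) + 1) = ((m + 1 : ℕ) : ℤ) := by push_cast; ring
  rw [e, zpow_natCast, Units.val_pow_eq_pow_val, U_val, sch_succ, ← mul_assoc, pow_succ]

/-- the law of the exponent function -/
theorem fex_law (p L m n : ℕ) : Fex p L (m + 1) n * psi (m + 1) L 0 =
    Wn m L (p + 1) * ∑ i ∈ Finset.range n, psi (m + 1) L i := by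
  obtain ⟨a, h1, h2, h3⟩ := fex_array p L (m + 1)
  have e : (((m + 1 : ℕ) : ℤ)) = (m : ℤ) + 1 := by push_cast; ring
  have := law_sum h2 (L := L) (N := m + 1) (by omega) h3 (fun i hi => by
      rw [h1]
      have := fex_neg p L (m + 1) i hi
      rw [e] at this
      exact this) (fun c => by
      rw [h1, h1, h1, e]
      exact fex_symm p L (m + 1) c) n
  rw [h1, h1, fex_one] at this
  exact this

/-- block weights: `W m l` is the weight of a reversed block with `l + 1` letters after `m`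
letters. -/
def W (m : ℕ) : ℕ → ℚ
  | 0 => 1
  | (L + 1) => W m L * ((∑ i ∈ Finset.range (m + 1), psi (m + 1) L i) / psi (m + 1) L 0)

theorem Wn_eq (m : ℕ) : ∀ (l p : ℕ), Wn m l p = W m l
  | 0, p => by rw [Wn_zero, W]
  | (l + 1), p => by
    have h := fex_law p l m (m + 1)
    have e : (((m + 1 : ℕ) : ℤ)) = (m : ℤ) + 1 := by push_cast; ring
    rw [e, fex_top, Wn_eq m l (p + 1)] at h
    have hpos := psi_zero_pos (N := m + 1) (by omega) l
    rw [W, ← mul_div_assoc, eq_div_iff hpos.ne', h]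

/-- The fraction `F(n)/F(m+1)` in closed form. -/
theorem fex_eq (p L m n : ℕ) : Fex p L (m + 1) n =
    W m L * ((∑ i ∈ Finset.range n, psi (m + 1) L i) / psi (m + 1) L 0) := by
  have h := fex_law p L m n
  have hpos := psi_zero_pos (N := m + 1) (by omega) L
  rw [Wn_eq] at h
  rw [← mul_div_assoc, eq_div_iff hpos.ne', h]

end Pool.Agent.helper54.Schub
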