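import Mathlib
import Pool.Agent.helper54.Schub.Top

/-!
# Splitting along a maximal parabolic subgroup
-/

namespace Pool.Agent.helper54.Schub

open Equiv

/-- fixes everything from `k` on -/
def FA (k : ℕ) (w : Perm ℕ) : Prop := ∀ x, k ≤ x → w x = x
/-- fixes everything below `k` -/
def FB (k : ℕ) (w : Perm ℕ) : Prop := ∀ x, x < k → w x = x
/-- preserves `[0,k)` -/
def PM (k : ℕ) (w : Perm ℕ) : Prop := ∀ x, w x < k ↔ x < k

lemma FA.lt {k : ℕ} {w : Perm ℕ} (h : FA k w) {x : ℕ} (hx : x < k) : w x < k := by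
  by_contra h1
  have h2 := h (w x) (by omega)
  have := w.injective h2
  omega

lemma FB.le {k : ℕ} {w : Perm ℕ} (h : FB k w) {x : ℕ} (hx : k ≤ x) : k ≤ w x := by
  by_contra h1
  have h2 := h (w x) (by omega)
  have := w.injective h2
  omega

lemma FA.inv {k : ℕ} {w : Perm ℕ} (h : FA k w) : FA k w⁻¹ := by
  intro x hx
  rw [Perm.inv_eq_iff_eq]; exact (h x hx).symm

lemma FB.inv {k : ℕ} {w : Perm ℕ} (h : FB k w) : FB k w⁻¹ := by
  intro x hx
  rw [Perm.inv_eq_iff_eq]; exact (h x hx).symm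

lemma FA.mono {k l : ℕ} {w : Perm ℕ} (h : FA k w) (hkl : k ≤ l) : FA l w :=
  fun x hx => h x (hkl.trans hx)

lemma FB.mono {k l : ℕ} {w : Perm ℕ} (h : FB k w) (hkl : l ≤ k) : FB l w :=
  fun x hx => h x (by omega)

lemma FA.mul {k : ℕ} {w v : Perm ℕ} (h : FA k w) (h' : FA k v) : FA k (w * v) := by
  intro x hx
  rw [Perm.mul_apply, h' x hx, h x hx]

lemma FB.mul {k : ℕ} {w v : Perm ℕ} (h : FB k w) (h' : FB k v) : FB k (w * v) := by
  intro x hx
  rw [Perm.mul_apply, h' x hx, h x hx]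

lemma fa_sj {k j : ℕ} (h : j + 1 < k) : FA k (sj j) := by
  intro x hx; exact sj_of_ne (by omega) (by omega)

lemma fb_sj {k j : ℕ} (h : k ≤ j) : FB k (sj j) := by
  intro x hx; exact sj_of_ne (by omega) (by omega)

lemma fa_one (k : ℕ) : FA k 1 := fun _ _ => rfl
lemma fb_one (k : ℕ) : FB k 1 := fun _ _ => rfl

lemma fa_rv {k p l : ℕ} (h : p + l < k) : FA k (rv p l) := by
  intro x hx
  rw [rv_apply, if_neg (by omega)]

lemma fb_rv {k p l : ℕ} (h : k ≤ p) : FB k (rv p l) := by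
  intro x hx
  rw [rv_apply, if_neg (by omega)]

section st

set_option linter.unusedSectionVars false

variable {k : ℕ} {σ τ : Perm ℕ} (hσ : FA k σ) (hτ : FB k τ)
include hσ hτ

lemma st_ge {x : ℕ} (hx : k ≤ x) : (σ * τ) x = τ x := by
  rw [Perm.mul_apply, hσ _ (hτ.le hx)]

lemma st_lt {x : ℕ} (hx : x < k) : (σ * τ) x = σ x := by
  rw [Perm.mul_apply, hτ _ hx]

lemma st_inv_ge {x : ℕ} (hx : k ≤ x) : (σ * τ)⁻¹ x = τ⁻¹ x := by
  rw [mul_inv_rev, Perm.mul_apply, hσ.inv _ hx]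

lemma st_inv_lt {x : ℕ} (hx : x < k) : (σ * τ)⁻¹ x = σ⁻¹ x := by
  rw [mul_inv_rev, Perm.mul_apply, hτ.inv _ (hσ.inv.lt hx)]

lemma st_comm : τ * σ = σ * τ := by
  ext x
  by_cases hx : x < k
  · rw [Perm.mul_apply, Perm.mul_apply, hτ _ (hσ.lt hx), hτ _ hx]
  · rw [Perm.mul_apply, Perm.mul_apply, hσ _ (by omega), hσ _ (hτ.le (by omega))]

lemma st_eq_one : σ * τ = 1 ↔ σ = 1 ∧ τ = 1 := by
  constructor
  · intro h
    have h1 : σ = 1 := by
      ext x
      by_cases hx : x < k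
      · rw [← st_lt hσ hτ hx, h]
      · rw [hσ _ (by omega)]; rfl
    subst h1
    exact ⟨rfl, by simpa using h⟩
  · rintro ⟨rfl, rfl⟩; rfl

lemma st_pm : PM k (σ * τ) := by
  intro x
  by_cases hx : x < k
  · rw [st_lt hσ hτ hx]; exact ⟨fun _ => hx, fun _ => hσ.lt hx⟩
  · rw [st_ge hσ hτ (by omega)]
    have := hτ.le (x := x) (by omega)
    constructor <;> omega

end st

variable {K : Type*} [CommRing K]

/-- `F` restricted to `S_k × S_{≥k}` is `g ⊠ h`. -/
def Tens (k : ℕ) (F g h : Perm ℕ → K) : Prop :=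
  ∀ σ τ, FA k σ → FB k τ → F (σ * τ) = g σ * h τ

lemma tens_del (k : ℕ) : Tens k (del K) (del K) (del K) := by
  intro σ τ hσ hτ
  by_cases h : σ = 1 ∧ τ = 1
  · obtain ⟨rfl, rfl⟩ := h
    rw [mul_one, del_one, mul_one]
  · rw [del_ne (fun h1 => h ((st_eq_one hσ hτ).1 h1))]
    by_cases h1 : σ = 1
    · rw [del_ne (fun h2 => h ⟨h1, h2⟩), mul_zero]
    · rw [del_ne h1, zero_mul]

lemma Tens.lamA {k : ℕ} {F g h : Perm ℕ → K} (H : Tens k F g h) {j : ℕ} (hj : j + 1 < k) :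
    Tens k (lam K j F) (lam K j g) h := by
  intro σ τ hσ hτ
  rw [lam_apply, lam_apply, st_inv_lt hσ hτ (by omega), st_inv_lt hσ hτ (by omega), ← mul_assoc,
    H _ _ ((fa_sj hj).mul hσ) hτ]
  split_ifs
  · rfl
  · rw [zero_mul]

lemma Tens.lamB {k : ℕ} {F g h : Perm ℕ → K} (H : Tens k F g h) {j : ℕ} (hj : k ≤ j) :
    Tens k (lam K j F) g (lam K j h) := by
  intro σ τ hσ hτ
  rw [lam_apply, lam_apply, st_inv_ge hσ hτ (by omega), st_inv_ge hσ hτ (by omega), ← mul_assoc,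
    st_comm hσ (fb_sj hj), mul_assoc, H _ _ hσ ((fb_sj hj).mul hτ)]
  split_ifs
  · rfl
  · rw [mul_zero]

lemma Tens.facA {k : ℕ} {F g h : Perm ℕ → K} (H : Tens k F g h) {j : ℕ} (hj : j + 1 < k) (x : K) :
    Tens k (fac (lam K) x j F) (fac (lam K) x j g) h := by
  intro σ τ hσ hτ
  simp only [fac_apply, Pi.add_apply, Pi.smul_apply, smul_eq_mul]
  rw [H _ _ hσ hτ, H.lamA hj _ _ hσ hτ]
  ring

lemma Tens.facB {k : ℕ} {F g h : Perm ℕ → K} (H : Tens k F g h) {j : ℕ} (hj : k ≤ j) (x : K) :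
    Tens k (fac (lam K) x j F) g (fac (lam K) x j h) := by
  intro σ τ hσ hτ
  simp only [fac_apply, Pi.add_apply, Pi.smul_apply, smul_eq_mul]
  rw [H _ _ hσ hτ, H.lamB hj _ _ hσ hτ]
  ring

lemma Tens.facM {k : ℕ} {F g h : Perm ℕ → K} (H : Tens k F g h) {j : ℕ} (hj : j + 1 = k) (x : K) :
    Tens k (fac (lam K) x j F) g h := by
  intro σ τ hσ hτ
  simp only [fac_apply, Pi.add_apply, Pi.smul_apply, smul_eq_mul]
  rw [H _ _ hσ hτ, lam_apply, st_inv_lt hσ hτ (x := j) (by omega),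
    st_inv_ge hσ hτ (x := j + 1) (by omega), if_neg]
  · ring
  · have h1 := hσ.inv.lt (x := j) (by omega)
    have h2 := hτ.inv.le (x := j + 1) (by omega)
    omega

lemma Tens.dnA {k : ℕ} (x : K) {h : Perm ℕ → K} : ∀ (l p : ℕ) {F g : Perm ℕ → K}, Tens k F g h →
    p + l < k → Tens k (dn (lam K) x l p F) (dn (lam K) x l p g) h
  | 0, _, _, _, H, _ => H
  | (l + 1), p, _, _, H, hp => Tens.dnA x l (p + 1) (H.facA (by omega) x) (by omega)

lemma Tens.dnB {k : ℕ} (x : K) {g : Perm ℕ → K} : ∀ (l p : ℕ) {F h : Perm ℕ → K}, Tens k F g h →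
    k ≤ p → Tens k (dn (lam K) x l p F) g (dn (lam K) x l p h)
  | 0, _, _, _, H, _ => H
  | (l + 1), p, _, _, H, hp => Tens.dnB x l (p + 1) (H.facB hp x) (by omega)

lemma Tens.upA {k : ℕ} (x : K) {h : Perm ℕ → K} : ∀ (l p : ℕ) {F g : Perm ℕ → K}, Tens k F g h →
    p + l < k → Tens k (up (lam K) x l p F) (up (lam K) x l p g) h
  | 0, _, _, _, H, _ => H
  | (l + 1), p, _, _, H, hp => (Tens.upA x l (p + 1) H (by omega)).facA (by omega) x

lemma Tens.upB {k : ℕ} (x : K) {g : Perm ℕ → K} : ∀ (l p : ℕ) {F h : Perm ℕ → K}, Tens k F g h →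
    k ≤ p → Tens k (up (lam K) x l p F) g (up (lam K) x l p h)
  | 0, _, _, _, H, _ => H
  | (l + 1), p, _, _, H, hp => (Tens.upB x l (p + 1) H (by omega)).facB hp x

lemma dn_split {R : Type*} [Ring R] [Algebra K R] (u : ℕ → R) (x : K) (b : ℕ) : ∀ (a p : ℕ),
    dn u x (a + b) p = dn u x b (p + a) * dn u x a p
  | 0, p => by simp
  | (a + 1), p => by
    rw [show a + 1 + b = (a + b) + 1 by ring, dn_succ, dn_split u x b a (p + 1), dn_succ,
      show p + 1 + a = p + (a + 1) by ring, mul_assoc]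

lemma up_split {R : Type*} [Ring R] [Algebra K R] (u : ℕ → R) (x : K) (b : ℕ) : ∀ (a p : ℕ),
    up u x (a + b) p = up u x a p * up u x b (p + a)
  | 0, p => by simp
  | (a + 1), p => by
    rw [show a + 1 + b = (a + b) + 1 by ring, up_succ, up_split u x b a (p + 1), up_succ,
      show p + 1 + a = p + (a + 1) by ring, mul_assoc]

/-- a row crossing the wall -/
lemma Tens.dnM {k : ℕ} (x : K) (a b p : ℕ) {F g h : Perm ℕ → K} (H : Tens k F g h)
    (hp : p + a + 1 = k) :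
    Tens k (dn (lam K) x (a + 1 + b) p F) (dn (lam K) x a p g) (dn (lam K) x b k h) := by
  rw [dn_split, dn_split, Module.End.mul_apply, Module.End.mul_apply, show p + (a + 1) = k by omega]
  apply Tens.dnB x b k _ le_rfl
  have : dn (lam K) x 1 (p + a) = fac (lam K) x (p + a) := by rw [dn_succ, dn_zero, one_mul]
  rw [this]
  exact (Tens.dnA x a p H (by omega)).facM (by omega) x

lemma Tens.upM {k : ℕ} (x : K) (a b p : ℕ) {F g h : Perm ℕ → K} (H : Tens k F g h)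
    (hp : p + a + 1 = k) :
    Tens k (up (lam K) x (a + 1 + b) p F) (up (lam K) x a p g) (up (lam K) x b k h) := by
  rw [up_split, up_split, Module.End.mul_apply, Module.End.mul_apply, show p + (a + 1) = k by omega]
  apply Tens.upA x a p _ (by omega)
  have : up (lam K) x 1 (p + a) = fac (lam K) x (p + a) := by rw [up_succ, up_zero, mul_one]
  rw [this]
  exact (Tens.upB x b k H le_rfl).facM (by omega) x

lemma Tens.schA {k : ℕ} {h : Perm ℕ → K} : ∀ (l p : ℕ) {F g : Perm ℕ → K}, Tens k F g h →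
    p + l < k → Tens k (sch K (lam K) l p F) (sch K (lam K) l p g) h
  | 0, _, _, _, H, _ => H
  | (l + 1), p, _, _, H, hp =>
    Tens.dnA 1 (l + 1) p (Tens.schA l (p + 1) H (by omega)) hp

lemma Tens.schB {k : ℕ} {g : Perm ℕ → K} : ∀ (l p : ℕ) {F h : Perm ℕ → K}, Tens k F g h →
    k ≤ p → Tens k (sch K (lam K) l p F) g (sch K (lam K) l p h)
  | 0, _, _, _, H, _ => H
  | (l + 1), p, _, _, H, hp =>
    Tens.dnB 1 (l + 1) p (Tens.schB l (p + 1) H (by omega)) hp

lemma Tens.powB {k : ℕ} {g : Perm ℕ → K} {G : Module.End K (Perm ℕ → K)}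
    (hG : ∀ F h, Tens k F g h → Tens k (G F) g (G h)) : ∀ (n : ℕ) {F h : Perm ℕ → K},
    Tens k F g h → Tens k ((G ^ n) F) g ((G ^ n) h)
  | 0, _, _, H => by rw [pow_zero]; exact H
  | (n + 1), F, h, H => by
    rw [pow_succ]
    exact Tens.powB hG n (hG F h H)

/-- the rows `p, …` of the staircase crossing the wall `k = p + a` -/
lemma Tens.schM {k l : ℕ} {F g h : Perm ℕ → K} (H : Tens k F g h) : ∀ (a p : ℕ), p + a = k →
    Tens k (sch K (lam K) (a + l) p F) (sch K (lam K) (a - 1) p g)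
      ((dn (lam K) (1 : K) l k ^ a * sch K (lam K) l k) h)
  | 0, p, hp => by
    simp only [zero_add, pow_zero, one_mul]
    have : p = k := by omega
    subst this
    exact Tens.schB l p H le_rfl
  | (a + 1), p, hp => by
    have ih := Tens.schM H (l := l) a (p + 1) (by omega)
    have h1 : sch K (lam K) (a + 1 + l) p =
        dn (lam K) (1 : K) (a + 1 + l) p * sch K (lam K) (a + l) (p + 1) := by
      rw [show a + 1 + l = (a + l) + 1 by ring, sch_succ]
    have h2 : sch K (lam K) (a + 1 - 1) p = dn (lam K) (1 : K) a p * sch K (lam K) (a - 1) (p + 1) := by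
      cases a with
      | zero => simp
      | succ a => rw [Nat.add_sub_cancel, sch_succ, Nat.add_sub_cancel]
    rw [h1, h2, pow_succ', mul_assoc]
    exact Tens.dnM 1 a l p ih (by omega)

/-- **T1** -/
theorem cf_sch_mul_rv (m l : ℕ) (σ : Perm ℕ) (hσ : FA m σ) :
    cf (σ * rv m l) (sch ℚ (lam ℚ) (m + l) 0) = cf σ (sch ℚ (lam ℚ) (m - 1) 0) * W m l := by
  have H := Tens.schM (l := l) (tens_del (K := ℚ) m) m 0 (by omega)
  have := H σ (rv m l) hσ (fb_rv le_rfl)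
  rw [← Wn_eq m l m]
  exact this

end Pool.Agent.helper54.Schub
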