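import Mathlib
import Pool.Agent.helper54.Schub.Tens

/-!
# The corner swap
-/

namespace Pool.Agent.helper54.Schub

open Equiv

lemma PM.inv {k : ℕ} {w : Perm ℕ} (h : PM k w) : PM k w⁻¹ := by
  intro x
  have := h (w⁻¹ x)
  rw [show w (w⁻¹ x) = x from w.apply_symm_apply x] at this
  exact this.symm

lemma pm_sj_mul {k j : ℕ} (hj : j + 1 ≠ k) (w : Perm ℕ) : PM k (sj j * w) ↔ PM k w := by
  have key : ∀ y, sj j y < k ↔ y < k := by
    intro y; rw [sj_apply]; split_ifs <;> omega
  constructor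
  · intro h x
    rw [← h x, Perm.mul_apply, key]
  · intro h x
    rw [← h x, Perm.mul_apply, key]

variable {K : Type*} [CommRing K]

open scoped Classical in
/-- evaluate at `w s_t`, for `w` preserving `[0,t]`. -/
noncomputable def TT (K : Type*) [CommRing K] (t : ℕ) : Module.End K (Perm ℕ → K) where
  toFun f w := if PM (t + 1) w then f (w * sj t) else 0
  map_add' f g := by ext w; simp only [Pi.add_apply]; split_ifs <;> simp
  map_smul' c f := by ext w; simp only [Pi.smul_apply, RingHom.id_apply]; split_ifs <;> simp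

open scoped Classical in
/-- restrict to `w` preserving `[0,t]` and fixing `t`, `t+1`. -/
noncomputable def prT (K : Type*) [CommRing K] (t : ℕ) : Module.End K (Perm ℕ → K) where
  toFun f w := if PM (t + 1) w ∧ w t = t ∧ w (t + 1) = t + 1 then f w else 0
  map_add' f g := by ext w; simp only [Pi.add_apply]; split_ifs <;> simp
  map_smul' c f := by ext w; simp only [Pi.smul_apply, RingHom.id_apply]; split_ifs <;> simp

open scoped Classical in
/-- restrict to `w` fixing all `x ≥ t`. -/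
noncomputable def pA (K : Type*) [CommRing K] (t : ℕ) : Module.End K (Perm ℕ → K) where
  toFun f w := if FA t w then f w else 0
  map_add' f g := by ext w; simp only [Pi.add_apply]; split_ifs <;> simp
  map_smul' c f := by ext w; simp only [Pi.smul_apply, RingHom.id_apply]; split_ifs <;> simp

open scoped Classical in
/-- restrict to `w` fixing all `x < t`. -/
noncomputable def pB (K : Type*) [CommRing K] (t : ℕ) : Module.End K (Perm ℕ → K) where
  toFun f w := if FB t w then f w else 0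
  map_add' f g := by ext w; simp only [Pi.add_apply]; split_ifs <;> simp
  map_smul' c f := by ext w; simp only [Pi.smul_apply, RingHom.id_apply]; split_ifs <;> simp

open scoped Classical in
lemma TT_apply (t : ℕ) (f : Perm ℕ → K) (w : Perm ℕ) :
    TT K t f w = if PM (t + 1) w then f (w * sj t) else 0 := rfl
open scoped Classical in
lemma prT_apply (t : ℕ) (f : Perm ℕ → K) (w : Perm ℕ) :
    prT K t f w = if PM (t + 1) w ∧ w t = t ∧ w (t + 1) = t + 1 then f w else 0 := rfl
open scoped Classical in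
lemma pA_apply (t : ℕ) (f : Perm ℕ → K) (w : Perm ℕ) :
    pA K t f w = if FA t w then f w else 0 := rfl
open scoped Classical in
lemma pB_apply (t : ℕ) (f : Perm ℕ → K) (w : Perm ℕ) :
    pB K t f w = if FB t w then f w else 0 := rfl

lemma mul_sj_inv_apply (t : ℕ) (w : Perm ℕ) (x : ℕ) : (w * sj t)⁻¹ x = sj t (w⁻¹ x) := by
  simp [mul_inv_rev]

lemma TT_lam_of_ne {t j : ℕ} (hj : j ≠ t) : TT K t * lam K j = lam K j * TT K t := by
  ext f w
  rw [Module.End.mul_apply, Module.End.mul_apply, TT_apply, lam_apply, lam_apply, TT_apply,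
    mul_sj_inv_apply, mul_sj_inv_apply]
  have h1 := pm_sj_mul (k := t + 1) (j := j) (by omega) w
  by_cases h : PM (t + 1) w
  · rw [if_pos h, if_pos (h1.2 h)]
    have h2 := h.inv j
    have h3 := h.inv (j + 1)
    have h4 : w⁻¹ j ≠ w⁻¹ (j + 1) := by simp
    have h5 : sj t (w⁻¹ (j + 1)) < sj t (w⁻¹ j) ↔ w⁻¹ (j + 1) < w⁻¹ j := by
      rw [sj_apply, sj_apply]
      split_ifs <;> omega
    by_cases h6 : w⁻¹ (j + 1) < w⁻¹ j
    · rw [if_pos h6, if_pos (h5.2 h6), mul_assoc]
    · rw [if_neg h6, if_neg (fun h7 => h6 (h5.1 h7))]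
  · rw [if_neg h, if_neg (fun h2 => h (h1.1 h2))]
    split_ifs <;> rfl

lemma TT_lam {t : ℕ} : TT K t * lam K t = prT K t := by
  ext f w
  rw [Module.End.mul_apply, TT_apply, prT_apply, lam_apply, mul_sj_inv_apply, mul_sj_inv_apply]
  by_cases h : PM (t + 1) w
  · rw [if_pos h]
    have h2 := h.inv t
    have h3 := h.inv (t + 1)
    by_cases h4 : w t = t ∧ w (t + 1) = t + 1
    · have e1 : w⁻¹ t = t := by rw [Perm.inv_eq_iff_eq]; exact h4.1.symm
      have e2 : w⁻¹ (t + 1) = t + 1 := by rw [Perm.inv_eq_iff_eq]; exact h4.2.symm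
      rw [e1, e2, sj_left, sj_right, if_pos (by omega), if_pos ⟨h, h4⟩]
      congr 1
      ext x
      simp only [Perm.mul_apply]
      by_cases hx1 : x = t
      · subst hx1; rw [sj_left, h4.2, sj_right, h4.1]
      · by_cases hx2 : x = t + 1
        · subst hx2; rw [sj_right, h4.1, sj_left, h4.2]
        · rw [sj_of_ne hx1 hx2, sj_of_ne]
          · intro h5; apply hx1; apply w.injective; rw [h5, h4.1]
          · intro h5; apply hx2; apply w.injective; rw [h5, h4.2]
    · have e1 : ¬ (PM (t + 1) w ∧ w t = t ∧ w (t + 1) = t + 1) := fun h5 => h4 h5.2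
      rw [if_neg e1, if_neg]
      intro h5
      apply h4
      have h6 : w⁻¹ t = t ∧ w⁻¹ (t + 1) = t + 1 := by
        rw [sj_apply, sj_apply] at h5
        split_ifs at h5 <;> omega
      exact ⟨(Perm.inv_eq_iff_eq.1 h6.1).symm, (Perm.inv_eq_iff_eq.1 h6.2).symm⟩
  · rw [if_neg h, if_neg (fun h2 => h h2.1)]

lemma TT_fac_of_ne {t j : ℕ} (hj : j ≠ t) (x : K) :
    TT K t * fac (lam K) x j = fac (lam K) x j * TT K t := by
  simp only [fac, mul_add, add_mul, mul_one, one_mul, mul_smul_comm, smul_mul_assoc,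
    TT_lam_of_ne hj]

lemma TT_up {t : ℕ} (x : K) : ∀ (l p : ℕ), (p + l ≤ t ∨ t < p) →
    TT K t * up (lam K) x l p = up (lam K) x l p * TT K t
  | 0, _, _ => by simp
  | (l + 1), p, h => by
    rw [up_succ, ← mul_assoc, TT_fac_of_ne (by omega), mul_assoc, TT_up x l (p + 1) (by omega),
      mul_assoc]

lemma TT_dn {t : ℕ} (x : K) : ∀ (l p : ℕ), (p + l ≤ t ∨ t < p) →
    TT K t * dn (lam K) x l p = dn (lam K) x l p * TT K t
  | 0, _, _ => by simp
  | (l + 1), p, h => by
    rw [dn_succ, ← mul_assoc, TT_dn x l (p + 1) (by omega), mul_assoc, TT_fac_of_ne (by omega),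
      mul_assoc]

lemma TT_sch {t : ℕ} : ∀ (l p : ℕ), (p + l ≤ t ∨ t < p) →
    TT K t * sch K (lam K) l p = sch K (lam K) l p * TT K t
  | 0, _, _ => by simp
  | (l + 1), p, h => by
    rw [sch_succ, ← mul_assoc, TT_dn 1 (l + 1) p (by omega), mul_assoc, TT_sch l (p + 1) (by omega),
      mul_assoc]

lemma TT_upM {t : ℕ} (a b p : ℕ) (hp : p + a = t) :
    TT K t * up (lam K) (1 : K) (a + 1 + b) p =
      up (lam K) (1 : K) a p * up (lam K) (1 : K) b (t + 1) * TT K t +
      up (lam K) (1 : K) a p * (prT K t * up (lam K) (1 : K) b (t + 1)) := by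
  have h1 : up (lam K) (1 : K) (a + 1 + b) p = up (lam K) (1 : K) a p *
      (fac (lam K) (1 : K) t * up (lam K) (1 : K) b (t + 1)) := by
    rw [up_split, up_succ', mul_assoc, hp, show p + (a + 1) = t + 1 by omega]
  have h2 : TT K t * fac (lam K) (1 : K) t = TT K t + prT K t := by
    rw [fac, mul_add, mul_one, one_smul, TT_lam]
  rw [h1, ← mul_assoc, TT_up 1 a p (by omega), mul_assoc, ← mul_assoc (TT K t), h2, add_mul,
    TT_up 1 b (t + 1) (by omega), mul_add, mul_assoc]

/-- partial column product -/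
def colp (K : Type*) [CommRing K] (c : ℕ) : ℕ → Module.End K (Perm ℕ → K)
  | 0 => 1
  | (p + 1) => up (lam K) (1 : K) (c - 1 - p) p * colp K c p

lemma sch_colp (c : ℕ) : ∀ p, p ≤ c →
    sch K (lam K) (c - 1 - p) p * colp K c p = sch K (lam K) (c - 1) 0
  | 0, _ => by rw [colp, mul_one]; rfl
  | (p + 1), hp => by
    rw [← sch_colp c p (by omega), colp, ← mul_assoc]
    congr 1
    obtain h | ⟨l, hl⟩ : c - 1 - p = 0 ∨ ∃ l, c - 1 - p = l + 1 := by
      rcases h : c - 1 - p with _ | l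
      · exact Or.inl rfl
      · exact Or.inr ⟨l, rfl⟩
    · have h2 : c - 1 - (p + 1) = 0 := by omega
      rw [h, h2]; simp
    · have h2 : c - 1 - (p + 1) = l := by omega
      rw [hl, h2, ← sch_succ' nilCox_lam]

lemma Tens.colp {k b : ℕ} {F g h : Perm ℕ → K} (H : Tens k F g h) : ∀ p, p ≤ k →
    Tens k (Schub.colp K (k + b + 1) p F) (Schub.colp K k p g) ((up (lam K) (1 : K) b k ^ p) h)
  | 0, _ => H
  | (p + 1), hp => by
    have ih := Tens.colp H (b := b) p (by omega)
    have := Tens.upM 1 (k - 1 - p) b p ih (by omega)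
    rw [pow_succ', Schub.colp, Schub.colp, show k + b + 1 - 1 - p = k - 1 - p + 1 + b by omega]
    exact this

/-- outer part of the column reading, with the generator `k-1` removed -/
def Mop (K : Type*) [CommRing K] (k b : ℕ) : ℕ → ℕ → Module.End K (Perm ℕ → K)
  | 0, _ => sch K (lam K) b k
  | (a + 1), y => Mop K k b a (y + 1) * (up (lam K) (1 : K) a y * up (lam K) (1 : K) b k)

lemma Tens.Mop {k b : ℕ} : ∀ (a y : ℕ) {F g h : Perm ℕ → K}, Tens k F g h → y + a = k →
    Tens k (Schub.Mop K k b a y F) (sch K (lam K) (a - 1) y g)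
      ((sch K (lam K) b k * up (lam K) (1 : K) b k ^ a) h)
  | 0, y, F, g, h, H, _ => by
    rw [pow_zero, mul_one]
    exact Tens.schB b k H le_rfl
  | (a + 1), y, F, g, h, H, hy => by
    have h1 := Tens.upB 1 b k H le_rfl
    have h2 := Tens.upA 1 a y h1 (by omega)
    have h3 := Tens.Mop (b := b) a (y + 1) h2 (by omega)
    have h4 : sch K (lam K) (a + 1 - 1) y g =
        sch K (lam K) (a - 1) (y + 1) (up (lam K) (1 : K) a y g) := by
      cases a with
      | zero => simp
      | succ a => rw [Nat.add_sub_cancel, Nat.add_sub_cancel, sch_succ' nilCox_lam]; rfl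
    rw [pow_succ, ← mul_assoc, h4]
    exact h3

lemma Tens.prT {t : ℕ} {F g h : Perm ℕ → K} (H : Tens (t + 1) F g h) :
    Tens (t + 1) (Schub.prT K t F) (pA K t g) (pB K (t + 2) h) := by
  intro σ τ hσ hτ
  rw [prT_apply, pA_apply, pB_apply, st_lt hσ hτ (x := t) (by omega),
    st_ge hσ hτ (x := t + 1) (by omega), H _ _ hσ hτ]
  have h1 := st_pm hσ hτ
  have h2 : FA t σ ↔ σ t = t := by
    refine ⟨fun h => h t le_rfl, fun h x hx => ?_⟩
    rcases eq_or_lt_of_le hx with rfl | hx
    · exact h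
    · exact hσ x hx
  have h3 : FB (t + 2) τ ↔ τ (t + 1) = t + 1 := by
    refine ⟨fun h => h (t + 1) (by omega), fun h x hx => ?_⟩
    by_cases h4 : x = t + 1
    · subst h4; exact h
    · exact hτ x (by omega)
  by_cases h4 : σ t = t
  · by_cases h5 : τ (t + 1) = t + 1
    · rw [if_pos ⟨h1, h4, h5⟩, if_pos (h2.2 h4), if_pos (h3.2 h5)]
    · rw [if_neg (fun h6 => h5 h6.2.2), if_neg (fun h6 => h5 (h3.1 h6)), mul_zero]
  · rw [if_neg (fun h6 => h4 h6.2.1), if_neg (fun h6 => h4 (h2.1 h6)), zero_mul]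

lemma Tens.pA {m t : ℕ} (hmt : m ≤ t) {F g h : Perm ℕ → K} (H : Tens m F g h) :
    Tens m (Schub.pA K t F) g (Schub.pA K t h) := by
  intro σ τ hσ hτ
  rw [pA_apply, pA_apply, H _ _ hσ hτ]
  have h1 : FA t (σ * τ) ↔ FA t τ := by
    constructor
    · intro h x hx; rw [← st_ge hσ hτ (by omega)]; exact h x hx
    · intro h x hx; rw [st_ge hσ hτ (by omega)]; exact h x hx
  by_cases h2 : FA t τ
  · rw [if_pos h2, if_pos (h1.2 h2)]
  · rw [if_neg h2, if_neg (fun h3 => h2 (h1.1 h3)), mul_zero]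

lemma pA_lam_of_lt {t j : ℕ} (hj : j + 1 < t) (f : Perm ℕ → K) :
    pA K t (lam K j f) = lam K j (pA K t f) := by
  ext w
  rw [pA_apply, lam_apply, lam_apply, pA_apply]
  have h1 : FA t (sj j * w) ↔ FA t w := by
    constructor
    · intro h
      have := (fa_sj hj).mul h
      rwa [sj_mul_cancel] at this
    · intro h; exact (fa_sj hj).mul h
  by_cases h2 : FA t w
  · rw [if_pos h2, if_pos (h1.2 h2)]
  · rw [if_neg h2, if_neg (fun h3 => h2 (h1.1 h3)), ite_self]

lemma pA_lam {t j : ℕ} (hj : j + 1 = t) (f : Perm ℕ → K) : pA K t (lam K j f) = 0 := by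
  ext w
  rw [pA_apply, lam_apply, Pi.zero_apply]
  by_cases h2 : FA t w
  · rw [if_pos h2, if_neg]
    have h3 := h2.inv (j + 1) (by omega)
    have h4 := h2.inv.lt (x := j) (by omega)
    omega
  · rw [if_neg h2]

lemma pB_lam_of_le {t j : ℕ} (hj : t ≤ j) (f : Perm ℕ → K) :
    pB K t (lam K j f) = lam K j (pB K t f) := by
  ext w
  rw [pB_apply, lam_apply, lam_apply, pB_apply]
  have h1 : FB t (sj j * w) ↔ FB t w := by
    constructor
    · intro h
      have := (fb_sj hj).mul h
      rwa [sj_mul_cancel] at this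
    · intro h; exact (fb_sj hj).mul h
  by_cases h2 : FB t w
  · rw [if_pos h2, if_pos (h1.2 h2)]
  · rw [if_neg h2, if_neg (fun h3 => h2 (h1.1 h3)), ite_self]

lemma pB_lam {t j : ℕ} (hj : j + 1 = t) (f : Perm ℕ → K) : pB K t (lam K j f) = 0 := by
  ext w
  rw [pB_apply, lam_apply, Pi.zero_apply]
  by_cases h2 : FB t w
  · rw [if_pos h2, if_neg]
    have h3 := h2.inv j (by omega)
    have h4 := h2.inv.le (x := j + 1) (by omega)
    omega
  · rw [if_neg h2]

lemma pA_fac_of_lt {t j : ℕ} (hj : j + 1 < t) (x : K) (f : Perm ℕ → K) :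
    pA K t (fac (lam K) x j f) = fac (lam K) x j (pA K t f) := by
  rw [fac_apply, fac_apply, map_add, map_smul, pA_lam_of_lt hj]

lemma pA_fac {t j : ℕ} (hj : j + 1 = t) (x : K) (f : Perm ℕ → K) :
    pA K t (fac (lam K) x j f) = pA K t f := by
  rw [fac_apply, map_add, map_smul, pA_lam hj, smul_zero, add_zero]

lemma pB_fac_of_le {t j : ℕ} (hj : t ≤ j) (x : K) (f : Perm ℕ → K) :
    pB K t (fac (lam K) x j f) = fac (lam K) x j (pB K t f) := by
  rw [fac_apply, fac_apply, map_add, map_smul, pB_lam_of_le hj]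

lemma pB_fac {t j : ℕ} (hj : j + 1 = t) (x : K) (f : Perm ℕ → K) :
    pB K t (fac (lam K) x j f) = pB K t f := by
  rw [fac_apply, map_add, map_smul, pB_lam hj, smul_zero, add_zero]

lemma pA_up_of_lt {t : ℕ} (x : K) : ∀ (l p : ℕ) (f : Perm ℕ → K), p + l < t →
    pA K t (up (lam K) x l p f) = up (lam K) x l p (pA K t f)
  | 0, _, _, _ => rfl
  | (l + 1), p, f, h => by
    rw [up_succ, Module.End.mul_apply, Module.End.mul_apply, pA_fac_of_lt (by omega),
      pA_up_of_lt x l (p + 1) f (by omega)]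

lemma pB_up_of_le {t : ℕ} (x : K) : ∀ (l p : ℕ) (f : Perm ℕ → K), t ≤ p →
    pB K t (up (lam K) x l p f) = up (lam K) x l p (pB K t f)
  | 0, _, _, _ => rfl
  | (l + 1), p, f, h => by
    rw [up_succ, Module.End.mul_apply, Module.End.mul_apply, pB_fac_of_le (by omega),
      pB_up_of_le x l (p + 1) f (by omega)]

lemma pA_up (x : K) (m a : ℕ) (f : Perm ℕ → K) :
    pA K (m + (a + 1)) (up (lam K) x (a + 1) m f) = up (lam K) x a m (pA K (m + (a + 1)) f) := by
  rw [up_succ', Module.End.mul_apply, pA_up_of_lt x a m _ (by omega), pA_fac (by omega)]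

lemma pB_up (x : K) (k b : ℕ) (f : Perm ℕ → K) :
    pB K (k + 1) (up (lam K) x (b + 1) k f) = up (lam K) x b (k + 1) (pB K (k + 1) f) := by
  rw [up_succ, Module.End.mul_apply, pB_fac rfl, pB_up_of_le x b (k + 1) _ (by omega)]

lemma pA_up_pow (x : K) (m a : ℕ) : ∀ (i : ℕ) (f : Perm ℕ → K),
    pA K (m + (a + 1)) ((up (lam K) x (a + 1) m ^ i) f) =
      (up (lam K) x a m ^ i) (pA K (m + (a + 1)) f)
  | 0, _ => rfl
  | (i + 1), f => by
    rw [pow_succ', pow_succ', Module.End.mul_apply, Module.End.mul_apply, pA_up, pA_up_pow x m a i]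

lemma pB_up_pow (x : K) (k b : ℕ) : ∀ (i : ℕ) (f : Perm ℕ → K),
    pB K (k + 1) ((up (lam K) x (b + 1) k ^ i) f) =
      (up (lam K) x b (k + 1) ^ i) (pB K (k + 1) f)
  | 0, _ => rfl
  | (i + 1), f => by
    rw [pow_succ', pow_succ', Module.End.mul_apply, Module.End.mul_apply, pB_up, pB_up_pow x k b i]

lemma pA_del (t : ℕ) : pA K t (del K) = del K := by
  ext w
  rw [pA_apply]
  by_cases h : w = 1
  · subst h; rw [if_pos (fa_one t)]
  · rw [del_ne h, ite_self]

lemma pB_del (t : ℕ) : pB K t (del K) = del K := by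
  ext w
  rw [pB_apply]
  by_cases h : w = 1
  · subst h; rw [if_pos (fb_one t)]
  · rw [del_ne h, ite_self]

lemma TT_del (t : ℕ) : TT K t (del K) = 0 := by
  ext w
  rw [TT_apply, Pi.zero_apply]
  by_cases h : PM (t + 1) w
  · rw [if_pos h, del_ne]
    intro h2
    have h3 : w = sj t := by rw [mul_eq_one_iff_eq_inv] at h2; rw [h2, sj_inv]
    have h4 := h t
    rw [h3, sj_left] at h4
    omega
  · rw [if_neg h]

end Pool.Agent.helper54.Schub
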