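import Mathlib
import Pool.Agent.helper54.Schub.Corner

/-!
# The value of the corner swap
-/

namespace Pool.Agent.helper54.Schub

open Equiv

/-- operators preserving nonnegative functions -/
def NN (G : Module.End ℚ (Perm ℕ → ℚ)) : Prop := ∀ f, (∀ w, 0 ≤ f w) → ∀ w, 0 ≤ G f w

lemma NN.mul {G H : Module.End ℚ (Perm ℕ → ℚ)} (hG : NN G) (hH : NN H) : NN (G * H) :=
  fun f hf => hG _ (hH f hf)
lemma NN.one : NN 1 := fun _ hf => hf
lemma NN.pow {G : Module.End ℚ (Perm ℕ → ℚ)} (hG : NN G) : ∀ n : ℕ, NN (G ^ n)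
  | 0 => by rw [pow_zero]; exact NN.one
  | (n + 1) => by rw [pow_succ]; exact (NN.pow hG n).mul hG
lemma nn_fac (j : ℕ) : NN (fac (lam ℚ) (1 : ℚ) j) := by
  intro f hf w
  rw [fac_apply, Pi.add_apply, Pi.smul_apply, lam_apply, one_smul]
  split_ifs
  · exact add_nonneg (hf _) (hf _)
  · rw [add_zero]; exact hf _
lemma nn_dn : ∀ l p, NN (dn (lam ℚ) (1 : ℚ) l p)
  | 0, _ => NN.one
  | (l + 1), p => (nn_dn l (p + 1)).mul (nn_fac p)
lemma nn_up : ∀ l p, NN (up (lam ℚ) (1 : ℚ) l p)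
  | 0, _ => NN.one
  | (l + 1), p => (nn_fac p).mul (nn_up l (p + 1))
lemma nn_sch : ∀ l p, NN (sch ℚ (lam ℚ) l p)
  | 0, _ => NN.one
  | (l + 1), p => (nn_dn (l + 1) p).mul (nn_sch l (p + 1))
lemma nn_prT (t : ℕ) : NN (prT ℚ t) := by
  intro f hf w
  rw [prT_apply]
  split_ifs
  · exact hf w
  · exact le_rfl
lemma nn_colp (c : ℕ) : ∀ p, NN (colp ℚ c p)
  | 0 => NN.one
  | (p + 1) => (nn_up _ _).mul (nn_colp c p)
lemma nn_Mop (k b : ℕ) : ∀ a y, NN (Mop ℚ k b a y)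
  | 0, _ => nn_sch _ _
  | (a + 1), y => (nn_Mop k b a (y + 1)).mul ((nn_up _ _).mul (nn_up _ _))

lemma del_nonneg (w : Perm ℕ) : 0 ≤ del ℚ w := by
  rw [del_apply]; split_ifs <;> norm_num

/-- the term of the corner-swap expansion -/
noncomputable def term (t b a y : ℕ) : Module.End ℚ (Perm ℕ → ℚ) :=
  Mop ℚ (t + 1) b a (y + 1) * (up (lam ℚ) (1 : ℚ) a y *
    (prT ℚ t * (up (lam ℚ) (1 : ℚ) b (t + 1) * colp ℚ (t + 1 + b + 1) y)))

lemma nn_term (t b a y : ℕ) : NN (term t b a y) :=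
  (nn_Mop _ _ _ _).mul ((nn_up _ _).mul ((nn_prT _).mul ((nn_up _ _).mul (nn_colp _ _))))

lemma Z_step (t b a y : ℕ) (h : y + a = t) :
    Mop ℚ (t + 1) b a (y + 1) * (TT ℚ t * colp ℚ (t + 1 + b + 1) (y + 1)) =
      Mop ℚ (t + 1) b (a + 1) y * (TT ℚ t * colp ℚ (t + 1 + b + 1) y) + term t b a y := by
  rw [colp, show t + 1 + b + 1 - 1 - y = a + 1 + b by omega, ← mul_assoc (TT ℚ t), TT_upM a b y h,
    Mop, term]
  noncomm_ring

lemma Z_sum (t b : ℕ) : ∀ y a, y + a = t + 1 →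
    (Mop ℚ (t + 1) b a y * (TT ℚ t * colp ℚ (t + 1 + b + 1) y)) (del ℚ) =
      ∑ i ∈ Finset.range y, term t b (t - i) i (del ℚ)
  | 0, a, h => by
    rw [Finset.range_zero, Finset.sum_empty, Module.End.mul_apply, Module.End.mul_apply, colp,
      Module.End.one_apply, TT_del, map_zero]
  | (y + 1), a, h => by
    rw [Z_step t b a y (by omega), LinearMap.add_apply, Z_sum t b y (a + 1) (by omega),
      Finset.sum_range_succ, show t - y = a by omega]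

lemma TT_sch_eq (t b : ℕ) : (TT ℚ t * sch ℚ (lam ℚ) (t + 1 + b) 0) (del ℚ) =
    ∑ i ∈ Finset.range (t + 1), term t b (t - i) i (del ℚ) := by
  rw [← Z_sum t b (t + 1) 0 (by omega), Mop]
  have h := sch_colp (K := ℚ) (t + 1 + b + 1) (t + 1) (by omega)
  rw [show t + 1 + b + 1 - 1 - (t + 1) = b by omega, show t + 1 + b + 1 - 1 = t + 1 + b by omega] at h
  rw [← h, ← mul_assoc, ← mul_assoc, TT_sch b (t + 1) (by omega)]

/-- The tail function of the law of the exponents. -/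
noncomputable def Q (m : ℕ) : ℕ → ℕ → ℚ
  | 0, _ => 1
  | (a + 1), y => W m a * ((∑ i ∈ Finset.range (m + 1 - y), psi (m + 1) a i) / psi (m + 1) a 0)

lemma Q_fex (m a y p : ℕ) (hy : y ≤ m + 1) : Q m (a + 1) y = Fex p a (m + 1) (m + 1 - y) := by
  have := fex_eq p a m (m + 1 - y)
  rw [Q, ← this]
  congr 1
  push_cast [Nat.cast_sub hy]
  ring

lemma cf_pow_trace {p l r s q : ℕ} (h1 : p ≤ q) (h2 : q + r ≤ p + l) (h3 : s + q + r = 2 * p + l) :
    ∀ (n : ℕ) {G : Module.End ℚ (Perm ℕ → ℚ)}, RC G →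
    cf (rv p l) (dn (lam ℚ) (1 : ℚ) r q ^ n * G) = cf (rv p l) (G * up (lam ℚ) (1 : ℚ) r s ^ n)
  | 0, G, _ => by simp
  | (n + 1), G, hG => by
    rw [pow_succ, mul_assoc, cf_pow_trace h1 h2 h3 n (rc_mul (rc_dn _ _ _) hG), mul_assoc,
      trace_dn (1 : ℚ) r q s h1 h2 h3 (rc_mul hG (rc_pow (rc_up _ _ _) n)), mul_assoc, pow_succ]

lemma dn_pow_mul_sch (l p : ℕ) : ∀ n : ℕ,
    dn (lam ℚ) (1 : ℚ) l p ^ n * sch ℚ (lam ℚ) l p =
      sch ℚ (lam ℚ) l p * up (lam ℚ) (1 : ℚ) l p ^ n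
  | 0 => by simp
  | (n + 1) => by
    rw [pow_succ, mul_assoc, dn_mul_sch_self nilCox_lam, ← mul_assoc, dn_pow_mul_sch l p n,
      mul_assoc, ← pow_succ]

/-- value of the left factor -/
lemma U_value (m α y : ℕ) (hy : y ≤ m) :
    (dn (lam ℚ) (1 : ℚ) α m ^ (m - y) * sch ℚ (lam ℚ) α m)
      (pA ℚ (m + α) ((up (lam ℚ) (1 : ℚ) α m ^ y) (del ℚ))) (rv m α) = Q m α y := by
  cases α with
  | zero =>
    rw [Q, up_zero, dn_zero, one_pow, one_pow, sch_zero, mul_one, Module.End.one_apply,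
      Module.End.one_apply, pA_del, rv_zero, del_one]
  | succ α =>
    rw [pA_up_pow, pA_del, Q_fex m α y m (by omega), Fex, phi]
    change cf (rv m (α + 1)) (dn (lam ℚ) (1 : ℚ) (α + 1) m ^ (m - y) *
      sch ℚ (lam ℚ) (α + 1) m * up (lam ℚ) (1 : ℚ) α m ^ y) = _
    have e1 : ((m : ℤ) + 1 - y) = ((m + 1 - y : ℕ) : ℤ) := by
      push_cast [Nat.cast_sub (show y ≤ m + 1 by omega)]; ring
    have e2 : ((m : ℤ) + 1 - ((m + 1 - y : ℕ) : ℤ)) = (y : ℤ) := by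
      push_cast [Nat.cast_sub (show y ≤ m + 1 by omega)]; ring
    rw [e1, e2, zpow_natCast, zpow_natCast, Units.val_pow_eq_pow_val, Units.val_pow_eq_pow_val,
      U_val, U_val]
    rw [← cf_pow_trace (q := m + 1) (by omega) (by omega) (by omega) y
      (rc_mul (rc_pow (rc_dn _ _ _) _) (rc_sch _ _))]
    have h := phi_comm_pow (p := m) (L := α) (m + 1 - y)
      (Y := dn (lam ℚ) (1 : ℚ) α (m + 1) ^ y) (rc_pow (rc_dn _ _ _) _)
    unfold phi at h
    rw [h, sch_succ, show m + 1 - y = m - y + 1 by omega, pow_succ]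
    congr 1

/-- value of the right factor -/
lemma V_value (k β a y : ℕ) (hy : y + a + 1 = k) :
    (sch ℚ (lam ℚ) β k * up (lam ℚ) (1 : ℚ) β k ^ a)
      (pB ℚ (k + 1) ((up (lam ℚ) (1 : ℚ) β k ^ (y + 1)) (del ℚ))) (rv k β) = Q k β (y + 1) := by
  cases β with
  | zero =>
    rw [Q, up_zero, one_pow, one_pow, sch_zero, mul_one, Module.End.one_apply,
      Module.End.one_apply, pB_del, rv_zero, del_one]
  | succ β =>
    rw [pB_up_pow, pB_del, Q_fex k β (y + 1) k (by omega), Fex, phi]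
    change cf (rv k (β + 1)) (sch ℚ (lam ℚ) (β + 1) k * up (lam ℚ) (1 : ℚ) (β + 1) k ^ a *
      up (lam ℚ) (1 : ℚ) β (k + 1) ^ (y + 1)) = _
    have e1 : ((k : ℤ) + 1 - ((y + 1 : ℕ) : ℤ)) = ((a + 1 : ℕ) : ℤ) := by
      rw [← hy]; push_cast; ring
    have e2 : ((k : ℤ) + 1 - ((a + 1 : ℕ) : ℤ)) = ((y + 1 : ℕ) : ℤ) := by
      rw [← hy]; push_cast; ring
    rw [e1, e2, zpow_natCast, zpow_natCast, Units.val_pow_eq_pow_val, Units.val_pow_eq_pow_val,
      U_val, U_val, ← dn_pow_mul_sch, sch_succ]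
    congr 1
    have h := dn_pow_mul_sch β (k + 1) (y + 1)
    calc dn (lam ℚ) (1 : ℚ) (β + 1) k ^ a * (dn (lam ℚ) (1 : ℚ) (β + 1) k *
          sch ℚ (lam ℚ) β (k + 1)) * up (lam ℚ) (1 : ℚ) β (k + 1) ^ (y + 1)
        = dn (lam ℚ) (1 : ℚ) (β + 1) k ^ (a + 1) * (sch ℚ (lam ℚ) β (k + 1) *
            up (lam ℚ) (1 : ℚ) β (k + 1) ^ (y + 1)) := by
          rw [pow_succ (dn (lam ℚ) (1 : ℚ) (β + 1) k) a]; simp only [mul_assoc]
      _ = _ := by rw [← h, mul_assoc]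

lemma term_value (m α β y : ℕ) (hy : y ≤ m) (σ : Perm ℕ) (hσ : FA m σ) :
    term (m + α) β (m + α - y) y (del ℚ) (σ * rv m α * rv (m + α + 1) β) =
      cf σ (sch ℚ (lam ℚ) (m - 1) 0) * (Q m α y * Q (m + α + 1) β (y + 1)) := by
  set t := m + α with ht
  have H0 := Tens.colp (b := β) (tens_del (K := ℚ) (t + 1)) y (by omega)
  have H1 := Tens.upB 1 β (t + 1) H0 le_rfl
  have H2 := H1.prT
  have H3 := Tens.upA 1 (t - y) y H2 (by omega)
  have H4 := Tens.Mop (b := β) (t - y) (y + 1) H3 (by omega)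
  have hσ2 : FA (t + 1) (σ * rv m α) :=
    (hσ.mono (by omega)).mul (fa_rv (by omega))
  have H5 := H4 _ (rv (t + 1) β) hσ2 (fb_rv le_rfl)
  have e1 : (up (lam ℚ) (1 : ℚ) β (t + 1)) ((up (lam ℚ) (1 : ℚ) β (t + 1) ^ y) (del ℚ)) =
      (up (lam ℚ) (1 : ℚ) β (t + 1) ^ (y + 1)) (del ℚ) := by
    rw [pow_succ', Module.End.mul_apply]
  rw [e1, V_value (t + 1) β (t - y) y (by omega)] at H5
  have e2 : ∀ f : Perm ℕ → ℚ, (sch ℚ (lam ℚ) (t - y - 1) (y + 1)) ((up (lam ℚ) (1 : ℚ) (t - y) y) f) =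
      sch ℚ (lam ℚ) (t - y) y f := by
    intro f
    rcases h : t - y with _ | l
    · simp
    · rw [Nat.add_sub_cancel, sch_succ' nilCox_lam]; rfl
  rw [e2] at H5
  have J0 := Tens.colp (b := α) (tens_del (K := ℚ) m) y (by omega)
  have J1 := J0.pA (t := t) (by omega)
  have J2 := Tens.schM (l := α) J1 (m - y) y (by omega)
  have J3 := J2 _ (rv m α) hσ (fb_rv le_rfl)
  rw [ht, U_value m α y hy, ← ht] at J3
  have e3 : (sch ℚ (lam ℚ) (m - y - 1) y) ((colp ℚ m y) (del ℚ)) σ =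
      cf σ (sch ℚ (lam ℚ) (m - 1) 0) := by
    have := sch_colp (K := ℚ) m y hy
    rw [← this, cf_mul, show m - y - 1 = m - 1 - y by omega]
  rw [e3, show m - y + α = t - y by omega] at J3
  rw [J3] at H5
  rw [← mul_assoc (cf σ (sch ℚ (lam ℚ) (m - 1) 0))]
  exact H5

/-- **T2** -/
theorem cf_swap_ge (m α β : ℕ) (σ : Perm ℕ) (hσ : FA m σ) :
    cf σ (sch ℚ (lam ℚ) (m - 1) 0) *
        ∑ y ∈ Finset.range (m + 1), Q m α y * Q (m + α + 1) β (y + 1) ≤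
      cf (σ * rv m α * rv (m + α + 1) β * sj (m + α)) (sch ℚ (lam ℚ) (m + α + 1 + β) 0) := by
  have h1 := TT_sch_eq (m + α) β
  have hpm : PM (m + α + 1) (σ * rv m α * rv (m + α + 1) β) :=
    st_pm ((hσ.mono (by omega)).mul (fa_rv (by omega))) (fb_rv le_rfl)
  have h2 : cf (σ * rv m α * rv (m + α + 1) β * sj (m + α)) (sch ℚ (lam ℚ) (m + α + 1 + β) 0) =
      (TT ℚ (m + α) * sch ℚ (lam ℚ) (m + α + 1 + β) 0) (del ℚ) (σ * rv m α * rv (m + α + 1) β) := by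
    rw [Module.End.mul_apply, TT_apply, if_pos hpm]
    rfl
  rw [h2, h1, Finset.sum_apply, Finset.mul_sum]
  calc ∑ i ∈ Finset.range (m + 1), cf σ (sch ℚ (lam ℚ) (m - 1) 0) *
        (Q m α i * Q (m + α + 1) β (i + 1))
      = ∑ i ∈ Finset.range (m + 1), term (m + α) β (m + α - i) i (del ℚ)
          (σ * rv m α * rv (m + α + 1) β) := by
        apply Finset.sum_congr rfl
        intro i hi
        rw [Finset.mem_range] at hi
        rw [term_value m α β i (by omega) σ hσ]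
    _ ≤ _ := by
        apply Finset.sum_le_sum_of_subset_of_nonneg
        · intro i; simp only [Finset.mem_range]; omega
        · intro i _ _
          exact nn_term _ _ _ _ _ del_nonneg _

end Pool.Agent.helper54.Schub
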