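import Mathlib
import Pool.Agent.helper54.Schub.Top
import Pool.Agent.helper54.Schub.Swap

/-!
# Closed forms and inequalities for the block weights
-/

namespace Pool.Agent.helper54.Schub

open Finset

/-- normalised product -/
def cN (m L i : ℕ) : ℕ := (i + L).choose L * (2 * m + 1 - i + L).choose L

lemma psi_eq (m L i : ℕ) (hi : i ≤ 2 * m + 1) :
    psi (m + 1) L i = ((L.factorial * L.factorial : ℕ) : ℚ) * cN m L i := by
  have h1 : (∏ t ∈ range L, ((i : ℚ) + t + 1)) = ((L.factorial * (i + L).choose L : ℕ) : ℚ) := by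
    rw [← Nat.ascFactorial_eq_factorial_mul_choose, Nat.ascFactorial_eq_prod_range, Nat.cast_prod]
    apply prod_congr rfl
    intro t _
    push_cast; ring
  have h2 : (∏ t ∈ range L, ((2 : ℚ) * ((m + 1 : ℕ) : ℚ) + t - i)) =
      ((L.factorial * (2 * m + 1 - i + L).choose L : ℕ) : ℚ) := by
    rw [← Nat.ascFactorial_eq_factorial_mul_choose, Nat.ascFactorial_eq_prod_range, Nat.cast_prod]
    apply prod_congr rfl
    intro t _
    push_cast [Nat.cast_sub hi]; ring
  unfold psi
  rw [prod_mul_distrib, h1, h2, cN]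
  push_cast
  ring

/-- partial sums -/
def Sg (m L n : ℕ) : ℕ := ∑ i ∈ range n, cN m L i

lemma sum_psi (m L n : ℕ) (hn : n ≤ 2 * m + 2) : ∑ i ∈ range n, psi (m + 1) L i =
    ((L.factorial * L.factorial : ℕ) : ℚ) * Sg m L n := by
  rw [Sg, Nat.cast_sum, mul_sum]
  apply sum_congr rfl
  intro i hi
  rw [mem_range] at hi
  exact psi_eq m L i (by omega)

lemma cN_pos (m L i : ℕ) : 0 < cN m L i := by
  unfold cN
  apply Nat.mul_pos <;> apply Nat.choose_pos <;> omega

lemma ratio_eq (m L n : ℕ) (hn : n ≤ 2 * m + 2) :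
    (∑ i ∈ range n, psi (m + 1) L i) / psi (m + 1) L 0 = (Sg m L n : ℚ) / cN m L 0 := by
  have h0 := psi_eq m L 0 (by omega)
  rw [Nat.cast_zero] at h0
  rw [sum_psi m L n hn, h0]
  have h1 : ((L.factorial * L.factorial : ℕ) : ℚ) ≠ 0 := by
    have := Nat.mul_pos L.factorial_pos L.factorial_pos
    exact_mod_cast this.ne'
  rw [mul_div_mul_left _ _ h1]

lemma W_pos (m : ℕ) : ∀ L, 0 < W m L
  | 0 => by rw [W]; norm_num
  | (L + 1) => by
    rw [W, ratio_eq m L (m + 1) (by omega)]
    apply mul_pos (W_pos m L)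
    apply div_pos
    · have : 0 < Sg m L (m + 1) := by
        unfold Sg
        apply sum_pos
        · intro i _; exact cN_pos _ _ _
        · exact ⟨0, by simp⟩
      exact_mod_cast this
    · exact_mod_cast cN_pos _ _ _

/-- convolution identity -/
lemma conv (a : ℕ) : ∀ b M : ℕ, ∑ i ∈ range (M + 1), (i + a).choose a * (M - i + b).choose b =
    (M + a + b + 1).choose (a + b + 1)
  | 0, M => by
    simp only [add_zero, Nat.choose_zero_right, mul_one]
    induction M with
    | zero => simp
    | succ M ih =>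
      rw [sum_range_succ, ih, show M + 1 + a + 1 = (M + a + 1) + 1 by ring,
        Nat.choose_succ_succ' (M + a + 1) a, show M + 1 + a = M + a + 1 by ring, add_comm]
  | (b + 1), M => by
    induction M with
    | zero => simp
    | succ M ih =>
      have h1 := conv a b (M + 1)
      have h2 : ∑ i ∈ range (M + 1 + 1), (i + a).choose a * (M + 1 - i + (b + 1)).choose (b + 1) =
          ∑ i ∈ range (M + 1 + 1), (i + a).choose a * (M + 1 - i + b).choose b +
          ∑ i ∈ range (M + 1), (i + a).choose a * (M - i + (b + 1)).choose (b + 1) := by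
        have h3 : ∀ i ∈ range (M + 1), (i + a).choose a * (M + 1 - i + (b + 1)).choose (b + 1) =
            (i + a).choose a * (M + 1 - i + b).choose b +
              (i + a).choose a * (M - i + (b + 1)).choose (b + 1) := by
          intro i hi
          rw [mem_range] at hi
          rw [show M + 1 - i + (b + 1) = (M - i + b + 1) + 1 by omega, Nat.choose_succ_succ,
            show M + 1 - i + b = M - i + b + 1 by omega, mul_add,
            show M - i + (b + 1) = M - i + b + 1 by omega]
        rw [sum_range_succ, sum_congr rfl h3, sum_add_distrib, sum_range_succ _ (M + 1)]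
        simp
        ring
      rw [h2, h1, ih, show M + 1 + a + (b + 1) + 1 = (M + a + b + 2) + 1 by ring,
        show a + (b + 1) + 1 = (a + b + 1) + 1 by ring,
        Nat.choose_succ_succ' (M + a + b + 2) (a + b + 1)]
      congr 2; ring

lemma Sg_full (m L : ℕ) : 2 * Sg m L (m + 1) = (2 * m + 2 * L + 2).choose (2 * L + 1) := by
  have h := conv L L (2 * m + 1)
  rw [show 2 * m + 1 + 1 = (m + 1) + (m + 1) by ring, sum_range_add] at h
  have h2 : ∑ x ∈ range (m + 1), (m + 1 + x + L).choose L * (2 * m + 1 - (m + 1 + x) + L).choose L =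
      ∑ x ∈ range (m + 1), cN m L x := by
    rw [← sum_range_reflect]
    apply sum_congr rfl
    intro i hi
    rw [mem_range] at hi
    unfold cN
    rw [mul_comm]
    congr 2 <;> omega
  rw [h2] at h
  rw [show 2 * m + 2 * L + 2 = 2 * m + 1 + L + L + 1 by ring, show 2 * L + 1 = L + L + 1 by ring, ← h,
    two_mul]
  rfl

/-- recursion for the weights -/
lemma W_rec (m L : ℕ) : W m (L + 1) * ((2 * (2 * m + 1 + L).choose L : ℕ) : ℚ) =
    W m L * ((2 * m + 2 * L + 2).choose (2 * L + 1) : ℕ) := by
  rw [W, ratio_eq m L (m + 1) (by omega), ← Sg_full]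
  have h1 : cN m L 0 = (2 * m + 1 + L).choose L := by simp [cN]
  have h2 : ((cN m L 0 : ℕ) : ℚ) ≠ 0 := by exact_mod_cast (cN_pos m L 0).ne'
  rw [← h1]
  push_cast
  field_simp

end Pool.Agent.helper54.Schub
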