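import Mathlib
import Pool.Agent.helper54.Schub.Weights

/-!
# Inequalities
-/

namespace Pool.Agent.helper54.Schub

open Finset

lemma choose_step (n L : ℕ) : (n + 1 + L).choose L * (n + 1) = (n + L).choose L * (n + L + 1) := by
  have := Nat.choose_mul_succ_eq (n + L) L
  rw [this, show n + L + 1 - L = n + 1 by omega, show n + 1 + L = n + L + 1 by ring]

lemma cN_succ (m L i : ℕ) (hi : i ≤ 2 * m) :
    cN m L (i + 1) * ((i + 1) * (2 * m + 1 - i + L)) =
      cN m L i * ((i + 1 + L) * (2 * m + 1 - i)) := by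
  obtain ⟨j, hj⟩ : ∃ j, 2 * m = i + j := ⟨2 * m - i, by omega⟩
  unfold cN
  have h1 := choose_step i L
  have h2 := choose_step j L
  rw [show 2 * m + 1 - (i + 1) + L = j + L by omega, show 2 * m + 1 - i + L = j + 1 + L by omega,
    show 2 * m + 1 - i = j + 1 by omega]
  calc (i + 1 + L).choose L * (j + L).choose L * ((i + 1) * (j + 1 + L))
      = ((i + 1 + L).choose L * (i + 1)) * ((j + L).choose L * (j + L + 1)) := by ring
    _ = ((i + L).choose L * (i + L + 1)) * ((j + 1 + L).choose L * (j + 1)) := by rw [h1, h2]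
    _ = _ := by ring

lemma cN_mono_step (m L i : ℕ) (hi : i ≤ m) : cN m L i ≤ cN m L (i + 1) := by
  have h := cN_succ m L i (by omega)
  obtain ⟨j, hj⟩ : ∃ j, 2 * m + 1 - i = j + 1 := ⟨2 * m - i, by omega⟩
  rw [hj] at h
  have hij : i ≤ j := by omega
  have h2 : (i + 1) * (j + 1 + L) ≤ (i + 1 + L) * (j + 1) := by nlinarith
  have hpos : 0 < (i + 1) * (j + 1 + L) := by positivity
  have h3 : cN m L i * ((i + 1) * (j + 1 + L)) ≤ cN m L (i + 1) * ((i + 1) * (j + 1 + L)) := by
    rw [h]; exact Nat.mul_le_mul_left _ h2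
  exact Nat.le_of_mul_le_mul_right h3 hpos

lemma cN_le_mid (m L i : ℕ) (hi : i ≤ m) : cN m L i ≤ cN m L m := by
  induction hi using Nat.decreasingInduction with
  | self => exact le_rfl
  | of_succ k hk ih => exact (cN_mono_step m L k (by omega)).trans ih

lemma cN_step_choose (m L i : ℕ) (hi : i < m) :
    cN m L (i + 1) * (2 * m + 1).choose i ≤ cN m L i * (2 * m + 1).choose (i + 1) := by
  have h := cN_succ m L i (by omega)
  have h2 := Nat.choose_succ_right_eq (2 * m + 1) i
  obtain ⟨j, hj⟩ : ∃ j, 2 * m + 1 - i = j + 1 := ⟨2 * m - i, by omega⟩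
  rw [hj] at h h2
  have hij : i + 1 ≤ j := by omega
  -- multiply both sides by `(i+1) (j+1+L)`
  have hpos : 0 < (i + 1) * (j + 1 + L) := by positivity
  apply Nat.le_of_mul_le_mul_right _ hpos
  calc cN m L (i + 1) * (2 * m + 1).choose i * ((i + 1) * (j + 1 + L))
      = cN m L (i + 1) * ((i + 1) * (j + 1 + L)) * (2 * m + 1).choose i := by ring
    _ = cN m L i * ((i + 1 + L) * (j + 1)) * (2 * m + 1).choose i := by rw [h]
    _ = cN m L i * ((2 * m + 1).choose i * (j + 1)) * (i + 1 + L) := by ring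
    _ = cN m L i * ((2 * m + 1).choose (i + 1) * (i + 1)) * (i + 1 + L) := by rw [h2]
    _ ≤ cN m L i * ((2 * m + 1).choose (i + 1) * (i + 1)) * (j + 1 + L) := by
        apply Nat.mul_le_mul_left; omega
    _ = _ := by ring

lemma cN_mid_choose (m L i : ℕ) (hi : i ≤ m) :
    cN m L m * (2 * m + 1).choose i ≤ cN m L i * (2 * m + 1).choose m := by
  induction hi using Nat.decreasingInduction with
  | self => exact le_rfl
  | of_succ k hk ih =>
    have h1 := cN_step_choose m L k hk
    have hpos : 0 < (2 * m + 1).choose (k + 1) := Nat.choose_pos (by omega)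
    apply Nat.le_of_mul_le_mul_right _ hpos
    calc cN m L m * (2 * m + 1).choose k * (2 * m + 1).choose (k + 1)
        = cN m L m * (2 * m + 1).choose (k + 1) * (2 * m + 1).choose k := by ring
      _ ≤ cN m L (k + 1) * (2 * m + 1).choose m * (2 * m + 1).choose k :=
          Nat.mul_le_mul_right _ ih
      _ = cN m L (k + 1) * (2 * m + 1).choose k * (2 * m + 1).choose m := by ring
      _ ≤ cN m L k * (2 * m + 1).choose (k + 1) * (2 * m + 1).choose m :=
          Nat.mul_le_mul_right _ h1
      _ = _ := by ring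

lemma cN_mid_le (m L : ℕ) : cN m L m * 4 ^ m ≤ Sg m L (m + 1) * (2 * m + 1).choose m := by
  rw [← Nat.sum_range_choose_halfway, mul_sum, Sg, sum_mul]
  apply sum_le_sum
  intro i hi
  rw [mem_range] at hi
  exact cN_mid_choose m L i (by omega)

/-- the constant `C(2m+1,m)/4^m` -/
def cc (m : ℕ) : ℚ := ((2 * m + 1).choose m : ℚ) / 4 ^ m

lemma cc_succ_le (m : ℕ) : cc (m + 1) ≤ cc m := by
  unfold cc
  have h1 : (2 * m + 3).choose (m + 1) * (m + 2) = 2 * (2 * m + 3) * (2 * m + 1).choose m := by
    have e1 := Nat.add_one_mul_choose_eq (2 * m + 2) m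
    have e2 := Nat.choose_mul_succ_eq (2 * m + 1) m
    have e3 : 2 * m + 1 + 1 - m = m + 2 := by omega
    rw [e3] at e2
    have e4 : (2 * m + 3) * (2 * m + 2).choose m = (2 * m + 3).choose (m + 1) * (m + 1) := e1
    have e5 : (2 * m + 1).choose m * (2 * m + 2) = (2 * m + 2).choose m * (m + 2) := e2
    have hpos : 0 < m + 1 := by omega
    apply Nat.eq_of_mul_eq_mul_right hpos
    calc (2 * m + 3).choose (m + 1) * (m + 2) * (m + 1)
        = ((2 * m + 3).choose (m + 1) * (m + 1)) * (m + 2) := by ring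
      _ = (2 * m + 3) * (2 * m + 2).choose m * (m + 2) := by rw [e4]
      _ = (2 * m + 3) * ((2 * m + 1).choose m * (2 * m + 2)) := by rw [e5]; ring
      _ = _ := by ring
  rw [show 2 * (m + 1) + 1 = 2 * m + 3 by ring, div_le_div_iff₀ (by positivity) (by positivity),
    pow_succ]
  have h2 : ((2 * m + 3).choose (m + 1) : ℚ) * (m + 2) = 2 * (2 * m + 3) * (2 * m + 1).choose m := by
    exact_mod_cast h1
  have h3 : ((2 * m + 3).choose (m + 1) : ℚ) ≤ (2 * m + 1).choose m * 4 := by
    have hp : (0 : ℚ) < m + 2 := by positivity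
    have hm : (0 : ℚ) ≤ ((2 * m + 1).choose m : ℚ) := by positivity
    by_contra hcon
    push Not at hcon
    have := mul_lt_mul_of_pos_right hcon hp
    rw [h2] at this
    nlinarith
  calc ((2 * m + 3).choose (m + 1) : ℚ) * 4 ^ m ≤ ((2 * m + 1).choose m * 4) * 4 ^ m :=
        mul_le_mul_of_nonneg_right h3 (by positivity)
    _ = _ := by ring

lemma cc_anti : Antitone cc := antitone_nat_of_succ_le cc_succ_le

/-- lower bound for the normalised tails -/
lemma Q_ge (m α y : ℕ) (hy : y ≤ m + 1) : W m α * (1 - y * cc m) ≤ Q m α y := by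
  have hcc : 0 ≤ cc m := by unfold cc; positivity
  cases α with
  | zero =>
    rw [Q, W, one_mul]
    have : (0 : ℚ) ≤ y * cc m := by positivity
    linarith
  | succ L =>
    rw [Q, W, mul_assoc]
    apply mul_le_mul_of_nonneg_left _ (W_pos m L).le
    rw [ratio_eq m L (m + 1) (by omega), ratio_eq m L (m + 1 - y) (by omega), div_mul_eq_mul_div]
    apply div_le_div_of_nonneg_right _ (by positivity)
    -- Sg(m+1) (1 - y c) ≤ Sg(m+1-y)
    have h1 : Sg m L (m + 1) ≤ Sg m L (m + 1 - y) + y * cN m L m := by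
      have e : m + 1 = (m + 1 - y) + y := by omega
      conv_lhs => rw [e]
      unfold Sg
      rw [sum_range_add]
      apply Nat.add_le_add_left
      calc ∑ x ∈ range y, cN m L (m + 1 - y + x) ≤ ∑ _x ∈ range y, cN m L m := by
            apply sum_le_sum
            intro x hx
            rw [mem_range] at hx
            exact cN_le_mid m L _ (by omega)
        _ = y * cN m L m := by rw [sum_const, card_range, smul_eq_mul]
    have h2 := cN_mid_le m L
    have h3 : (cN m L m : ℚ) ≤ Sg m L (m + 1) * cc m := by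
      unfold cc
      rw [← mul_div_assoc, le_div_iff₀ (by positivity)]
      exact_mod_cast h2
    have h4 : (Sg m L (m + 1) : ℚ) ≤ Sg m L (m + 1 - y) + y * cN m L m := by exact_mod_cast h1
    have h5 : (y : ℚ) * cN m L m ≤ y * (Sg m L (m + 1) * cc m) :=
      mul_le_mul_of_nonneg_left h3 (by positivity)
    linarith

lemma Q_nonneg (m α y : ℕ) (hy : y ≤ m + 1) : 0 ≤ Q m α y := by
  cases α with
  | zero => rw [Q]; norm_num
  | succ L =>
    rw [Q, ratio_eq m L (m + 1 - y) (by omega)]
    exact mul_nonneg (W_pos m L).le (by positivity)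

/-- for `m ≥ 12` the corner swap increases the value -/
lemma sum_Q_gt (m α β : ℕ) (hm : 12 ≤ m) :
    W m α * W (m + α + 1) β < ∑ y ∈ range (m + 1), Q m α y * Q (m + α + 1) β (y + 1) := by
  have hW := W_pos m α
  have hW' := W_pos (m + α + 1) β
  have h12 : cc m ≤ cc 12 := cc_anti hm
  have h13 : cc (m + α + 1) ≤ cc 13 := cc_anti (by omega)
  have hc0 : 0 ≤ cc m := by unfold cc; positivity
  have hc0' : 0 ≤ cc (m + α + 1) := by unfold cc; positivity
  have n12 : cc 12 ≤ 31 / 100 := by
    unfold cc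
    have h : Nat.choose (2 * 12 + 1) 12 = 5200300 := by decide +kernel
    rw [h]
    norm_num
  have n13 : cc 13 ≤ 299 / 1000 := by
    unfold cc
    have h : Nat.choose (2 * 13 + 1) 13 = 20058300 := by decide +kernel
    rw [h]
    norm_num
  have q0 := Q_ge m α 0 (by omega)
  have q1 := Q_ge m α 1 (by omega)
  have q2 := Q_ge m α 2 (by omega)
  have r1 := Q_ge (m + α + 1) β 1 (by omega)
  have r2 := Q_ge (m + α + 1) β 2 (by omega)
  have r3 := Q_ge (m + α + 1) β 3 (by omega)
  set a := W m α
  set b := W (m + α + 1) β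
  have hsub : ∑ y ∈ range 3, Q m α y * Q (m + α + 1) β (y + 1) ≤
      ∑ y ∈ range (m + 1), Q m α y * Q (m + α + 1) β (y + 1) := by
    apply sum_le_sum_of_subset_of_nonneg
    · intro i; simp only [mem_range]; omega
    · intro i hi _
      rw [mem_range] at hi
      exact mul_nonneg (Q_nonneg _ _ _ (by omega)) (Q_nonneg _ _ _ (by omega))
  refine lt_of_lt_of_le ?_ hsub
  rw [sum_range_succ, sum_range_succ, sum_range_succ, sum_range_zero, zero_add]
  have s0 : a * (1 - (0 : ℕ) * cc m) = a := by simp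
  rw [s0] at q0
  have c1 : (0 : ℚ) ≤ a * (69 / 100) := by positivity
  have q1' : a * (69 / 100) ≤ Q m α 1 := by
    refine le_trans ?_ q1
    apply mul_le_mul_of_nonneg_left _ hW.le
    push_cast; linarith
  have q2' : a * (38 / 100) ≤ Q m α 2 := by
    refine le_trans ?_ q2
    apply mul_le_mul_of_nonneg_left _ hW.le
    push_cast; linarith
  have r1' : b * (701 / 1000) ≤ Q (m + α + 1) β 1 := by
    refine le_trans ?_ r1
    apply mul_le_mul_of_nonneg_left _ hW'.le
    push_cast; linarith
  have r2' : b * (402 / 1000) ≤ Q (m + α + 1) β 2 := by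
    refine le_trans ?_ r2
    apply mul_le_mul_of_nonneg_left _ hW'.le
    push_cast; linarith
  have r3' : b * (103 / 1000) ≤ Q (m + α + 1) β 3 := by
    refine le_trans ?_ r3
    apply mul_le_mul_of_nonneg_left _ hW'.le
    push_cast; linarith
  have p0 : a * (b * (701 / 1000)) ≤ Q m α 0 * Q (m + α + 1) β (0 + 1) :=
    mul_le_mul q0 r1' (by positivity) (hW.le.trans q0)
  have p1 : (a * (69 / 100)) * (b * (402 / 1000)) ≤ Q m α 1 * Q (m + α + 1) β (1 + 1) :=
    mul_le_mul q1' r2' (by positivity) (c1.trans q1')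
  have p2 : (a * (38 / 100)) * (b * (103 / 1000)) ≤ Q m α 2 * Q (m + α + 1) β (2 + 1) :=
    mul_le_mul q2' r3' (by positivity) ((by positivity : (0 : ℚ) ≤ a * (38 / 100)).trans q2')
  have hab : 0 < a * b := mul_pos hW hW'
  nlinarith

end Pool.Agent.helper54.Schub
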