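import Mathlib
import Pool.Agent.helper54.Schub.Ineq

/-!
# Splitting a long block
-/

namespace Pool.Agent.helper54.Schub

open Finset

lemma choose_fac {n a b : ℕ} (h : n = a + b) :
    (n.choose a : ℚ) = (n.factorial : ℚ) / (a.factorial * b.factorial) := by
  subst h; exact Nat.cast_add_choose ℚ

lemma split_identity (k L : ℕ) :
    ((2 * k + 2 * L + 2).choose L : ℚ) * (2 * k + 2 * L + 4).choose (2 * L + 1) *
        (2 * k + 1 + (L + 1)).choose (L + 1) =
      (2 * k + 2 * L + 4).choose (L + 1) * (2 * (k + 1) + 1 + L).choose L *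
        (2 * k + 2 * L + 2).choose (2 * k + 1) := by
  rw [choose_fac (n := 2 * k + 2 * L + 2) (a := L) (b := 2 * k + L + 2) (by ring),
    choose_fac (n := 2 * k + 2 * L + 4) (a := 2 * L + 1) (b := 2 * k + 3) (by ring),
    choose_fac (n := 2 * k + 1 + (L + 1)) (a := L + 1) (b := 2 * k + 1) (by ring),
    choose_fac (n := 2 * k + 2 * L + 4) (a := L + 1) (b := 2 * k + L + 3) (by ring),
    choose_fac (n := 2 * (k + 1) + 1 + L) (a := L) (b := 2 * k + 3) (by ring),
    choose_fac (n := 2 * k + 2 * L + 2) (a := 2 * k + 1) (b := 2 * L + 1) (by ring),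
    show 2 * k + 1 + (L + 1) = 2 * k + L + 2 by ring,
    show 2 * (k + 1) + 1 + L = 2 * k + L + 3 by ring]
  have f : ∀ n : ℕ, (n.factorial : ℚ) ≠ 0 := fun n => by exact_mod_cast n.factorial_ne_zero
  have f1 := f L
  have f2 := f (2 * k + L + 2)
  have f3 := f (2 * L + 1)
  have f4 := f (2 * k + 3)
  have f5 := f (L + 1)
  have f6 := f (2 * k + 1)
  have f7 := f (2 * k + L + 3)
  field_simp

lemma split_ratio (k : ℕ) : ∀ L : ℕ,
    W (k + 1) L * (2 * k + 2 * L + 2).choose (2 * k + 1) =
      W k (L + 1) * (2 * (2 * k + 2 * L + 2).choose L)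
  | 0 => by
    have h := W_rec k 0
    rw [W] at h
    rw [W]
    simp only [Nat.choose_zero_right, mul_zero, add_zero, zero_add, Nat.choose_one_right] at h ⊢
    rw [show (2 * k + 2).choose (2 * k + 1) = 2 * k + 2 from by
      rw [Nat.choose_symm_of_eq_add (show 2 * k + 2 = (2 * k + 1) + 1 by ring),
        Nat.choose_one_right]]
    push_cast at h ⊢
    linarith
  | (L + 1) => by
    have ih := split_ratio k L
    have h1 := W_rec k (L + 1)
    have h2 := W_rec (k + 1) L
    have h3 := split_identity k L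
    rw [show 2 * k + 2 * (L + 1) + 2 = 2 * k + 2 * L + 4 by ring,
      show 2 * (L + 1) + 1 = 2 * L + 3 by ring] at h1
    rw [show 2 * (k + 1) + 2 * L + 2 = 2 * k + 2 * L + 4 by ring] at h2
    rw [show 2 * k + 2 * (L + 1) + 2 = 2 * k + 2 * L + 4 by ring]
    have h4 : (2 * k + 2 * L + 4).choose (2 * L + 3) = (2 * k + 2 * L + 4).choose (2 * k + 1) := by
      apply Nat.choose_symm_of_eq_add; ring
    rw [h4] at h1
    have p : ∀ n r : ℕ, r ≤ n → ((n.choose r : ℕ) : ℚ) ≠ 0 := fun n r h => by
      exact_mod_cast (Nat.choose_pos h).ne'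
    have p1 := p (2 * (k + 1) + 1 + L) L (by omega)
    have p2 := p (2 * k + 1 + (L + 1)) (L + 1) (by omega)
    have p3 := p (2 * k + 2 * L + 2) (2 * k + 1) (by omega)
    set A := ((2 * (k + 1) + 1 + L).choose L : ℚ) with hA
    set B := ((2 * k + 1 + (L + 1)).choose (L + 1) : ℚ) with hB
    set D := ((2 * k + 2 * L + 2).choose (2 * k + 1) : ℚ) with hD
    set E := ((2 * k + 2 * L + 4).choose (2 * k + 1) : ℚ) with hE
    set F := ((2 * k + 2 * L + 4).choose (L + 1) : ℚ) with hF
    set G := ((2 * k + 2 * L + 4).choose (2 * L + 1) : ℚ) with hG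
    set H := ((2 * k + 2 * L + 2).choose L : ℚ) with hH
    push_cast at h1 h2
    change W (k + 1) (L + 1) * (2 * A) = W (k + 1) L * G at h2
    change W k (L + 1 + 1) * (2 * B) = W k (L + 1) * E at h1
    have key : (W (k + 1) (L + 1) * E) * (4 * A * B * D) =
        (W k (L + 1 + 1) * (2 * F)) * (4 * A * B * D) := by
      calc (W (k + 1) (L + 1) * E) * (4 * A * B * D)
          = (W (k + 1) (L + 1) * (2 * A)) * E * 2 * B * D := by ring
        _ = (W (k + 1) L * D) * G * E * 2 * B := by rw [h2]; ring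
        _ = W k (L + 1) * E * 4 * (H * G * B) := by rw [ih]; ring
        _ = W k (L + 1) * E * 4 * (F * A * D) := by rw [h3]
        _ = (W k (L + 1 + 1) * (2 * B)) * 4 * (F * A * D) := by rw [h1]
        _ = _ := by ring
    have hne : 4 * A * B * D ≠ 0 := by
      refine mul_ne_zero (mul_ne_zero (mul_ne_zero (by norm_num) p1) p2) p3
    exact mul_right_cancel₀ hne key

lemma split_lt (k L : ℕ) (h : 2 * k + 1 ≤ L) : W k (L + 1) < W (k + 1) L := by
  have h1 := split_ratio k L
  have h2 : (2 * k + 2 * L + 2).choose (2 * k + 1) ≤ (2 * k + 2 * L + 2).choose L := by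
    have : Monotone fun j : ℕ => (2 * k + 2 * L + 2).choose (min j (k + L + 1)) := by
      apply monotone_nat_of_le_succ
      intro j
      by_cases hj : j < k + L + 1
      · rw [min_eq_left (by omega), min_eq_left (by omega)]
        apply Nat.choose_le_succ_of_lt_half_left
        omega
      · rw [min_eq_right (by omega), min_eq_right (by omega)]
    have h3 := this h
    dsimp only at h3
    rwa [min_eq_left (by omega), min_eq_left (by omega)] at h3
  have hpos : 0 < (2 * k + 2 * L + 2).choose (2 * k + 1) := Nat.choose_pos (by omega)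
  have h3 : (0 : ℚ) < (2 * k + 2 * L + 2).choose (2 * k + 1) := by exact_mod_cast hpos
  have h4 : ((2 * k + 2 * L + 2).choose (2 * k + 1) : ℚ) ≤ (2 * k + 2 * L + 2).choose L := by
    exact_mod_cast h2
  have hW := W_pos k (L + 1)
  by_contra hcon
  push Not at hcon
  have h5 : W (k + 1) L * (2 * k + 2 * L + 2).choose (2 * k + 1) ≤
      W k (L + 1) * (2 * k + 2 * L + 2).choose (2 * k + 1) :=
    mul_le_mul_of_nonneg_right hcon h3.le
  rw [h1] at h5
  have h6 : W k (L + 1) * ((2 * k + 2 * L + 2).choose (2 * k + 1) : ℚ) <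
      W k (L + 1) * (2 * (2 * k + 2 * L + 2).choose L) := by
    apply mul_lt_mul_of_pos_left _ hW
    linarith
  linarith

end Pool.Agent.helper54.Schub
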