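import Mathlib
import Pool.Agent.helper54.Schub.Data
import Pool.Agent.helper54.Schub.Split

/-!
# Soundness of the finite verification
-/

namespace Pool.Agent.helper54.Schub

open Finset

/-- table with a leading entry for `n = 0` -/
def tbl0 : List (ℕ × ℕ) := (1, 0) :: tbl

/-- maximal layered values -/
def MM (n : ℕ) : ℕ := (tbl0.getD n (0, 0)).1
/-- last block size minus one of the optimal layered permutation -/
def op (n : ℕ) : ℕ := (tbl0.getD n (0, 0)).2

/-- what a step verifies -/
def StepOK (Mk k l : ℕ) (x : ℕ × ℕ) : Prop :=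
  (Mk : ℚ) * W k l ≤ x.1 ∧ (l = x.2 → (Mk : ℚ) * W k l = x.1) ∧
    (l ≠ x.2 → 7 ≤ k + l + 1 → (Mk : ℚ) * W k l < x.1)

lemma T1_step (k l : ℕ) : (2 * k + 2 * l + 2).choose (2 * l + 1) *
    ((2 * k + 2 * l + 4) * (2 * k + 2 * l + 3)) / ((2 * l + 3) * (2 * l + 2)) =
    (2 * k + 2 * (l + 1) + 2).choose (2 * (l + 1) + 1) := by
  have e1 := Nat.add_one_mul_choose_eq (2 * k + 2 * l + 2) (2 * l + 1)
  have e2 := Nat.add_one_mul_choose_eq (2 * k + 2 * l + 3) (2 * l + 2)
  apply Nat.div_eq_of_eq_mul_left (by positivity)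
  rw [show 2 * k + 2 * (l + 1) + 2 = 2 * k + 2 * l + 3 + 1 by ring,
    show 2 * (l + 1) + 1 = 2 * l + 2 + 1 by ring]
  have e1' : (2 * k + 2 * l + 3) * (2 * k + 2 * l + 2).choose (2 * l + 1) =
      (2 * k + 2 * l + 3).choose (2 * l + 2) * (2 * l + 2) := e1
  have e2' : (2 * k + 2 * l + 4) * (2 * k + 2 * l + 3).choose (2 * l + 2) =
      (2 * k + 2 * l + 3 + 1).choose (2 * l + 2 + 1) * (2 * l + 3) := e2
  calc (2 * k + 2 * l + 2).choose (2 * l + 1) * ((2 * k + 2 * l + 4) * (2 * k + 2 * l + 3))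
      = (2 * k + 2 * l + 4) * ((2 * k + 2 * l + 3) * (2 * k + 2 * l + 2).choose (2 * l + 1)) := by
        ring
    _ = (2 * k + 2 * l + 4) * (2 * k + 2 * l + 3).choose (2 * l + 2) * (2 * l + 2) := by
        rw [e1']; ring
    _ = _ := by rw [e2']; ring

lemma T2_step (k l : ℕ) : 2 * (2 * k + 1 + l).choose l * (2 * k + 2 + l) / (l + 1) =
    2 * (2 * k + 1 + (l + 1)).choose (l + 1) := by
  have e1 := Nat.add_one_mul_choose_eq (2 * k + 1 + l) l
  apply Nat.div_eq_of_eq_mul_left (by positivity)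
  have e1' : (2 * k + 2 + l) * (2 * k + 1 + l).choose l =
      (2 * k + 1 + (l + 1)).choose (l + 1) * (l + 1) := by
    rw [show 2 * k + 2 + l = 2 * k + 1 + l + 1 by ring]; exact e1
  calc 2 * (2 * k + 1 + l).choose l * (2 * k + 2 + l)
      = 2 * ((2 * k + 2 + l) * (2 * k + 1 + l).choose l) := by ring
    _ = _ := by rw [e1']; ring

lemma loopb_sound (Mk k : ℕ) : ∀ (L : List (ℕ × ℕ)) (l w T1 T2 : ℕ),
    loopb Mk k L l w T1 T2 = true → (w : ℚ) = W k l →
    T1 = (2 * k + 2 * l + 2).choose (2 * l + 1) → T2 = 2 * (2 * k + 1 + l).choose l →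
    ∀ (j : ℕ) (y : ℕ × ℕ), L[j]? = some y → StepOK Mk k (l + j) y
  | [], _, _, _, _, _, _, _, _ => by intro j y h; simp at h
  | x :: rest, l, w, T1, T2, h, hw, h1, h2 => by
    rw [loopb, Bool.and_eq_true, Bool.and_eq_true] at h
    obtain ⟨ha, hb, hc⟩ := h
    have hb' : w * T1 % T2 = 0 := Nat.eq_of_beq_eq_true hb
    intro j y hj
    cases j with
    | zero =>
      rw [List.getElem?_cons_zero, Option.some_inj] at hj
      subst hj
      rw [add_zero]
      unfold StepOK
      rw [← hw]
      by_cases hl : l = x.2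
      · have hbeq : Nat.beq l x.2 = true := by rw [Nat.beq_eq]; exact hl
        rw [hbeq, cond_true] at ha
        have ha' : Mk * w = x.1 := Nat.eq_of_beq_eq_true ha
        have ha'' : (Mk : ℚ) * w = x.1 := by exact_mod_cast ha'
        exact ⟨ha''.le, fun _ => ha'', fun h => absurd hl h⟩
      · have hbeq : Nat.beq l x.2 = false := by
          rw [Bool.eq_false_iff]; intro h3; exact hl (Nat.eq_of_beq_eq_true h3)
        rw [hbeq, cond_false, Bool.or_eq_true, Bool.and_eq_true] at ha
        rcases ha with ha | ⟨ha, ha2⟩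
        · have ha' : Mk * w + 1 ≤ x.1 := Nat.le_of_ble_eq_true ha
          have ha'' : (Mk : ℚ) * w < x.1 := by exact_mod_cast ha'
          exact ⟨ha''.le, fun h => absurd h hl, fun _ _ => ha''⟩
        · have ha' : k + l + 1 ≤ 6 := Nat.le_of_ble_eq_true ha
          have ha3 : Mk * w ≤ x.1 := Nat.le_of_ble_eq_true ha2
          have ha'' : (Mk : ℚ) * w ≤ x.1 := by exact_mod_cast ha3
          exact ⟨ha'', fun h => absurd h hl, fun _ h7 => by omega⟩
    | succ j =>
      rw [List.getElem?_cons_succ] at hj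
      have hrec := W_rec k l
      have hT2 : (0 : ℚ) < T2 := by
        rw [h2]
        have : 0 < (2 * k + 1 + l).choose l := Nat.choose_pos (by omega)
        exact_mod_cast Nat.mul_pos (by norm_num) this
      have hw' : ((w * T1 / T2 : ℕ) : ℚ) = W k (l + 1) := by
        have hdvd : T2 ∣ w * T1 := Nat.dvd_of_mod_eq_zero hb'
        rw [Nat.cast_div hdvd hT2.ne', div_eq_iff hT2.ne']
        push_cast
        rw [← h1, ← h2, ← hw] at hrec
        exact hrec.symm
      have := loopb_sound Mk k rest (l + 1) _ _ _ hc hw' (by rw [h1]; exact T1_step k l)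
        (by rw [h2]; exact T2_step k l) j y hj
      rw [show l + (j + 1) = l + 1 + j by ring]
      exact this

lemma outer_sound : ∀ (L : List (ℕ × ℕ)) (k Mk d : ℕ), outer L k Mk = true →
    ∀ (i j : ℕ) (x y : ℕ × ℕ), ((Mk, d) :: L)[i]? = some x → L[i + j]? = some y →
    StepOK x.1 (k + i) j y
  | [], _, _, _, _ => by intro i j x y _ h; simp at h
  | z :: rest, k, Mk, d, h => by
    rw [outer, Bool.and_eq_true] at h
    intro i j x y hx hy
    cases i with
    | zero =>
      rw [List.getElem?_cons_zero, Option.some_inj] at hx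
      subst hx
      have := loopb_sound Mk k (z :: rest) 0 1 (2 * k + 2) 2 h.1 (by rw [W]; norm_num)
        (by simp) (by simp) j y (by rw [zero_add] at hy; exact hy)
      rw [zero_add] at this
      rw [add_zero]
      exact this
    | succ i =>
      rw [List.getElem?_cons_succ] at hx
      rw [show i + 1 + j = i + j + 1 by ring, List.getElem?_cons_succ] at hy
      have := outer_sound rest (k + 1) z.1 z.2 h.2 i j x y hx hy
      rw [show k + (i + 1) = k + 1 + i by ring]
      exact this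

lemma tbl0_length : tbl0.length = 108 := by decide +kernel

lemma tbl0_get (n : ℕ) (hn : n ≤ 107) : tbl0[n]? = some (MM n, op n) := by
  have h : n < tbl0.length := by rw [tbl0_length]; omega
  rw [List.getElem?_eq_getElem h]
  unfold MM op
  rw [List.getD_eq_getElem _ _ h]

theorem step_ok (k l : ℕ) (h : k + l + 1 ≤ 107) : StepOK (MM k) k l (MM (k + l + 1), op (k + l + 1)) := by
  have h1 := tbl0_get k (by omega)
  have h2 := tbl0_get (k + l + 1) h
  have h3 : tbl[k + l]? = some (MM (k + l + 1), op (k + l + 1)) := by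
    rw [← h2]; rfl
  have := outer_sound tbl 0 1 0 outer_tbl k l _ _ h1 h3
  rw [zero_add] at this
  exact this

lemma MM_zero : MM 0 = 1 := rfl

/-- integer version of `psi` -/
def psiN (m i : ℕ) : ℕ → ℕ
  | 0 => 1
  | (L + 1) => psiN m i L * ((i + L + 1) * (2 * m + 2 + L - i))

/-- partial sums -/
def SN (m L : ℕ) : ℕ → ℕ
  | 0 => 0
  | (n + 1) => SN m L n + psiN m n L

/-- partial sums, with value one for blocks of size one -/
def SS1 (m : ℕ) : ℕ → ℕ → ℕ
  | 0, _ => 1
  | (a + 1), n => SN m a n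

/-- the numerator of the gain -/
def rsum (m α k β : ℕ) : ℕ → ℕ
  | 0 => 0
  | (y + 1) => rsum m α k β y + SS1 m α (m + 1 - y) * SS1 k β (k - y)

/-- the corner swap increases the value -/
def rchk (m α β : ℕ) : Bool :=
  Nat.ble (SS1 m α (m + 1) * SS1 (m + α + 1) β (m + α + 1 + 1) + 1)
    (rsum m α (m + α + 1) β (m + 1))

/-- checks for one size -/
def nchk (n : ℕ) : Bool :=
  Nat.ble (op n + 8) n &&
  (Nat.ble (op (n - 1 - op n) + 1) (n - 1 - op n) &&
  (Nat.ble 12 (n - 1 - op n - 1 - op (n - 1 - op n)) ||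
   rchk (n - 1 - op n - 1 - op (n - 1 - op n)) (op (n - 1 - op n)) (op n)))

theorem nchk_all : (List.range 91).all (fun i => nchk (i + 17)) = true := by decide +kernel

theorem opchk_all : (List.range 107).all (fun i => Nat.ble (op (i + 1) + 1) (i + 1)) = true := by
  decide +kernel

end Pool.Agent.helper54.Schub
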