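import Mathlib
import Pool.Agent.helper54.Schub.Swap
import Pool.Agent.helper54.Schub.Defs

/-!
# Existence and uniqueness of the Schubert family
-/

namespace Pool.Agent.helper54.Schub

open Equiv MvPolynomial

section prod

variable {K : Type*} [CommRing K]

/-- the generating function of Fomin and Stanley -/
def sprod {R : Type*} [Ring R] [Algebra K R] (u : ℕ → R) (x : ℕ → K) : ℕ → ℕ → R
  | 0, _ => 1
  | (l + 1), p => dn u (x p) (l + 1) p * sprod u x l (p + 1)

lemma sprod_congr {R : Type*} [Ring R] [Algebra K R] (u : ℕ → R) (x y : ℕ → K) : ∀ (l p : ℕ),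
    (∀ i, p ≤ i → i < p + l → x i = y i) → sprod u x l p = sprod u y l p
  | 0, _, _ => rfl
  | (l + 1), p, h => by
    rw [sprod, sprod, h p le_rfl (by omega),
      sprod_congr u x y l (p + 1) (fun i h1 h2 => h i (by omega) (by omega))]

lemma u_comm_sprod {R : Type*} [Ring R] [Algebra K R] {u : ℕ → R} (hu : NilCox u) (x : ℕ → K)
    (i : ℕ) : ∀ (l p : ℕ), i + 2 ≤ p → u i * sprod u x l p = sprod u x l p * u i
  | 0, _, _ => by simp [sprod]
  | (l + 1), p, h => by
    rw [sprod, ← mul_assoc, u_comm_dn hu (x p) i (l + 1) p h, mul_assoc,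
      u_comm_sprod hu x i l (p + 1) (by omega), mul_assoc]

lemma sprod_diff {R : Type*} [Ring R] [Algebra K R] {u : ℕ → R} (hu : NilCox u) (x : ℕ → K)
    (i : ℕ) : ∀ (l p : ℕ), p ≤ i → i < p + l →
    sprod u x l p - sprod u (x ∘ sj i) l p = (x i - x (i + 1)) • (sprod u x l p * u i)
  | 0, _, _, _ => by omega
  | (l + 1), p, h1, h2 => by
    rcases eq_or_lt_of_le h1 with rfl | h1
    · have e1 : ∀ z : ℕ → K, sprod u z l (p + 1) =
          dn u (z (p + 1)) l (p + 1) * sprod u z (l - 1) (p + 2) := by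
        intro z
        cases l with
        | zero => simp [sprod]
        | succ l => rfl
      have e2 : sprod u (x ∘ sj p) (l - 1) (p + 2) = sprod u x (l - 1) (p + 2) := by
        apply sprod_congr
        intro i h1 _
        rw [Function.comp_apply, sj_of_ne (by omega) (by omega)]
      rw [sprod, sprod, e1, e1, e2, Function.comp_apply, Function.comp_apply, sj_left, sj_right,
        ← mul_assoc, ← mul_assoc, ← sub_mul, fomin_stanley hu, smul_mul_assoc, mul_assoc,
        u_comm_sprod hu x p (l - 1) (p + 2) le_rfl, ← mul_assoc]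
    · have ih := sprod_diff hu x i l (p + 1) h1 (by omega)
      rw [sprod, sprod, Function.comp_apply, sj_of_ne (by omega) (by omega), ← mul_sub, ih,
        mul_smul_comm, mul_assoc]

variable {K' : Type*} [CommRing K'] (g : K →+* K')

lemma lam_map (j : ℕ) (f : Perm ℕ → K) (w : Perm ℕ) :
    g (lam K j f w) = lam K' j (fun w => g (f w)) w := by
  rw [lam_apply, lam_apply]; split_ifs
  · rfl
  · exact map_zero g

lemma fac_map (x : K) (j : ℕ) (f : Perm ℕ → K) (w : Perm ℕ) :
    g (fac (lam K) x j f w) = fac (lam K') (g x) j (fun w => g (f w)) w := by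
  rw [fac_apply, fac_apply, Pi.add_apply, Pi.add_apply, Pi.smul_apply, Pi.smul_apply, map_add,
    smul_eq_mul, smul_eq_mul, map_mul, lam_map]

lemma dn_map (x : K) : ∀ (l p : ℕ) (f : Perm ℕ → K) (w : Perm ℕ),
    g (dn (lam K) x l p f w) = dn (lam K') (g x) l p (fun w => g (f w)) w
  | 0, _, _, _ => rfl
  | (l + 1), p, f, w => by
    rw [dn_succ, dn_succ, Module.End.mul_apply, Module.End.mul_apply, dn_map x l (p + 1)]
    exact congrArg (fun F => dn (lam K') (g x) l (p + 1) F w)
      (funext fun v => fac_map g x p f v)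

lemma sprod_map (x : ℕ → K) : ∀ (l p : ℕ) (f : Perm ℕ → K) (w : Perm ℕ),
    g (sprod (lam K) x l p f w) = sprod (lam K') (g ∘ x) l p (fun w => g (f w)) w
  | 0, _, _, _ => rfl
  | (l + 1), p, f, w => by
    rw [sprod, sprod, Module.End.mul_apply, Module.End.mul_apply, dn_map, Function.comp_apply]
    exact congrArg (fun F => dn (lam K') (g (x p)) (l + 1) p F w)
      (funext fun v => sprod_map x l (p + 1) f v)

lemma cf_sprod_map (x : ℕ → K) (l p : ℕ) (w : Perm ℕ) :
    g (cf w (sprod (lam K) x l p)) = cf w (sprod (lam K') (g ∘ x) l p) := by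
  unfold cf
  rw [sprod_map]
  refine congrArg (fun F => sprod (lam K') (g ∘ x) l p F w) (funext fun v => ?_)
  rw [del_apply, del_apply]
  split_ifs
  · exact map_one g
  · exact map_zero g

lemma sup_sprod (x : ℕ → K) {p r : ℕ} : ∀ (l q : ℕ) (f : Perm ℕ → K), Sup p r f → p + r < q →
    Sup p r (sprod (lam K) x l q f)
  | 0, q, f, h, _ => h
  | (l + 1), q, f, h, hq => by
    rw [sprod]
    exact sup_dn_of_lt (x q) (l + 1) q _ (sup_sprod x l (q + 1) f h (by omega)) hq

lemma cf_sprod_rv (x : ℕ → K) : ∀ (l p : ℕ),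
    cf (rv p l) (sprod (lam K) x l p) = ∏ i ∈ Finset.range l, x (p + i) ^ (l - i)
  | 0, p => by rw [rv_zero, sprod, Finset.range_zero, Finset.prod_empty]; exact del_one
  | (l + 1), p => by
    rw [sprod, cf_mul, top_rv _ _ _ (sup_sprod x l (p + 1) _ (sup_del p) (by omega)),
      Finset.prod_range_succ', mul_comm]
    have := cf_sprod_rv x l (p + 1)
    unfold cf at this
    rw [this]
    congr 1
    apply Finset.prod_congr rfl
    intro i _
    rw [show p + 1 + i = p + (i + 1) by ring, show l + 1 - (i + 1) = l - i by omega]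

lemma sprod_one {R : Type*} [Ring R] [Algebra K R] (u : ℕ → R) : ∀ (l p : ℕ),
    sprod u (fun _ => (1 : K)) l p = sch K u l p
  | 0, _ => rfl
  | (l + 1), p => by rw [sprod, sch_succ, sprod_one u l (p + 1)]

end prod

/-- extension of a permutation of `Fin n` to `ℕ` -/
def iot {n : ℕ} (w : Perm (Fin n)) : Perm ℕ where
  toFun x := if h : x < n then (w ⟨x, h⟩ : ℕ) else x
  invFun x := if h : x < n then (w⁻¹ ⟨x, h⟩ : ℕ) else x
  left_inv x := by
    by_cases h : x < n
    · simp [h]
    · simp [h]
  right_inv x := by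
    by_cases h : x < n
    · simp [h]
    · simp [h]

lemma iot_apply {n : ℕ} (w : Perm (Fin n)) (i : Fin n) : iot w i = w i := by
  show (if h : (i : ℕ) < n then (w ⟨i, h⟩ : ℕ) else i) = w i
  rw [dif_pos i.2]

lemma iot_apply_of_ge {n : ℕ} (w : Perm (Fin n)) {x : ℕ} (h : n ≤ x) : iot w x = x := by
  show (if h : x < n then (w ⟨x, h⟩ : ℕ) else x) = x
  rw [dif_neg (by omega)]

lemma fa_iot {n : ℕ} (w : Perm (Fin n)) : FA n (iot w) := fun _ h => iot_apply_of_ge w h

lemma iot_ext {n : ℕ} {w : Perm (Fin n)} {v : Perm ℕ} (h1 : FA n v)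
    (h2 : ∀ i : Fin n, (w i : ℕ) = v i) : iot w = v := by
  ext x
  by_cases h : x < n
  · have := iot_apply w ⟨x, h⟩
    rw [h2] at this
    exact this
  · rw [iot_apply_of_ge w (by omega), h1 x (by omega)]

lemma iot_mul_swap {n : ℕ} (w : Perm (Fin n)) {i j : Fin n} (h : (i : ℕ) + 1 = j) :
    iot (w * swap i j) = iot w * sj i := by
  apply iot_ext
  · exact (fa_iot w).mul (fa_sj (by omega))
  · intro k
    rw [Perm.mul_apply, Perm.mul_apply]
    by_cases h1 : k = i
    · subst h1; rw [swap_apply_left, sj_left, h, iot_apply]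
    · by_cases h2 : k = j
      · subst h2; rw [swap_apply_right, ← h, sj_right, iot_apply]
      · rw [swap_apply_of_ne_of_ne h1 h2, sj_of_ne, iot_apply]
        · intro h3; exact h1 (Fin.ext h3)
        · intro h3; exact h2 (Fin.ext (h3.trans h))

lemma iot_rev (n : ℕ) : iot (Fin.revPerm : Perm (Fin n)) = rv 0 (n - 1) := by
  apply iot_ext
  · cases n with
    | zero => rw [rv_zero]; exact fa_one 0
    | succ n => exact fa_rv (by omega)
  · intro i
    rw [Fin.revPerm_apply, Fin.val_rev, rv_apply]
    have := i.2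
    rw [if_pos (by omega)]; omega

/-- restriction of a permutation of `ℕ` to `Fin n` -/
def rst {n : ℕ} (v : Perm ℕ) (h : FA n v) : Perm (Fin n) where
  toFun i := ⟨v i, h.lt i.2⟩
  invFun i := ⟨v⁻¹ i, h.inv.lt i.2⟩
  left_inv i := by simp
  right_inv i := by simp

lemma iot_rst {n : ℕ} (v : Perm ℕ) (h : FA n v) : iot (rst v h) = v := by
  apply iot_ext h
  intro i; rfl

/-- the variables, extended by one -/
noncomputable def xv (n : ℕ) (i : ℕ) : MvPolynomial (Fin n) ℤ := if h : i < n then X ⟨i, h⟩ else 1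

/-- the Schubert family -/
noncomputable def SS (n : ℕ) (w : Perm (Fin n)) : MvPolynomial (Fin n) ℤ :=
  cf (iot w) (sprod (lam (MvPolynomial (Fin n) ℤ)) (xv n) (n - 1) 0)

lemma xv_swap {n : ℕ} {i j : Fin n} (h : (i : ℕ) + 1 = j) :
    (rename (swap i j) : MvPolynomial (Fin n) ℤ →ₐ[ℤ] _) ∘ xv n = xv n ∘ sj i := by
  ext1 k
  simp only [Function.comp_apply]
  unfold xv
  by_cases hk : k < n
  · have hk2 : sj i k < n := by rw [sj_apply]; split_ifs <;> omega
    rw [dif_pos hk, dif_pos hk2, rename_X]
    congr 1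
    by_cases h1 : (⟨k, hk⟩ : Fin n) = i
    · rw [h1, swap_apply_left]
      apply Fin.ext
      have h1' : k = i := congrArg Fin.val h1
      show (j : ℕ) = sj i k
      rw [h1', sj_left, h]
    · by_cases h2 : (⟨k, hk⟩ : Fin n) = j
      · rw [h2, swap_apply_right]
        apply Fin.ext
        have h2' : k = j := congrArg Fin.val h2
        show (i : ℕ) = sj i k
        rw [h2', ← h, sj_right]
      · rw [swap_apply_of_ne_of_ne h1 h2]
        apply Fin.ext
        have h1' : k ≠ i := fun h3 => h1 (Fin.ext h3)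
        have h2' : k ≠ i + 1 := fun h3 => h2 (Fin.ext (h3.trans h))
        show k = sj i k
        rw [sj_of_ne h1' h2']
  · have hk2 : ¬ sj i k < n := by rw [sj_of_ne (by omega) (by omega)]; exact hk
    rw [dif_neg hk, dif_neg hk2, map_one]

theorem isSchubert_SS (n : ℕ) : IsSchubert n (SS n) := by
  constructor
  · rw [SS, iot_rev, cf_sprod_rv]
    cases n with
    | zero => simp
    | succ n =>
      rw [Nat.add_sub_cancel, Fin.prod_univ_castSucc]
      have e1 : (X (Fin.last n) : MvPolynomial (Fin (n + 1)) ℤ) ^ (n - (Fin.last n : ℕ)) = 1 := by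
        simp
      rw [e1, mul_one, Finset.prod_range]
      apply Finset.prod_congr rfl
      intro i _
      rw [Fin.val_castSucc, zero_add]
      congr 1
      unfold xv
      rw [dif_pos (by omega)]
      rfl
  · intro w i j hij hw
    have h1 : i < n - 1 := by omega
    have hd := sprod_diff (nilCox_lam (K := MvPolynomial (Fin n) ℤ)) (xv n) i (n - 1) 0
      (by omega) (by omega)
    have hx : xv n i = X i := by unfold xv; rw [dif_pos i.2]
    have hy : xv n (i + 1) = X j := by
      unfold xv; rw [dif_pos (by omega)]; congr 1; exact Fin.ext hij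
    have hm : rename (swap i j) (SS n w) =
        cf (iot w) (sprod (lam (MvPolynomial (Fin n) ℤ)) (xv n ∘ sj i) (n - 1) 0) := by
      have := cf_sprod_map (rename (swap i j) :
        MvPolynomial (Fin n) ℤ →ₐ[ℤ] MvPolynomial (Fin n) ℤ).toRingHom (xv n) (n - 1) 0 (iot w)
      rw [← xv_swap hij]
      exact this
    have hrc : RC (sprod (lam (MvPolynomial (Fin n) ℤ)) (xv n) (n - 1) 0) := by
      have : ∀ l p, RC (sprod (lam (MvPolynomial (Fin n) ℤ)) (xv n) l p) := by
        intro l
        induction l with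
        | zero => intro p; exact rc_one
        | succ l ih => intro p; exact rc_mul (rc_dn _ _ _) (ih _)
      exact this _ _
    rw [hm, SS, SS, ← cf_sub, hd, cf_smul, hx, hy, cf_mul_lam hrc, iot_mul_swap w hij, if_pos]
    have h2 := iot_apply w i
    have h3 := iot_apply w j
    rw [hij, h2, h3]
    exact hw

end Pool.Agent.helper54.Schub
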