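import Mathlib
import Pool.Agent.helper54.Schub.Exist

/-!
# Uniqueness of the Schubert family, and the principal evaluation
-/

namespace Pool.Agent.helper54.Schub

open Equiv MvPolynomial

/-- a permutation without ascents is the reversal -/
lemma eq_rev_of_no_ascent {n : ℕ} (w : Perm (Fin n))
    (h : ∀ i j : Fin n, (i : ℕ) + 1 = j → w j < w i) : w = Fin.revPerm := by
  cases n with
  | zero => exact Subsingleton.elim _ _
  | succ n =>
    have h1 : StrictAnti w := by
      rw [Fin.strictAnti_iff_succ_lt]
      intro i
      exact h _ _ (by simp)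
    have h2 : StrictMono (fun i => w (Fin.rev i)) := fun a b hab => h1 (Fin.rev_lt_rev.2 hab)
    have h3 : (fun i => w (Fin.rev i)) = id := by
      apply (StrictMono.range_inj h2 strictMono_id).1
      rw [Set.range_id, Set.range_eq_univ]
      exact w.surjective.comp Fin.rev_surjective
    ext i
    have := congrFun h3 (Fin.rev i)
    simp only [Fin.rev_rev, id_eq] at this
    rw [this]; rfl

/-- measure decreasing along weak order -/
def msr {n : ℕ} (w : Perm (Fin n)) : ℕ := ∑ k : Fin n, (k : ℕ) * (w k : ℕ)

lemma msr_swap_lt {n : ℕ} (w : Perm (Fin n)) {i j : Fin n} (hij : (i : ℕ) + 1 = j)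
    (hw : w i < w j) : msr (w * swap i j) < msr w := by
  unfold msr
  have hne : i ≠ j := by intro h; subst h; omega
  have hsplit : ∀ f : Fin n → ℕ, ∑ k, f k = f i + f j + ∑ k ∈ (Finset.univ.erase i).erase j, f k := by
    intro f
    rw [← Finset.add_sum_erase Finset.univ f (Finset.mem_univ i),
      ← Finset.add_sum_erase (Finset.univ.erase i) f
        (Finset.mem_erase.2 ⟨hne.symm, Finset.mem_univ j⟩), add_assoc]
  rw [hsplit, hsplit]
  have h1 : ∑ k ∈ (Finset.univ.erase i).erase j, (k : ℕ) * ((w * swap i j) k : ℕ) =
      ∑ k ∈ (Finset.univ.erase i).erase j, (k : ℕ) * (w k : ℕ) := by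
    apply Finset.sum_congr rfl
    intro k hk
    rw [Finset.mem_erase, Finset.mem_erase] at hk
    rw [Perm.mul_apply, swap_apply_of_ne_of_ne hk.2.1 hk.1]
  rw [h1, Perm.mul_apply, Perm.mul_apply, swap_apply_left, swap_apply_right]
  apply Nat.add_lt_add_right
  have h2 : (w i : ℕ) < w j := hw
  rw [← hij]
  nlinarith

theorem IsSchubert.unique {n : ℕ} {S S' : Perm (Fin n) → MvPolynomial (Fin n) ℤ}
    (h : IsSchubert n S) (h' : IsSchubert n S') : S = S' := by
  have key : ∀ (N : ℕ) (w : Perm (Fin n)), msr w < N → S w = S' w := by
    intro N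
    induction N with
    | zero => intro w hw; omega
    | succ N ih =>
      intro w hw
      by_cases hrev : w = Fin.revPerm
      · rw [hrev, h.1, h'.1]
      · have : ∃ i j : Fin n, (i : ℕ) + 1 = j ∧ w i < w j := by
          by_contra hcon
          push Not at hcon
          apply hrev
          apply eq_rev_of_no_ascent
          intro i j hij
          apply lt_of_le_of_ne (hcon i j hij)
          intro h3
          have := w.injective h3
          subst this
          omega
        obtain ⟨i, j, hij, hwij⟩ := this
        have hlt := msr_swap_lt w hij hwij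
        have e := ih (w * swap i j) (by omega)
        have hd : (w * swap i j) j < (w * swap i j) i := by
          rw [Perm.mul_apply, Perm.mul_apply, swap_apply_left, swap_apply_right]
          exact hwij
        have g := h.2 (w * swap i j) i j hij hd
        have g' := h'.2 (w * swap i j) i j hij hd
        rw [mul_assoc, swap_mul_self, mul_one] at g g'
        rw [e, ← g'] at g
        have hne : (X i - X j : MvPolynomial (Fin n) ℤ) ≠ 0 := by
          rw [sub_ne_zero]
          intro h3
          have := X_injective h3
          subst this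
          omega
        exact mul_left_cancel₀ hne g
  funext w
  exact key _ w (Nat.lt_succ_self _)

theorem existsUnique_isSchubert (n : ℕ) :
    ∃! S : Perm (Fin n) → MvPolynomial (Fin n) ℤ, IsSchubert n S :=
  ⟨SS n, isSchubert_SS n, fun _ h => h.unique (isSchubert_SS n)⟩

/-- the coefficient sum as a coefficient of the nilCoxeter product -/
noncomputable def val (n : ℕ) (v : Perm ℕ) : ℚ := cf v (sch ℚ (lam ℚ) (n - 1) 0)

theorem nu_eq_val {n : ℕ} {S : Perm (Fin n) → MvPolynomial (Fin n) ℤ} (h : IsSchubert n S)
    (w : Perm (Fin n)) : ((nu S w : ℤ) : ℚ) = val n (iot w) := by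
  rw [h.unique (isSchubert_SS n)]
  unfold nu val SS
  have := cf_sprod_map ((Int.castRingHom ℚ).comp (eval (fun _ : Fin n => (1 : ℤ)))) (xv n) (n - 1) 0
    (iot w)
  have e : (((Int.castRingHom ℚ).comp (eval (fun _ : Fin n => (1 : ℤ)))) ∘ xv n) = fun _ => 1 := by
    ext k
    simp only [Function.comp_apply, xv]
    split_ifs <;> simp
  rw [e, sprod_one] at this
  rw [← this]
  rfl

end Pool.Agent.helper54.Schub
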