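import Mathlib
import Pool.Agent.helper54.Schub.DP
import Pool.Agent.helper54.Schub.Uniq

/-!
# No layered permutation is a maximizer
-/

namespace Pool.Agent.helper54.Schub

open Finset Equiv

lemma psiN_cast (m i : ℕ) (hi : i ≤ 2 * m + 2) : ∀ L, (psiN m i L : ℚ) = psi (m + 1) L i
  | 0 => by simp [psiN, psi]
  | (L + 1) => by
    rw [psiN, psi, prod_range_succ, ← psi]
    push_cast [Nat.cast_sub (show i ≤ 2 * m + 2 + L by omega)]
    rw [psiN_cast m i hi L]
    ring

lemma SN_cast (m L : ℕ) : ∀ n, n ≤ 2 * m + 3 → (SN m L n : ℚ) = ∑ i ∈ range n, psi (m + 1) L i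
  | 0, _ => by simp [SN]
  | (n + 1), h => by
    rw [SN, sum_range_succ, ← SN_cast m L n (by omega)]
    push_cast
    rw [psiN_cast m n (by omega)]

/-- common positive factor -/
def DD (m : ℕ) : ℕ → ℚ
  | 0 => 1
  | (a + 1) => W m a / psi (m + 1) a 0

lemma DD_pos (m : ℕ) : ∀ α, 0 < DD m α
  | 0 => by rw [DD]; norm_num
  | (a + 1) => by
    rw [DD]; exact div_pos (W_pos m a) (psi_zero_pos (by omega) a)

lemma W_DD (m : ℕ) : ∀ α, W m α = DD m α * SS1 m α (m + 1)
  | 0 => by rw [W, DD, SS1]; norm_num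
  | (a + 1) => by
    rw [W, DD, SS1, SN_cast m a (m + 1) (by omega)]
    ring

lemma Q_DD (m y : ℕ) : ∀ α, Q m α y = DD m α * SS1 m α (m + 1 - y)
  | 0 => by rw [Q, DD, SS1]; norm_num
  | (a + 1) => by
    rw [Q, DD, SS1, SN_cast m a (m + 1 - y) (by omega)]
    ring

lemma rsum_cast (m α k β : ℕ) : ∀ Y, (rsum m α k β Y : ℚ) =
    ∑ y ∈ range Y, (SS1 m α (m + 1 - y) : ℚ) * SS1 k β (k - y)
  | 0 => by simp [rsum]
  | (Y + 1) => by
    rw [rsum, sum_range_succ, ← rsum_cast m α k β Y]
    push_cast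
    ring

lemma rchk_sound (m α β : ℕ) (h : rchk m α β = true) :
    W m α * W (m + α + 1) β < ∑ y ∈ range (m + 1), Q m α y * Q (m + α + 1) β (y + 1) := by
  have h1 : SS1 m α (m + 1) * SS1 (m + α + 1) β (m + α + 1 + 1) + 1 ≤
    rsum m α (m + α + 1) β (m + 1) := Nat.le_of_ble_eq_true h
  have h2 : (SS1 m α (m + 1) : ℚ) * SS1 (m + α + 1) β (m + α + 1 + 1) <
      rsum m α (m + α + 1) β (m + 1) := by exact_mod_cast h1
  rw [rsum_cast] at h2
  have hD := mul_pos (DD_pos m α) (DD_pos (m + α + 1) β)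
  have e1 : ∑ y ∈ range (m + 1), Q m α y * Q (m + α + 1) β (y + 1) =
      DD m α * DD (m + α + 1) β * ∑ y ∈ range (m + 1), (SS1 m α (m + 1 - y) : ℚ) *
        SS1 (m + α + 1) β (m + α + 1 - y) := by
    rw [mul_sum]
    apply sum_congr rfl
    intro y _
    rw [Q_DD, Q_DD, show m + α + 1 + 1 - (y + 1) = m + α + 1 - y by omega]
    ring
  have e2 : W m α * W (m + α + 1) β = DD m α * DD (m + α + 1) β *
      ((SS1 m α (m + 1) : ℚ) * SS1 (m + α + 1) β (m + α + 1 + 1)) := by
    rw [W_DD m α, W_DD (m + α + 1) β]; ring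
  rw [e1, e2]
  exact mul_lt_mul_of_pos_left h2 hD

/-- layered permutations, as permutations of `ℕ` with support in `[0,n)` -/
inductive Lay : ℕ → Perm ℕ → Prop
  | nil : Lay 0 1
  | cons {m : ℕ} {σ : Perm ℕ} (l : ℕ) (h : Lay m σ) : Lay (m + l + 1) (σ * rv m l)

lemma Lay.fa {n : ℕ} {σ : Perm ℕ} (h : Lay n σ) : FA n σ := by
  induction h with
  | nil => exact fa_one 0
  | cons l h ih => exact (ih.mono (by omega)).mul (fa_rv (by omega))

lemma val_cons (m l : ℕ) (σ : Perm ℕ) (h : FA m σ) :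
    val (m + l + 1) (σ * rv m l) = val m σ * W m l := by
  unfold val
  rw [Nat.add_sub_cancel]
  exact cf_sch_mul_rv m l σ h

lemma val_nil : val 0 1 = 1 := by
  unfold val
  exact del_one

lemma Lay.val_pos {n : ℕ} {σ : Perm ℕ} (h : Lay n σ) : 0 < val n σ := by
  induction h with
  | nil => rw [val_nil]; norm_num
  | cons l h ih => rw [val_cons _ _ _ h.fa]; exact mul_pos ih (W_pos _ _)

/-- `σ` does not maximize the value -/
def Imp (n : ℕ) (σ : Perm ℕ) : Prop := ∃ v, FA n v ∧ val n σ < val n v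

lemma imp_corner {m α β : ℕ} {σ : Perm ℕ} (hσ : Lay m σ)
    (h : W m α * W (m + α + 1) β < ∑ y ∈ range (m + 1), Q m α y * Q (m + α + 1) β (y + 1)) :
    Imp (m + α + 1 + β + 1) (σ * rv m α * rv (m + α + 1) β) := by
  refine ⟨σ * rv m α * rv (m + α + 1) β * sj (m + α), ?_, ?_⟩
  · exact ((((hσ.fa.mono (by omega)).mul (fa_rv (by omega))).mul (fa_rv (by omega)))).mul
      (fa_sj (by omega))
  · have h1 := cf_swap_ge m α β σ hσ.fa
    have h2 : Lay (m + α + 1) (σ * rv m α) := Lay.cons α hσ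
    rw [val_cons _ _ _ h2.fa, val_cons _ _ _ hσ.fa]
    have h3 := hσ.val_pos
    refine lt_of_lt_of_le ?_ h1
    rw [mul_assoc]
    exact mul_lt_mul_of_pos_left h h3

lemma imp_split_last {k L : ℕ} {σ : Perm ℕ} (hσ : Lay k σ) (h : 2 * k + 1 ≤ L) :
    Imp (k + (L + 1) + 1) (σ * rv k (L + 1)) := by
  refine ⟨σ * rv k 0 * rv (k + 1) L, ?_, ?_⟩
  · exact (((hσ.fa.mono (by omega)).mul (fa_rv (by omega))).mul (fa_rv (by omega)))
  · have h2 : Lay (k + 0 + 1) (σ * rv k 0) := Lay.cons 0 hσ
    rw [val_cons _ _ _ hσ.fa, show k + (L + 1) + 1 = (k + 1) + L + 1 by ring,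
      val_cons (k + 1) L _ h2.fa, val_cons k 0 _ hσ.fa, W, mul_one]
    exact mul_lt_mul_of_pos_left (split_lt k L h) hσ.val_pos

lemma imp_split_second {m L l : ℕ} {σ : Perm ℕ} (hσ : Lay m σ) (h : 2 * m + 1 ≤ L) :
    Imp (m + (L + 1) + 1 + l + 1) (σ * rv m (L + 1) * rv (m + (L + 1) + 1) l) := by
  obtain ⟨v, hv1, hv2⟩ := imp_split_last hσ h
  have h1 : Lay (m + (L + 1) + 1) (σ * rv m (L + 1)) := Lay.cons _ hσ
  refine ⟨v * rv (m + (L + 1) + 1) l, (hv1.mono (by omega)).mul (fa_rv (by omega)), ?_⟩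
  rw [val_cons _ _ _ h1.fa, val_cons _ _ _ hv1]
  exact mul_lt_mul_of_pos_right hv2 (W_pos _ _)

/-- large sizes -/
theorem imp_large {n : ℕ} {w : Perm ℕ} (hw : Lay n w) (hn : 108 ≤ n) : Imp n w := by
  cases hw with
  | nil => omega
  | @cons k σ' l hσ' =>
    by_cases hl : 2 * k + 2 ≤ l
    · obtain ⟨L, rfl⟩ : ∃ L, l = L + 1 := ⟨l - 1, by omega⟩
      exact imp_split_last hσ' (by omega)
    · cases hσ' with
      | nil => omega
      | @cons m σ α hσ =>
        by_cases hα : 2 * m + 2 ≤ α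
        · obtain ⟨L, rfl⟩ : ∃ L, α = L + 1 := ⟨α - 1, by omega⟩
          exact imp_split_second hσ (by omega)
        · exact imp_corner hσ (sum_Q_gt m α l (by omega))

lemma op_lt (n : ℕ) (h1 : 1 ≤ n) (h2 : n ≤ 107) : op n + 1 ≤ n := by
  have h := opchk_all
  rw [List.all_eq_true] at h
  have h3 := h (n - 1) (by rw [List.mem_range]; omega)
  have h4 := Nat.le_of_ble_eq_true h3
  rwa [show n - 1 + 1 = n by omega] at h4

/-- the optimal value is attained -/
lemma exists_opt : ∀ n, n ≤ 107 → ∃ σ, Lay n σ ∧ val n σ = MM n := by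
  intro n
  induction n using Nat.strong_induction_on with
  | _ n ih =>
    intro hn
    rcases Nat.eq_zero_or_pos n with rfl | hpos
    · exact ⟨1, Lay.nil, by rw [val_nil, MM_zero]; norm_num⟩
    · have h1 := op_lt n hpos hn
      obtain ⟨k, hk⟩ : ∃ k, n = k + op n + 1 := ⟨n - op n - 1, by omega⟩
      obtain ⟨σ, hσ, hv⟩ := ih k (by omega) (by omega)
      have h2 := (step_ok k (op n) (by omega)).2.1
      rw [← hk] at h2
      have h3 := h2 rfl
      have h4 : Lay (k + op n + 1) (σ * rv k (op n)) := Lay.cons _ hσ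
      have h5 := val_cons k (op n) σ hσ.fa
      rw [hv, h3] at h5
      rw [← hk] at h4 h5
      exact ⟨_, h4, h5⟩

lemma val_le_MM {n : ℕ} {σ : Perm ℕ} (h : Lay n σ) : n ≤ 107 → val n σ ≤ MM n := by
  induction h with
  | nil => intro _; rw [val_nil, MM_zero]; norm_num
  | @cons m σ l h ih =>
    intro hn
    rw [val_cons _ _ _ h.fa]
    have h1 := ih (by omega)
    have h2 := (step_ok m l hn).1
    exact (mul_le_mul_of_nonneg_right h1 (W_pos m l).le).trans h2

lemma imp_of_lt {n : ℕ} {w : Perm ℕ} (hn : n ≤ 107) (h : val n w < MM n) : Imp n w := by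
  obtain ⟨σ, hσ, hv⟩ := exists_opt n hn
  exact ⟨σ, hσ.fa, by rw [hv]; exact h⟩

lemma nchk_sound (n : ℕ) (h1 : 17 ≤ n) (h2 : n ≤ 107) : nchk n = true := by
  have h := nchk_all
  rw [List.all_eq_true] at h
  have h3 := h (n - 17) (by rw [List.mem_range]; omega)
  rwa [show n - 17 + 17 = n by omega] at h3

/-- small sizes -/
theorem imp_small {n : ℕ} {w : Perm ℕ} (hw : Lay n w) (h17 : 17 ≤ n) (hn : n ≤ 107) : Imp n w := by
  cases hw with
  | nil => omega
  | @cons k σ' l hσ' =>
    have hs := step_ok k l hn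
    have hv := val_cons k l σ' hσ'.fa
    have hle := val_le_MM hσ' (by omega)
    have hW := W_pos k l
    by_cases hl : l = op (k + l + 1)
    · have hc := nchk_sound (k + l + 1) h17 hn
      unfold nchk at hc
      rw [← hl, show k + l + 1 - 1 - l = k by omega, Bool.and_eq_true, Bool.and_eq_true,
        Bool.or_eq_true] at hc
      obtain ⟨hc1, hc2, hc3⟩ := hc
      have hc1' := Nat.le_of_ble_eq_true hc1
      cases hσ' with
      | nil => omega
      | @cons m σ α hσ =>
        by_cases hα : α = op (m + α + 1)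
        · rw [← hα, show m + α + 1 - 1 - α = m by omega] at hc3
          rcases hc3 with hc3 | hc3
          · exact imp_corner hσ (sum_Q_gt m α l (Nat.le_of_ble_eq_true hc3))
          · exact imp_corner hσ (rchk_sound m α l hc3)
        · apply imp_of_lt hn
          have hs2 := step_ok m α (by omega)
          have h3 := hs2.2.2 hα (by omega)
          have h4 := val_le_MM hσ (by omega)
          have h5 : val (m + α + 1) (σ * rv m α) < MM (m + α + 1) := by
            rw [val_cons _ _ _ hσ.fa]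
            exact lt_of_le_of_lt (mul_le_mul_of_nonneg_right h4 (W_pos m α).le) h3
          rw [hv]
          exact lt_of_lt_of_le (mul_lt_mul_of_pos_right h5 hW) hs.1
    · apply imp_of_lt hn
      rw [hv]
      exact lt_of_le_of_lt (mul_le_mul_of_nonneg_right hle hW.le) (hs.2.2 hl (by omega))

theorem imp_all {n : ℕ} {w : Perm ℕ} (hw : Lay n w) (h17 : 17 ≤ n) : Imp n w := by
  by_cases hn : n ≤ 107
  · exact imp_small hw h17 hn
  · exact imp_large hw (by omega)

/-- product of block reversals -/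
def blk (a : ℕ → ℕ) : ℕ → Perm ℕ
  | 0 => 1
  | (t + 1) => blk a t * rv (a t) (a (t + 1) - a t - 1)

lemma lay_blk {a : ℕ → ℕ} (h0 : a 0 = 0) : ∀ k, (∀ t < k, a t < a (t + 1)) → Lay (a k) (blk a k)
  | 0, _ => by rw [h0]; exact Lay.nil
  | (k + 1), h => by
    have ih := lay_blk h0 k (fun t ht => h t (by omega))
    have h1 := h k (by omega)
    have := Lay.cons (a (k + 1) - a k - 1) ih
    rw [show a k + (a (k + 1) - a k - 1) + 1 = a (k + 1) by omega] at this
    exact this

lemma blk_apply {a : ℕ → ℕ} : ∀ k, (∀ t < k, a t < a (t + 1)) → ∀ t < k, ∀ p, a t ≤ p →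
    p < a (t + 1) → blk a k p + p + 1 = a t + a (t + 1)
  | 0, _, t, ht, _, _, _ => by omega
  | (k + 1), h, t, ht, p, h1, h2 => by
    have hk := h k (by omega)
    have hmono : ∀ j, ∀ i, i ≤ j → j ≤ k + 1 → a i ≤ a j := by
      intro j
      induction j with
      | zero => intro i hi _; rw [Nat.le_zero.1 hi]
      | succ j ih =>
        intro i hi hj
        rcases Nat.lt_or_ge i (j + 1) with h3 | h3
        · exact (ih i (by omega) (by omega)).trans (h j (by omega)).le
        · rw [show i = j + 1 by omega]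
    rw [blk, Perm.mul_apply]
    by_cases htk : t = k
    · subst htk
      have hfix : ∀ x, a t ≤ x → blk a t x = x := by
        have : ∀ s, s ≤ t → ∀ x, a s ≤ x → blk a s x = x := by
          intro s
          induction s with
          | zero => intro _ x _; rfl
          | succ s ih =>
            intro hs x hx
            have h3 := h s (by omega)
            rw [blk, Perm.mul_apply, rv_apply, if_neg (by omega)]
            exact ih (by omega) x (by omega)
        exact this t le_rfl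
      rw [rv_apply, if_pos (by omega), hfix _ (by omega)]
      omega
    · have h3 : p < a k := lt_of_lt_of_le h2 (hmono k (t + 1) (by omega) (by omega))
      rw [rv_apply, if_neg (by omega)]
      exact blk_apply k (fun t ht => h t (by omega)) t (by omega) p h1 h2

/-- a point below `a k` lies in one of the blocks -/
lemma exists_block {a : ℕ → ℕ} (h0 : a 0 = 0) : ∀ k, (∀ t < k, a t < a (t + 1)) → ∀ p, p < a k →
    ∃ t < k, a t ≤ p ∧ p < a (t + 1)
  | 0, _, p, hp => by omega
  | (k + 1), h, p, hp => by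
    by_cases h1 : p < a k
    · obtain ⟨t, ht, h2⟩ := exists_block h0 k (fun t ht => h t (by omega)) p h1
      exact ⟨t, by omega, h2⟩
    · exact ⟨k, by omega, by omega, hp⟩

lemma IsLayered.lay {n : ℕ} {w : Perm (Fin n)} (h : IsLayered w) : Lay n (iot w) := by
  obtain ⟨k, a, h0, hk, hinc, hw⟩ := h
  have h1 := lay_blk h0 k hinc
  rw [hk] at h1
  have h2 : iot w = blk a k := by
    apply iot_ext h1.fa
    intro i
    obtain ⟨t, ht, h3, h4⟩ := exists_block h0 k hinc i (by rw [hk]; exact i.2)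
    have h5 := blk_apply k hinc t ht i h3 h4
    have h6 := hw t ht i h3 h4
    omega
  rw [h2]
  exact h1

/-- **Main theorem.** -/
theorem not_layered {n : ℕ} (hn : 17 ≤ n) {S : Perm (Fin n) → MvPolynomial (Fin n) ℤ}
    (hS : IsSchubert n S) (w : Perm (Fin n)) (hw : IsLayered w) :
    ∃ v : Perm (Fin n), nu S w < nu S v := by
  obtain ⟨v, hv1, hv2⟩ := imp_all hw.lay hn
  refine ⟨rst v hv1, ?_⟩
  have h1 := nu_eq_val hS w
  have h2 := nu_eq_val hS (rst v hv1)
  rw [iot_rst] at h2
  rw [← h1, ← h2] at hv2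
  exact_mod_cast hv2

end Pool.Agent.helper54.Schub
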